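import Pool.Agent.Work.MP_63853a_lc.HF.Defs

set_option autoImplicit false

/-!
# AsmD (size M)

`asm` is a bijection from the pairs `(A, B)` to the edge sets of `gadB` (inverse: `A v = {p | inl (v, p) ∈ S}`, `B = {e | inr e ∈ S}`).
`asm_card`: the edge set is the disjoint union of the images.
-/

namespace Pool.Agent.Work.MP_63853a_lc.HF

open Finset Pool.Agent.Work.MP_63853a_lc Pool.Agent.Work.MP_63853a_lc.Tr

open Classical in
/-- the edge set with the edges `A v` in the clique of `v` and the edges `B` between the cliques -/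
noncomputable def asm {V E : Type} [Fintype V] [Fintype E] (φ : E → V × V) (M : ℕ) (A : V → Finset (Prs M))
    (B : Finset (NL φ)) : Finset (EB φ M) :=
  univ.filter fun f => Sum.elim (fun w : V × Prs M => w.2 ∈ A w.1) (fun e => e ∈ B) f

theorem mem_asm_inl {V E : Type} [Fintype V] [Fintype E] (φ : E → V × V) {M : ℕ} {A : V → Finset (Prs M)}
    {B : Finset (NL φ)} {w : V × Prs M} : (Sum.inl w : EB φ M) ∈ asm φ M A B ↔ w.2 ∈ A w.1 := by
  simp [asm]

theorem mem_asm_inr {V E : Type} [Fintype V] [Fintype E] (φ : E → V × V) {M : ℕ} {A : V → Finset (Prs M)}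
    {B : Finset (NL φ)} {e : NL φ} : (Sum.inr e : EB φ M) ∈ asm φ M A B ↔ e ∈ B := by
  simp [asm]

theorem asm_card {V E : Type} [Fintype V] [Fintype E] (φ : E → V × V) {M : ℕ} (A : V → Finset (Prs M))
    (B : Finset (NL φ)) : (asm φ M A B).card = B.card + ∑ v, (A v).card := by
  classical
  have h1 : (asm φ M A B).card =
      ∑ f : EB φ M, if Sum.elim (fun w : V × Prs M => w.2 ∈ A w.1) (fun e => e ∈ B) f then 1
        else 0 := by
    unfold asm
    rw [card_filter]
  rw [h1, Fintype.sum_sum_type, add_comm]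
  have h2 : ∑ e : NL φ, (if Sum.elim (fun w : V × Prs M => w.2 ∈ A w.1) (fun e => e ∈ B)
      (Sum.inr e : EB φ M) then 1 else 0) = B.card := by
    have h3 : B.card = ∑ e : NL φ, if e ∈ B then 1 else 0 := by
      rw [← card_filter]
      congr 1
      ext e
      simp
    rw [h3]
    exact sum_congr rfl fun e _ => if_congr Iff.rfl rfl rfl
  have h4 : ∑ w : V × Prs M, (if Sum.elim (fun w : V × Prs M => w.2 ∈ A w.1) (fun e => e ∈ B)
      (Sum.inl w : EB φ M) then 1 else 0) = ∑ v, (A v).card := by
    rw [Fintype.sum_prod_type]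
    refine sum_congr rfl fun v _ => ?_
    have h5 : (A v).card = ∑ p : Prs M, if p ∈ A v then 1 else 0 := by
      rw [← card_filter]
      congr 1
      ext p
      simp
    rw [h5]
    exact sum_congr rfl fun p _ => if_congr Iff.rfl rfl rfl
  rw [h2, h4]

open Classical in
theorem asm_sum {V E : Type} [Fintype V] [Fintype E] (φ : E → V × V) (M : ℕ) (f : Finset (EB φ M) → ℝ) :
    ∑ S, f S = ∑ A : V → Finset (Prs M), ∑ B : Finset (NL φ), f (asm φ M A B) := by
  rw [← Fintype.sum_prod_type']
  symm
  refine sum_bij' (fun q _ => asm φ M q.1 q.2)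
    (fun S _ => (fun v => univ.filter (fun p : Prs M => (Sum.inl (v, p) : EB φ M) ∈ S),
      univ.filter (fun e : NL φ => (Sum.inr e : EB φ M) ∈ S))) ?_ ?_ ?_ ?_ ?_
  · intro q _
    exact mem_univ _
  · intro S _
    exact mem_univ _
  · intro q _
    refine Prod.ext ?_ ?_
    · funext v
      ext p
      simp only [mem_filter, mem_univ, true_and]
      exact mem_asm_inl φ
    · ext e
      simp only [mem_filter, mem_univ, true_and]
      exact mem_asm_inr φ
  · intro S _
    ext g
    rcases g with w | e
    · rw [mem_asm_inl]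
      simp
    · rw [mem_asm_inr]
      simp
  · intro q _
    rfl

end Pool.Agent.Work.MP_63853a_lc.HF
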