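import Pool.Agent.Work.MP_63853a_lc.HF.Defs

set_option autoImplicit false

/-!
# Basic facts on `Jn`, `comp`, `nbh` (FIXED, proved)
-/

namespace Pool.Agent.Work.MP_63853a_lc.HF

open Finset Pool.Agent.Work.MP_63853a_lc Pool.Agent.Work.MP_63853a_lc.Tr

variable {V : Type} {R : V → V → Prop} {U U' : Finset V} {u v w a b : V}

theorem jn_refl (hu : u ∈ U) : Jn R U u u := ⟨hu, .refl⟩

theorem jn_left (h : Jn R U u v) : u ∈ U := h.1

theorem jn_right (h : Jn R U u v) : v ∈ U := by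
  obtain ⟨h1, h2⟩ := h
  cases h2 with
  | refl => exact h1
  | tail _ h3 => exact h3.2

theorem jn_step (h : Jn R U u a) (hab : R a b) (hb : b ∈ U) : Jn R U u b := ⟨h.1, h.2.tail ⟨hab, hb⟩⟩

theorem jn_trans (h : Jn R U u v) (h' : Jn R U v w) : Jn R U u w := ⟨h.1, h.2.trans h'.2⟩

theorem jn_mono (hU : U ⊆ U') (h : Jn R U u v) : Jn R U' u v := by
  obtain ⟨h1, h2⟩ := h
  refine ⟨hU h1, ?_⟩
  induction h2 with
  | refl => exact .refl
  | tail _ h4 ih => exact ih.tail ⟨h4.1, hU h4.2⟩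

theorem jn_symm (hR : Sy R) (h : Jn R U u v) : Jn R U v u := by
  obtain ⟨h1, h2⟩ := h
  induction h2 with
  | refl => exact jn_refl h1
  | tail h3 h4 ih =>
    refine jn_trans (jn_step (jn_refl h4.2) (hR _ _ h4.1) ?_) ih
    exact jn_right ⟨h1, h3⟩

theorem mem_comp : v ∈ comp R U u ↔ Jn R U u v := by
  classical
  unfold comp
  exact ⟨fun h => (mem_filter.1 h).2, fun h => mem_filter.2 ⟨jn_right h, h⟩⟩

theorem comp_subset : comp R U u ⊆ U := by
  intro v hv
  exact jn_right (mem_comp.1 hv)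

theorem self_mem_comp (hu : u ∈ U) : u ∈ comp R U u := mem_comp.2 (jn_refl hu)

theorem comp_eq (hR : Sy R) (h : Jn R U u v) : comp R U u = comp R U v := by
  ext w
  rw [mem_comp, mem_comp]
  exact ⟨fun h1 => jn_trans (jn_symm hR h) h1, fun h1 => jn_trans h h1⟩

/-- components are closed under steps in `U` -/
theorem comp_closed (ha : a ∈ comp R U u) (hab : R a b) (hb : b ∈ U) : b ∈ comp R U u :=
  mem_comp.2 (jn_step (mem_comp.1 ha) hab hb)

/-- a path from a point of `A` to a point outside of `A` has a step from `A` to its complement -/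
theorem jn_cross (A : Set V) (h : Jn R U u v) (hu : u ∈ A) (hv : v ∉ A) :
    ∃ a ∈ A, ∃ b, b ∉ A ∧ R a b ∧ a ∈ U ∧ b ∈ U ∧ Jn R U u a := by
  obtain ⟨h1, h2⟩ := h
  induction h2 with
  | refl => exact absurd hu hv
  | @tail b c h3 h4 ih =>
    by_cases hb : b ∈ A
    · exact ⟨b, hb, c, hv, h4.1, jn_right ⟨h1, h3⟩, h4.2, ⟨h1, h3⟩⟩
    · exact ih hb

/-- a path in `U` between points of a component stays in the component -/
theorem jn_comp (hR : Sy R) (ha : a ∈ comp R U u) (hb : b ∈ comp R U u) : Jn R (comp R U u) a b := by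
  have h1 : ∀ c, Jn R U u c → Jn R (comp R U u) u c := by
    intro c hc
    obtain ⟨h1, h2⟩ := hc
    induction h2 with
    | refl => exact jn_refl (self_mem_comp h1)
    | tail h3 h4 ih => exact jn_step ih h4.1 (mem_comp.2 ⟨h1, h3.tail h4⟩)
  exact jn_trans (jn_symm hR (h1 a (mem_comp.1 ha))) (h1 b (mem_comp.1 hb))

/-- a set all of whose points are joined in it and which meets a component is contained in it -/
theorem subset_comp (hU : U ⊆ U') (hJ : ∀ a ∈ U, ∀ b ∈ U, Jn R U a b) (ha : a ∈ U) (ha' : a ∈ comp R U' u) :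
    U ⊆ comp R U' u := fun b hb => mem_comp.2 (jn_trans (mem_comp.1 ha') (jn_mono hU (hJ a ha b hb)))

/-- two components of `U` are equal or disjoint -/
theorem comp_disj (hR : Sy R) (u v : V) : comp R U u = comp R U v ∨ Disjoint (comp R U u) (comp R U v) := by
  by_cases h : Disjoint (comp R U u) (comp R U v)
  · exact Or.inr h
  · left
    rw [Finset.not_disjoint_iff] at h
    obtain ⟨w, h1, h2⟩ := h
    rw [comp_eq hR (mem_comp.1 h1), comp_eq hR (mem_comp.1 h2)]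

variable [Fintype V] {X Y : Finset V}

theorem mem_nbh : v ∈ nbh R X ↔ v ∈ X ∨ ∃ x ∈ X, R x v := by
  unfold nbh
  simp

theorem subset_nbh : X ⊆ nbh R X := fun _ h => mem_nbh.2 (Or.inl h)

theorem nbh_mono (h : X ⊆ Y) : nbh R X ⊆ nbh R Y := by
  intro v hv
  rcases mem_nbh.1 hv with h1 | ⟨x, h1, h2⟩
  · exact mem_nbh.2 (Or.inl (h h1))
  · exact mem_nbh.2 (Or.inr ⟨x, h h1, h2⟩)

variable {E : Type} (ψ : E → V × V) {S S' : Finset E} {D : Finset V} {p : V} {e : E}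

theorem mem_vs : p ∈ vs ψ S ↔ ∃ e ∈ S, Inc ψ e p := by
  unfold vs
  simp

theorem mem_bdv : p ∈ bdv ψ S ↔ (∃ e ∈ S, Inc ψ e p) ∧ ∃ e, e ∉ S ∧ Inc ψ e p := by
  unfold bdv
  simp

theorem mem_se : e ∈ se ψ S D ↔ e ∈ S ∧ ((ψ e).1 ∈ D ∨ (ψ e).2 ∈ D) := by
  classical
  unfold se
  exact ⟨fun h => mem_filter.1 h, fun h => mem_filter.2 h⟩

theorem se_subset : se ψ S D ⊆ S := fun _ h => ((mem_se ψ).1 h).1

theorem bdv_subset_vs : bdv ψ S ⊆ vs ψ S := fun _ h => (mem_vs ψ).2 ((mem_bdv ψ).1 h).1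

omit [Fintype V] in
theorem adj_symm : Sy (adj ψ) := by
  rintro u w ⟨h1, e, h2⟩
  exact ⟨h1.symm, e, h2.symm⟩

omit [Fintype V] in
theorem adj_irrefl (v : V) : ¬ adj ψ v v := fun h => h.1 rfl

omit [Fintype V] in
theorem adj_of_ne (h : (ψ e).1 ≠ (ψ e).2) : adj ψ (ψ e).1 (ψ e).2 := ⟨h, e, Or.inl rfl⟩

end Pool.Agent.Work.MP_63853a_lc.HF
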