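import Pool.Agent.Work.MP_63853a_lc.HF.Basic

set_option autoImplicit false

/-!
# GyaStep (size M)

One step of the Gyarfas path argument. Put `N = nbh R l.toFinset ∪ Y`, `N' = nbh R (v :: l).toFinset ∪ Y`, so `N ⊆ N'`
(`nbh_mono`), `D = comp R (univ \ N) u`, `C = comp R (univ \ N') u'`.
(1) `C ∩ D` is not empty: otherwise `∑ C + ∑ D ≤ ∑ univ`, against `h1`, `h3`. (2) `C ⊆ D`: `subset_comp` (`jn_comp` for `C`,
`C ⊆ univ \ N' ⊆ univ \ N`). (3) Let `w` be as in `h2` and `c ∈ C`. Then `Jn R D w c` (`jn_comp`). Let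
`A = {p | p = v ∨ R v p}` (a set), `w ∈ A`, `c ∉ A` (as `c ∉ nbh R (v :: l).toFinset`). A path from `w` to `c` in `D`
leaves `A` for the LAST time at `z`: we need `z ∈ D`, `z ∈ A`, and `z' ∈ C` with `R z z'`. Get it as follows: the set
`B = {p | p ∉ C}` contains `w` (because `C ∩ A = ∅`), and `c ∉ B`; `jn_cross` for `Jn R D w c` and `B` gives `z ∉ C`, `z' ∈ C`,
`R z z'`, `z ∈ D`, `z' ∈ D`. If `z ∉ A` then `z ∉ nbh R (v :: l).toFinset` (it is not in `nbh R l.toFinset` because `z ∈ D`), so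
`z ∈ univ \ N'` and `z ∈ C` by `comp_closed` (`hR`), a contradiction. So `z ∈ A`. `z ≠ v`: otherwise `R v z'` and `z' ∈ C` would
be in `nbh R (v :: l).toFinset`. So `R v z`.
(4) `z` is the wanted vertex: `z ∉ Y` (`z ∈ D`); `IP R (z :: v :: l)`: `z ∉ l` and `z` has no `R`-neighbour in `l` because
`z ∉ nbh R l.toFinset` (`hR`), `z ≠ v`; chain: `R z v` by `hR`; if `z :: v :: l = A ++ w :: B` then `A = []` (nothing to show) or
`A = z :: A'` and `v :: l = A' ++ w :: B`: for `a ∈ A'` use `hl`; for `a = z` and `b ∈ B`: `b ∈ l` (because `v` is the head of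
`A' ++ [w]`), so not `R z b`.
-/

namespace Pool.Agent.Work.MP_63853a_lc.HF

open Finset Pool.Agent.Work.MP_63853a_lc Pool.Agent.Work.MP_63853a_lc.Tr

open Classical in
theorem gya_step {V : Type} [Fintype V] {R : V → V → Prop} (hR : Sy R) {μ : V → ℝ} (hμ : ∀ v, 0 ≤ μ v)
    {Y : Finset V} {v : V} {l : List V} (hl : IP R (v :: l)) {u u' : V}
    (h1 : ∑ w, μ w < 2 * ∑ w ∈ comp R (univ \ (nbh R l.toFinset ∪ Y)) u, μ w)
    (h2 : ∃ w ∈ comp R (univ \ (nbh R l.toFinset ∪ Y)) u, w = v ∨ R v w)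
    (h3 : ∑ w, μ w < 2 * ∑ w ∈ comp R (univ \ (nbh R (v :: l).toFinset ∪ Y)) u', μ w) :
    ∃ z, z ∉ Y ∧ IP R (z :: v :: l) ∧ ∃ w ∈ comp R (univ \ (nbh R (v :: l).toFinset ∪ Y)) u', R z w := by
  have hsub : nbh R l.toFinset ⊆ nbh R (v :: l).toFinset := by
    apply nbh_mono
    intro x hx
    rw [List.mem_toFinset] at hx ⊢
    exact List.mem_cons_of_mem _ hx
  obtain ⟨D, hD⟩ : ∃ D, D = comp R (univ \ (nbh R l.toFinset ∪ Y)) u := ⟨_, rfl⟩
  obtain ⟨C, hC⟩ : ∃ C, C = comp R (univ \ (nbh R (v :: l).toFinset ∪ Y)) u' := ⟨_, rfl⟩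
  rw [← hD] at h1 h2
  rw [← hC] at h3 ⊢
  have hDn : ∀ x ∈ D, x ∉ nbh R l.toFinset ∧ x ∉ Y := by
    intro x hx
    rw [hD] at hx
    have h4 := Finset.mem_sdiff.1 (comp_subset hx)
    exact ⟨fun h5 => h4.2 (Finset.mem_union_left _ h5), fun h5 => h4.2 (Finset.mem_union_right _ h5)⟩
  have hCn : ∀ x ∈ C, x ∉ nbh R (v :: l).toFinset ∧ x ∉ Y := by
    intro x hx
    rw [hC] at hx
    have h4 := Finset.mem_sdiff.1 (comp_subset hx)
    exact ⟨fun h5 => h4.2 (Finset.mem_union_left _ h5), fun h5 => h4.2 (Finset.mem_union_right _ h5)⟩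
  have hmeet : ∃ c, c ∈ C ∧ c ∈ D := by
    by_contra hcon
    push Not at hcon
    have hdis : Disjoint C D := Finset.disjoint_left.2 hcon
    have h4 : ∑ w ∈ C ∪ D, μ w ≤ ∑ w, μ w :=
      Finset.sum_le_sum_of_subset_of_nonneg (Finset.subset_univ _) (fun x _ _ => hμ x)
    rw [Finset.sum_union hdis] at h4
    linarith
  obtain ⟨c, hcC, hcD⟩ := hmeet
  have hCD : C ⊆ D := by
    rw [hD]
    refine subset_comp (a := c) ?_ ?_ hcC ?_
    · intro x hx
      have h4 := hCn x hx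
      refine Finset.mem_sdiff.2 ⟨Finset.mem_univ _, fun h5 => ?_⟩
      rcases Finset.mem_union.1 h5 with h5 | h5
      · exact h4.1 (hsub h5)
      · exact h4.2 h5
    · intro a ha b hb
      rw [hC] at ha hb ⊢
      exact jn_comp hR ha hb
    · rw [← hD]
      exact hcD
  obtain ⟨w, hwD, hwv⟩ := h2
  have hv : ∀ x, (x = v ∨ R v x) → x ∈ nbh R (v :: l).toFinset := by
    intro x hx
    rw [mem_nbh]
    rcases hx with hx | hx
    · left
      rw [hx]
      simp
    · right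
      exact ⟨v, by simp, hx⟩
  have hwC : w ∉ C := fun h4 => (hCn w h4).1 (hv w hwv)
  have hJ : Jn R D w c := by
    rw [hD] at hwD hcD ⊢
    exact jn_comp hR hwD hcD
  obtain ⟨z, hzC, z', hz'C, hzz', hzD, hz'D, -⟩ := jn_cross {p | p ∉ C} hJ hwC (fun h4 => h4 hcC)
  have hz'C' : z' ∈ C := by
    by_contra h4
    exact hz'C h4
  have hzC' : z ∉ C := hzC
  have hzn := hDn z hzD
  have hzA : z = v ∨ R v z := by
    by_contra hcon
    push Not at hcon
    apply hzC'
    rw [hC] at hz'C' ⊢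
    refine comp_closed hz'C' (hR _ _ hzz') ?_
    refine Finset.mem_sdiff.2 ⟨Finset.mem_univ _, fun h5 => ?_⟩
    rcases Finset.mem_union.1 h5 with h5 | h5
    · rcases mem_nbh.1 h5 with h6 | ⟨x, h6, h7⟩
      · rw [List.mem_toFinset] at h6
        rcases List.mem_cons.1 h6 with h6 | h6
        · exact hcon.1 h6
        · exact hzn.1 (mem_nbh.2 (Or.inl (List.mem_toFinset.2 h6)))
      · rw [List.mem_toFinset] at h6
        rcases List.mem_cons.1 h6 with h6 | h6
        · rw [h6] at h7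
          exact hcon.2 h7
        · exact hzn.1 (mem_nbh.2 (Or.inr ⟨x, List.mem_toFinset.2 h6, h7⟩))
    · exact hzn.2 h5
  have hzv : z ≠ v := by
    intro h4
    rw [h4] at hzz'
    exact (hCn z' hz'C').1 (hv z' (Or.inr hzz'))
  have hvz : R v z := by
    rcases hzA with h4 | h4
    · exact absurd h4 hzv
    · exact h4
  have hzl : z ∉ l := fun h4 => hzn.1 (mem_nbh.2 (Or.inl (List.mem_toFinset.2 h4)))
  refine ⟨z, hzn.2, ⟨?_, ?_, ?_⟩, z', hz'C', hzz'⟩
  · rw [List.nodup_cons]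
    refine ⟨fun h4 => ?_, hl.1⟩
    rcases List.mem_cons.1 h4 with h4 | h4
    · exact hzv h4
    · exact hzl h4
  · rw [List.isChain_cons_cons]
    exact ⟨hR _ _ hvz, hl.2.1⟩
  · intro A x B hAB a ha b hb
    cases A with
    | nil => simp at ha
    | cons a0 A' =>
      rw [List.cons_append] at hAB
      obtain ⟨e1, e2⟩ := List.cons.inj hAB
      rcases List.mem_cons.1 ha with h4 | h4
      · have hbl : b ∈ l := by
          cases A' with
          | nil =>
            rw [List.nil_append] at e2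
            rw [(List.cons.inj e2).2]
            exact hb
          | cons a1 A'' =>
            rw [List.cons_append] at e2
            rw [(List.cons.inj e2).2]
            exact List.mem_append_right _ (List.mem_cons_of_mem _ hb)
        intro h5
        rw [h4, ← e1] at h5
        exact hzn.1 (mem_nbh.2 (Or.inr ⟨b, List.mem_toFinset.2 hbl, hR _ _ h5⟩))
      · exact hl.2.2 A' x B e2 a h4 b hb

end Pool.Agent.Work.MP_63853a_lc.HF
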