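import Pool.Agent.Work.MP_63853a_lc.HF.Basic

set_option autoImplicit false

/-!
# IpShort (size M)

Write `l = a :: l'` (`l = []` is trivial) and let `z` be the last element, `U = l.toFinset` (use `classical`). As
`l.IsChain R`, `Jn R U a z`. So `Short` gives `P ⊆ U`, `P.card ≤ s`, `Jn R P a z`. Claim: every `w ∈ l` is in `P`; then
`l.length = U.card ≤ P.card ≤ s` (`l.Nodup`, `List.toFinset_card_of_nodup`).
Proof of the claim: suppose `w ∈ l`, `w ∉ P`; write `l = A ++ w :: B`. `a ∈ P`, `z ∈ P`, so `a ≠ w`, `z ≠ w`, hence `a ∈ A` and
`z ∈ B`. Apply `jn_cross` with the set `{v | v ∈ A}` (`z ∉ A` by `Nodup`): there are `p ∈ A`, `q ∉ A` with `R p q`,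
`q ∈ P ⊆ U`; `q ≠ w` (as `w ∉ P`), so `q ∈ B`. This contradicts `IP` (no `R` between `A` and `B`).
-/

namespace Pool.Agent.Work.MP_63853a_lc.HF

open Finset Pool.Agent.Work.MP_63853a_lc Pool.Agent.Work.MP_63853a_lc.Tr

private theorem chain_jn {V : Type} {R : V → V → Prop} (U : Finset V) :
    ∀ (l : List V) (a : V), (a :: l).IsChain R → (∀ x ∈ a :: l, x ∈ U) →
      Jn R U a ((a :: l).getLast (List.cons_ne_nil a l)) := by
  intro l
  induction l with
  | nil =>
    intro a _ hU
    exact jn_refl (hU a (by simp))
  | cons b l ih =>
    intro a hc hU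
    rw [List.isChain_cons_cons] at hc
    have h1 := ih b hc.2 (fun x hx => hU x (List.mem_cons_of_mem _ hx))
    rw [List.getLast_cons (List.cons_ne_nil b l)]
    exact jn_trans (jn_step (jn_refl (hU a (by simp))) hc.1 (hU b (by simp))) h1

theorem ip_short {V : Type} {R : V → V → Prop} {s : ℕ} (h : Short R s) {l : List V} (hl : IP R l) :
    l.length ≤ s := by
  classical
  cases l with
  | nil => exact Nat.zero_le _
  | cons a l' =>
    have hne : a :: l' ≠ [] := List.cons_ne_nil a l'
    obtain ⟨hnd, hch, hind⟩ := hl
    obtain ⟨P, hPU, hPs, hP⟩ := h (a :: l').toFinset a ((a :: l').getLast hne)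
      (chain_jn _ l' a hch (fun x hx => List.mem_toFinset.2 hx))
    have hall : ∀ w ∈ a :: l', w ∈ P := by
      intro w hw
      by_contra hwP
      obtain ⟨A, B, hAB⟩ := List.append_of_mem hw
      have haP : a ∈ P := jn_left hP
      have hzP : (a :: l').getLast hne ∈ P := jn_right hP
      have haA : a ∈ A := by
        cases A with
        | nil =>
          rw [List.nil_append] at hAB
          have h1 : a = w := (List.cons.inj hAB).1
          exact absurd (h1 ▸ haP) hwP
        | cons a' A' =>
          rw [List.cons_append] at hAB
          have h1 : a = a' := (List.cons.inj hAB).1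
          rw [h1]
          simp
      have hzB : (a :: l').getLast hne ∈ B := by
        cases B with
        | nil =>
          exfalso
          have h1 : (a :: l').getLast hne = w := by
            simp only [hAB]
            exact List.getLast_append_singleton A
          rw [h1] at hzP
          exact hwP hzP
        | cons b B' =>
          have h1 : (a :: l').getLast hne = (b :: B').getLast (List.cons_ne_nil b B') := by
            simp only [hAB]
            rw [List.getLast_append_of_ne_nil _ (List.cons_ne_nil w (b :: B')),
              List.getLast_cons (List.cons_ne_nil b B')]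
          rw [h1]
          exact List.getLast_mem _
      rw [hAB] at hnd
      have hdis := (List.nodup_append.1 hnd).2.2
      have hzA : (a :: l').getLast hne ∉ A := fun h1 =>
        hdis _ h1 _ (List.mem_cons_of_mem _ hzB) rfl
      obtain ⟨p, hp, q, hq, hpq, -, hqP, -⟩ := jn_cross {v | v ∈ A} hP haA hzA
      have hq1 : q ∈ A ++ w :: B := by
        rw [← hAB]
        exact List.mem_toFinset.1 (hPU hqP)
      rcases List.mem_append.1 hq1 with h1 | h1
      · exact hq h1
      · rcases List.mem_cons.1 h1 with h2 | h2
        · rw [h2] at hqP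
          exact hwP hqP
        · exact hind A w B hAB p hp q h2 hpq
    calc (a :: l').length = (a :: l').toFinset.card := (List.toFinset_card_of_nodup hnd).symm
      _ ≤ P.card := Finset.card_le_card fun x hx => hall x (List.mem_toFinset.1 hx)
      _ ≤ s := hPs

end Pool.Agent.Work.MP_63853a_lc.HF
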