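import Pool.Agent.Work.MP_63853a_lc.HF.Basic
import Pool.Agent.Work.MP_63853a_lc.HF.IpShort
import Pool.Agent.Work.MP_63853a_lc.HF.GyaStep

set_option autoImplicit false

/-!
# Gya (size M)

Suppose not: for every `X` with `Disjoint X Y`, `X.card ≤ s` there is `u` with
`∑ μ < 2 * ∑ w ∈ comp R (univ \ (nbh R X ∪ Y)) u, μ w`. Claim, for `m` from `1` to `s + 1`: there are `v`, `l` with
`(v :: l).length = m`, `IP R (v :: l)`, no element of `v :: l` in `Y`, and `u` with
`∑ μ < 2 * ∑ w ∈ comp R (univ \ (nbh R l.toFinset ∪ Y)) u, μ w` and `∃ w ∈ comp .. u, w = v ∨ R v w`. For `m = s + 1` this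
contradicts `ip_short`.
`m = 1`: take `X = ∅`: the component of `u` is not empty (its weight is positive), so `u ∈ univ \ (nbh R ∅ ∪ Y)`; put `v = u`,
`l = []`, `w = u` (`self_mem_comp`); `IP R [u]` is trivial. `m → m + 1` for `m ≤ s`: `X = (v :: l).toFinset` has `m ≤ s`
elements, is disjoint from `Y`; the assumption gives `u'` as in `h3` of `gya_step`; `gya_step` gives `z`; the new pair is
`z`, `v :: l`, with `w` such that `R z w`.
-/

namespace Pool.Agent.Work.MP_63853a_lc.HF

open Finset Pool.Agent.Work.MP_63853a_lc Pool.Agent.Work.MP_63853a_lc.Tr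

open Classical in
theorem gya {V : Type} [Fintype V] {R : V → V → Prop} (hR : Sy R) {s : ℕ} (hs : 1 ≤ s) (h : Short R s)
    {μ : V → ℝ} (hμ : ∀ v, 0 ≤ μ v) (Y : Finset V) :
    ∃ X : Finset V, Disjoint X Y ∧ X.card ≤ s ∧ Half R μ (nbh R X ∪ Y) := by
  by_contra hcon
  have hno : ∀ X : Finset V, Disjoint X Y → X.card ≤ s →
      ∃ u, ∑ w, μ w < 2 * ∑ w ∈ comp R (univ \ (nbh R X ∪ Y)) u, μ w := by
    intro X hX1 hX2
    by_contra h1
    push Not at h1
    exact hcon ⟨X, hX1, hX2, h1⟩
  have key : ∀ m : ℕ, m ≤ s → ∃ (v : V) (l : List V), (v :: l).length = m + 1 ∧ IP R (v :: l) ∧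
      (∀ x ∈ v :: l, x ∉ Y) ∧ ∃ u, (∑ w, μ w < 2 * ∑ w ∈ comp R (univ \ (nbh R l.toFinset ∪ Y)) u, μ w) ∧
        ∃ w ∈ comp R (univ \ (nbh R l.toFinset ∪ Y)) u, w = v ∨ R v w := by
    intro m
    induction m with
    | zero =>
      intro _
      obtain ⟨u, hu⟩ := hno ∅ (Finset.disjoint_empty_left Y) (Nat.zero_le _)
      have hne : (comp R (univ \ (nbh R ∅ ∪ Y)) u).Nonempty := by
        rw [Finset.nonempty_iff_ne_empty]
        intro h1
        rw [h1, Finset.sum_empty, mul_zero] at hu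
        exact absurd (Finset.sum_nonneg fun w _ => hμ w) (not_le.2 hu)
      obtain ⟨x, hx⟩ := hne
      have hu1 : u ∈ univ \ (nbh R ∅ ∪ Y) := jn_left (mem_comp.1 hx)
      have huY : u ∉ Y := fun h1 => (Finset.mem_sdiff.1 hu1).2 (Finset.mem_union_right _ h1)
      refine ⟨u, [], rfl, ⟨List.nodup_singleton u, List.isChain_singleton u, ?_⟩, ?_, u, ?_, ?_⟩
      · intro A w B hAB a ha b hb
        cases A with
        | nil => simp at ha
        | cons a0 A' =>
          have h1 := congrArg List.length hAB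
          simp at h1
      · intro x hx
        rw [List.mem_singleton] at hx
        rw [hx]
        exact huY
      · rw [List.toFinset_nil]
        exact hu
      · rw [List.toFinset_nil]
        exact ⟨u, self_mem_comp hu1, Or.inl rfl⟩
    | succ m ih =>
      intro hm
      obtain ⟨v, l, hlen, hIP, hY, u, h1, h2⟩ := ih (by omega)
      obtain ⟨u', h3⟩ := hno (v :: l).toFinset (by
        rw [Finset.disjoint_left]
        intro x hx
        exact hY x (List.mem_toFinset.1 hx)) ((List.toFinset_card_le _).trans (by rw [hlen]; exact hm))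
      obtain ⟨z, hzY, hzIP, w, hw, hzw⟩ := gya_step hR hμ hIP h1 h2 h3
      refine ⟨z, v :: l, by rw [List.length_cons, hlen], hzIP, ?_, u', h3, w, hw, Or.inr hzw⟩
      intro x hx
      rcases List.mem_cons.1 hx with h4 | h4
      · rw [h4]
        exact hzY
      · exact hY x h4
  obtain ⟨v, l, hlen, hIP, -⟩ := key s le_rfl
  have h1 := ip_short h hIP
  omega

end Pool.Agent.Work.MP_63853a_lc.HF
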