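import Pool.Agent.Work.MP_63853a_lc.HF.Basic
import Pool.Agent.Work.MP_63853a_lc.HF.Gya

set_option autoImplicit false

/-!
# CntA (size M)

Let `Y` be the filtered set, suppose `Y.card * lam < 1 / 8`. `gya` gives `X` disjoint from `Y` with at most `s` elements and
`Half R μ (nbh R X ∪ Y)`. By `hF.hit` the probability that `P` meets `nbh R X ∪ Y` is at least `1 / 4`. The probability that `P`
meets `Y` is at most `∑ w ∈ Y, (probability of w ∈ P) ≤ Y.card * lam < 1 / 8` (`hF.use`), so the probability that `P` meets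
`nbh R X` is more than `1 / 8`; `nbh R X` is the union of the `nbh R {x}`, `x ∈ X`, so
`1 / 8 < ∑ x ∈ X, pr x`, `pr x = ∑ ω, if Disjoint (P ω) (nbh R {x}) then 0 else ρ ω`. All `x ∈ X` are not in `Y`, that is
`pr x < 1 / (8 s)`, and `X.card ≤ s`, so the sum is at most `1 / 8` (`s ≥ 1`), a contradiction.
-/

namespace Pool.Agent.Work.MP_63853a_lc.HF

open Finset Pool.Agent.Work.MP_63853a_lc Pool.Agent.Work.MP_63853a_lc.Tr

open Classical in
theorem cnt_a {V : Type} [Fintype V] {R : V → V → Prop} (hR : Sy R) {s : ℕ} (hs : 1 ≤ s) (h : Short R s)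
    {μ : V → ℝ} (hμ : ∀ v, 0 ≤ μ v) {lam : ℝ} {Ω : Type} [Fintype Ω] {ρ : Ω → ℝ} {P : Ω → Finset V}
    (hF : Flow R μ s lam Ω ρ P) :
    1 / 8 ≤ ((univ.filter fun x : V =>
      1 / (8 * (s : ℝ)) ≤ ∑ ω, if Disjoint (P ω) (nbh R {x}) then 0 else ρ ω).card : ℝ) * lam := by
  set Y : Finset V := univ.filter fun x : V =>
      1 / (8 * (s : ℝ)) ≤ ∑ ω, if Disjoint (P ω) (nbh R {x}) then 0 else ρ ω with hY
  by_contra hcon
  push Not at hcon
  obtain ⟨X, hXY, hXs, hH⟩ := gya hR hs h hμ Y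
  have hhit := hF.hit _ hH
  have hs0 : (0 : ℝ) < s := by exact_mod_cast hs
  have hpt : ∀ ω, (if Disjoint (P ω) (nbh R X ∪ Y) then 0 else ρ ω) ≤
      ∑ x ∈ X, (if Disjoint (P ω) (nbh R {x}) then 0 else ρ ω) +
        ∑ w ∈ Y, (if w ∈ P ω then ρ ω else 0) := by
    intro ω
    have n1 : ∀ x ∈ X, 0 ≤ (if Disjoint (P ω) (nbh R {x}) then 0 else ρ ω) := by
      intro x _
      split_ifs
      · exact le_rfl
      · exact hF.nonneg ω
    have n2 : ∀ w ∈ Y, 0 ≤ (if w ∈ P ω then ρ ω else 0) := by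
      intro x _
      split_ifs
      · exact hF.nonneg ω
      · exact le_rfl
    by_cases hd : Disjoint (P ω) (nbh R X ∪ Y)
    · rw [if_pos hd]
      exact add_nonneg (sum_nonneg n1) (sum_nonneg n2)
    · rw [if_neg hd]
      rw [Finset.not_disjoint_iff] at hd
      obtain ⟨z, hz1, hz2⟩ := hd
      rcases mem_union.1 hz2 with hz | hz
      · obtain ⟨x, hx, hxz⟩ : ∃ x ∈ X, z ∈ nbh R {x} := by
          rcases mem_nbh.1 hz with h1 | ⟨x, h1, h2⟩
          · exact ⟨z, h1, subset_nbh (mem_singleton_self z)⟩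
          · exact ⟨x, h1, mem_nbh.2 (Or.inr ⟨x, mem_singleton_self x, h2⟩)⟩
        have h3 : ρ ω = (if Disjoint (P ω) (nbh R {x}) then 0 else ρ ω) := by
          rw [if_neg]
          rw [Finset.not_disjoint_iff]
          exact ⟨z, hz1, hxz⟩
        have h4 := single_le_sum (f := fun x => (if Disjoint (P ω) (nbh R {x}) then 0 else ρ ω)) n1 hx
        have h5 := sum_nonneg n2
        rw [← h3] at h4
        linarith
      · have h4 := single_le_sum (f := fun w => (if w ∈ P ω then ρ ω else 0)) n2 hz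
        have h5 := sum_nonneg n1
        rw [if_pos hz1] at h4
        linarith
  have hsum := sum_le_sum fun ω (_ : ω ∈ (univ : Finset Ω)) => hpt ω
  rw [sum_add_distrib, sum_comm, sum_comm (s := univ) (t := Y)] at hsum
  have h1 : ∑ x ∈ X, ∑ ω, (if Disjoint (P ω) (nbh R {x}) then 0 else ρ ω) ≤ 1 / 8 := by
    have h2 : ∀ x ∈ X, ∑ ω, (if Disjoint (P ω) (nbh R {x}) then 0 else ρ ω) ≤ 1 / (8 * (s : ℝ)) := by
      intro x hx
      by_contra hlt
      push Not at hlt
      exact Finset.disjoint_left.1 hXY hx (mem_filter.2 ⟨mem_univ _, hlt.le⟩)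
    have h3 := sum_le_card_nsmul X _ _ h2
    rw [nsmul_eq_mul] at h3
    have h4 : (X.card : ℝ) ≤ s := by exact_mod_cast hXs
    calc _ ≤ (X.card : ℝ) * (1 / (8 * (s : ℝ))) := h3
      _ ≤ s * (1 / (8 * (s : ℝ))) := mul_le_mul_of_nonneg_right h4 (by positivity)
      _ = 1 / 8 := by field_simp
  have h2 : ∑ w ∈ Y, ∑ ω, (if w ∈ P ω then ρ ω else 0) ≤ (Y.card : ℝ) * lam := by
    rw [← nsmul_eq_mul]
    exact sum_le_card_nsmul Y _ _ fun w _ => hF.use w
  linarith

end Pool.Agent.Work.MP_63853a_lc.HF
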