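import Pool.Agent.Work.MP_63853a_lc.HF.Basic

set_option autoImplicit false

/-!
# CntB (size M)

Write `E f = ∑ ω, ρ ω * f ω`, `c v = (Y.filter fun y => R v y).card`, `Z` for the filtered set of the goal.
(1) For `x ∈ Y`: if `P ω` meets `nbh R {x}` then `x ∈ P ω` or some `v ∈ P ω` has `R x v`. So
`1 / (8 s) ≤ pr (x ∈ P) + E (card of {v ∈ P ω | R x v})`, and `pr (x ∈ P) ≤ lam ≤ 1 / (16 s)` (`hF.use`), so the expected
number of `v ∈ P ω` with `R x v` is at least `1 / (16 s)`. (2) Sum over `x ∈ Y` and exchange (`hR`: `R x v ↔ R v x`):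
`Y.card / (16 s) ≤ E (∑ v ∈ P ω, c v)`. (3) The `v ∉ Z` have `c v < Y.card / (32 s ^ 2)` and `(P ω).card ≤ s`, so they
contribute at most `Y.card / (32 s)` for every `ω` (`∑ ρ = 1`). So `Y.card / (32 s) ≤ E (∑ v ∈ P ω ∩ Z, c v) ≤`
`Y.card * E ((P ω ∩ Z).card)` as `c v ≤ Y.card`. Divide by `Y.card > 0`. (4) `E ((P ω ∩ Z).card) = ∑ v ∈ Z, pr (v ∈ P) ≤ Z.card * lam`.
-/

namespace Pool.Agent.Work.MP_63853a_lc.HF

open Finset Pool.Agent.Work.MP_63853a_lc Pool.Agent.Work.MP_63853a_lc.Tr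

open Classical in
theorem cnt_b {V : Type} [Fintype V] {R : V → V → Prop} (hR : Sy R) {s : ℕ} (hs : 1 ≤ s)
    {μ : V → ℝ} {lam : ℝ} (hlam : lam ≤ 1 / (16 * (s : ℝ))) {Ω : Type} [Fintype Ω] {ρ : Ω → ℝ} {P : Ω → Finset V}
    (hF : Flow R μ s lam Ω ρ P) {Y : Finset V} (hYn : Y.Nonempty)
    (hY : ∀ x ∈ Y, 1 / (8 * (s : ℝ)) ≤ ∑ ω, if Disjoint (P ω) (nbh R {x}) then 0 else ρ ω) :
    1 / (32 * (s : ℝ)) ≤ ((univ.filter fun v : V =>
      (Y.card : ℝ) / (32 * (s : ℝ) ^ 2) ≤ ((Y.filter fun y => R v y).card : ℝ)).card : ℝ) * lam := by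
  obtain ⟨hF0, hF1, hF2, hF3, _⟩ := hF
  have hs' : (0 : ℝ) < s := by exact_mod_cast hs
  set Z : Finset V := univ.filter fun v : V =>
      (Y.card : ℝ) / (32 * (s : ℝ) ^ 2) ≤ ((Y.filter fun y => R v y).card : ℝ) with hZ
  have hY0 : (0 : ℝ) < Y.card := by exact_mod_cast hYn.card_pos
  -- step 1
  have h1 : ∀ x ∈ Y, 1 / (16 * (s : ℝ)) ≤ ∑ ω, ρ ω * (((P ω).filter fun v => R x v).card : ℝ) := by
    intro x hx
    have e1 : (∑ ω, if Disjoint (P ω) (nbh R {x}) then 0 else ρ ω) ≤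
        ∑ ω, ((if x ∈ P ω then ρ ω else 0) + ρ ω * (((P ω).filter fun v => R x v).card : ℝ)) := by
      apply sum_le_sum
      intro ω _
      have h0 := hF0 ω
      have h0' : 0 ≤ ρ ω * (((P ω).filter fun v => R x v).card : ℝ) := by positivity
      by_cases hd : Disjoint (P ω) (nbh R {x})
      · rw [if_pos hd]
        split_ifs <;> linarith
      · rw [if_neg hd]
        rw [Finset.not_disjoint_iff] at hd
        obtain ⟨v, hv, hvn⟩ := hd
        rcases mem_nbh.1 hvn with h | ⟨x', hx', h⟩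
        · rw [mem_singleton] at h
          subst h
          rw [if_pos hv]
          linarith
        · rw [mem_singleton] at hx'
          subst hx'
          have h3 : (1 : ℝ) ≤ (((P ω).filter fun v => R x' v).card : ℝ) := by
            exact_mod_cast card_pos.2 ⟨v, mem_filter.2 ⟨hv, h⟩⟩
          have h5 : ρ ω * 1 ≤ ρ ω * (((P ω).filter fun v => R x' v).card : ℝ) := mul_le_mul_of_nonneg_left h3 h0
          split_ifs <;> linarith
    rw [sum_add_distrib] at e1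
    have e2 := hY x hx
    have e3 := hF3 x
    have e4 : 1 / (8 * (s : ℝ)) = 1 / (16 * (s : ℝ)) + 1 / (16 * (s : ℝ)) := by
      field_simp
      norm_num
    linarith
  -- step 2
  have h2 : (Y.card : ℝ) * (1 / (16 * (s : ℝ))) ≤
      ∑ ω, ρ ω * ∑ v ∈ P ω, ((Y.filter fun y => R v y).card : ℝ) := by
    have e1 : (Y.card : ℝ) * (1 / (16 * (s : ℝ))) ≤
        ∑ x ∈ Y, ∑ ω, ρ ω * (((P ω).filter fun v => R x v).card : ℝ) := by
      rw [← nsmul_eq_mul]
      exact card_nsmul_le_sum _ _ _ h1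
    rw [sum_comm] at e1
    refine e1.trans (le_of_eq (sum_congr rfl fun ω _ => ?_))
    rw [← mul_sum]
    congr 1
    have e2 : ∀ x, (((P ω).filter fun v => R x v).card : ℝ) = ∑ v ∈ P ω, if R x v then (1 : ℝ) else 0 := by
      intro x
      rw [sum_boole]
    have e3 : ∀ v, ((Y.filter fun y => R v y).card : ℝ) = ∑ y ∈ Y, if R v y then (1 : ℝ) else 0 := by
      intro v
      rw [sum_boole]
    simp only [e2, e3]
    rw [sum_comm]
    refine sum_congr rfl fun v _ => sum_congr rfl fun y _ => ?_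
    have e4 : R y v ↔ R v y := ⟨hR _ _, hR _ _⟩
    by_cases h : R y v
    · rw [if_pos h, if_pos (e4.1 h)]
    · rw [if_neg h, if_neg (fun h' => h (e4.2 h'))]
  -- step 3
  have h3 : ∀ ω, ∑ v ∈ P ω, ((Y.filter fun y => R v y).card : ℝ) ≤
      (Y.card : ℝ) * ((P ω ∩ Z).card : ℝ) + (Y.card : ℝ) * (1 / (32 * (s : ℝ))) := by
    intro ω
    have e1 : ∑ v ∈ P ω, ((Y.filter fun y => R v y).card : ℝ) ≤
        ∑ v ∈ P ω, ((if v ∈ Z then (Y.card : ℝ) else 0) + (Y.card : ℝ) / (32 * (s : ℝ) ^ 2)) := by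
      apply sum_le_sum
      intro v _
      have h0 : (0 : ℝ) ≤ (Y.card : ℝ) / (32 * (s : ℝ) ^ 2) := by positivity
      by_cases hv : v ∈ Z
      · rw [if_pos hv]
        have : ((Y.filter fun y => R v y).card : ℝ) ≤ Y.card := by exact_mod_cast card_filter_le _ _
        linarith
      · rw [if_neg hv, zero_add]
        rw [hZ, mem_filter] at hv
        push Not at hv
        exact (hv (mem_univ v)).le
    refine e1.trans ?_
    rw [sum_add_distrib, sum_const, nsmul_eq_mul, Finset.sum_ite_mem, sum_const, nsmul_eq_mul]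
    have e2 : ((P ω).card : ℝ) ≤ s := by exact_mod_cast hF2 ω
    have e3 : ((P ω).card : ℝ) * ((Y.card : ℝ) / (32 * (s : ℝ) ^ 2)) ≤ (s : ℝ) * ((Y.card : ℝ) / (32 * (s : ℝ) ^ 2)) :=
      mul_le_mul_of_nonneg_right e2 (by positivity)
    have e4 : (s : ℝ) * ((Y.card : ℝ) / (32 * (s : ℝ) ^ 2)) = (Y.card : ℝ) * (1 / (32 * (s : ℝ))) := by
      field_simp
    rw [mul_comm ((P ω ∩ Z).card : ℝ)]
    linarith
  -- step 4
  have h4 : (Y.card : ℝ) * (1 / (16 * (s : ℝ))) ≤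
      (Y.card : ℝ) * (∑ ω, ρ ω * ((P ω ∩ Z).card : ℝ)) + (Y.card : ℝ) * (1 / (32 * (s : ℝ))) := by
    refine h2.trans ?_
    have e1 : ∑ ω, ρ ω * ∑ v ∈ P ω, ((Y.filter fun y => R v y).card : ℝ) ≤
        ∑ ω, (ρ ω * ((Y.card : ℝ) * ((P ω ∩ Z).card : ℝ)) + ρ ω * ((Y.card : ℝ) * (1 / (32 * (s : ℝ))))) := by
      apply sum_le_sum
      intro ω _
      rw [← mul_add]
      exact mul_le_mul_of_nonneg_left (h3 ω) (hF0 ω)
    refine e1.trans (le_of_eq ?_)
    rw [sum_add_distrib, ← sum_mul, hF1, one_mul, mul_sum]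
    congr 1
    refine sum_congr rfl fun ω _ => ?_
    ring
  have h5 : 1 / (32 * (s : ℝ)) ≤ ∑ ω, ρ ω * ((P ω ∩ Z).card : ℝ) := by
    have e1 : (Y.card : ℝ) * (1 / (16 * (s : ℝ)) - 1 / (32 * (s : ℝ))) ≤
        (Y.card : ℝ) * (∑ ω, ρ ω * ((P ω ∩ Z).card : ℝ)) := by
      rw [mul_sub]
      linarith
    have e2 := le_of_mul_le_mul_left e1 hY0
    have e3 : 1 / (16 * (s : ℝ)) - 1 / (32 * (s : ℝ)) = 1 / (32 * (s : ℝ)) := by
      field_simp
      norm_num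
    linarith
  refine h5.trans ?_
  have e1 : ∀ ω, ρ ω * ((P ω ∩ Z).card : ℝ) = ∑ v ∈ Z, if v ∈ P ω then ρ ω else 0 := by
    intro ω
    rw [Finset.sum_ite_mem, sum_const, nsmul_eq_mul, inter_comm, mul_comm]
  rw [sum_congr rfl fun ω _ => e1 ω, sum_comm]
  refine (sum_le_card_nsmul Z _ lam fun v _ => hF3 v).trans (le_of_eq ?_)
  rw [nsmul_eq_mul]

end Pool.Agent.Work.MP_63853a_lc.HF
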