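import Pool.Agent.Work.MP_63853a_lc.HF.Defs

set_option autoImplicit false

/-!
# CycH (size S-M)

`¬ IsAcyclic`: a cycle `p : H.Walk v v` (`SimpleGraph.IsAcyclic` unfolds to `∀ v (c : Walk v v), ¬ c.IsCycle`). `W` = the vertices
of `p` (`p.support.toFinset`). For `u ∈ p.support`: `(p.toSubgraph.neighborSet u).ncard = 2`
(`SimpleGraph.Walk.IsCycle.ncard_neighborSet_toSubgraph_eq_two`), so there are two different neighbours in the subgraph
(`Set.ncard_eq_two`), which are vertices of `p` (`SimpleGraph.Walk.mem_verts_toSubgraph`) and neighbours in `H`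
(`SimpleGraph.Subgraph.adj_sub`).
-/

namespace Pool.Agent.Work.MP_63853a_lc.HF

open Finset Pool.Agent.Work.MP_63853a_lc Pool.Agent.Work.MP_63853a_lc.Tr

theorem cyc_h {h : ℕ} (H : SimpleGraph (Fin h)) (hH : ¬ H.IsAcyclic) :
    ∃ W : Finset (Fin h), W.Nonempty ∧
      ∀ u ∈ W, ∃ v ∈ W, ∃ w ∈ W, v ≠ w ∧ H.Adj u v ∧ H.Adj u w := by
  classical
  unfold SimpleGraph.IsAcyclic at hH
  push Not at hH
  obtain ⟨v, p, hp⟩ := hH
  refine ⟨p.support.toFinset, ⟨v, List.mem_toFinset.2 p.start_mem_support⟩, ?_⟩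
  intro u hu
  have hu' : u ∈ p.support := List.mem_toFinset.1 hu
  have h1 := hp.ncard_neighborSet_toSubgraph_eq_two hu'
  obtain ⟨x, y, hxy, h2⟩ := Set.ncard_eq_two.1 h1
  have hx : x ∈ p.toSubgraph.neighborSet u := by rw [h2]; simp
  have hy : y ∈ p.toSubgraph.neighborSet u := by rw [h2]; simp
  rw [SimpleGraph.Subgraph.mem_neighborSet] at hx hy
  refine ⟨x, ?_, y, ?_, hxy, p.toSubgraph.adj_sub hx, p.toSubgraph.adj_sub hy⟩
  · exact List.mem_toFinset.2 ((p.mem_verts_toSubgraph).1 hx.snd_mem)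
  · exact List.mem_toFinset.2 ((p.mem_verts_toSubgraph).1 hy.snd_mem)

end Pool.Agent.Work.MP_63853a_lc.HF
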