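import Pool.Agent.Work.MP_63853a_lc.Tr.G.Defs

set_option autoImplicit false

/-!
# Definitions: one forbidden induced subgraph (FIXED)

A finite multigraph is a map `φ : E → V × V` as in `MP_63853a_lc/Defs`. `nb φ u w`: `u` and `w` are adjacent.
-/

namespace Pool.Agent.Work.MP_63853a_lc.HF

open Finset Pool.Agent.Work.MP_63853a_lc Pool.Agent.Work.MP_63853a_lc.Tr

/-! ## The classes of graphs -/

/-- no induced subgraph of the underlying simple graph of `φ` is isomorphic to `H` -/
def Free {h : ℕ} (H : SimpleGraph (Fin h)) {V E : Type} (φ : E → V × V) : Prop :=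
  ¬ ∃ f : Fin h → V, Function.Injective f ∧ ∀ a b, a ≠ b → (H.Adj a b ↔ nb φ (f a) (f b))

/-- no loops and no parallel edges -/
def Simp {V E : Type} (φ : E → V × V) : Prop :=
  (∀ e, (φ e).1 ≠ (φ e).2) ∧ ∀ e e', (φ e = φ e' ∨ φ e = ((φ e').2, (φ e').1)) → e = e'

/-- `u` and `v` are in one class of a partition all of whose classes induce `κ`-edge-connected subgraphs, that is, in
one strong component (`κ`-edge-connected subgraph) -/
def SC {V E : Type} (φ : E → V × V) (κ : ℝ) (u v : V) : Prop :=
  ∃ c : V → V, Strong φ c κ ∧ c u = c v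

/-! ## The gadget for graphs `H` with a cycle: bundles of long paths -/

/-- every edge is replaced by `m` parallel edges -/
def thk {V E : Type} (φ : E → V × V) (m : ℕ) (p : E × Fin m) : V × V := φ p.1

/-- the vertices of the bundle graph -/
abbrev VA (V E : Type) (a m : ℕ) : Type := V ⊕ (Σ _ : E × Fin m, Fin a)

/-- the edges of the bundle graph -/
abbrev EA (E : Type) (a m : ℕ) : Type := (Σ _ : E × Fin m, Fin (a + 1)) × Fin 1

/-- the bundle graph: every edge is replaced by `m` paths with `a` inner vertices -/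
def gadA {V E : Type} (φ : E → V × V) (a m : ℕ) : EA E a m → VA V E a m × VA V E a m :=
  fat (thk φ m) (fun _ => a) 1

/-- the factor between `tutte (gadA φ a m) x y` and (approximately) `tutte φ x y` -/
noncomputable def scA {V E : Type} [Fintype V] [Fintype E] (φ : E → V × V) (x y : ℝ) (a m : ℕ) : ℝ :=
  ((x - 1) ^ kk (gadA φ a m) univ * (y - 1) ^ Fintype.card (VA V E a m)) /
    (PP (y - 1) (a + 1) ((x - 1) * (y - 1)) ^ (Fintype.card E * m) *
      ((x - 1) ^ kk φ univ * (y - 1) ^ Fintype.card V))

/-! ## The gadget for forests `H` with a vertex of degree 3: cliques -/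

/-- the pairs of elements of `Fin M` -/
abbrev Prs (M : ℕ) : Type := {p : Fin M × Fin M // p.1 < p.2}

/-- the complete graph -/
def kg (M : ℕ) (p : Prs M) : Fin M × Fin M := p.1

/-- the edges which are not loops -/
abbrev NL {V E : Type} (φ : E → V × V) : Type := {e : E // (φ e).1 ≠ (φ e).2}

noncomputable instance {V E : Type} (φ : E → V × V) [Fintype E] : Fintype (NL φ) := by
  classical exact inferInstance

/-- the graph without its loops -/
def nl {V E : Type} (φ : E → V × V) (e : NL φ) : V × V := φ e.1

/-- the edges of the clique graph -/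
abbrev EB {V E : Type} (φ : E → V × V) (M : ℕ) : Type := (V × Prs M) ⊕ NL φ

/-- the clique graph: every vertex is replaced by a clique with `M` vertices, the ends of the edge `e` (not a loop) are
the vertices number `α (inl e)` and `α (inr e)` of the cliques -/
def gadB {V E : Type} (φ : E → V × V) (M : ℕ) (α : E ⊕ E → Fin M) : EB φ M → (V × Fin M) × (V × Fin M)
  | .inl w => ((w.1, w.2.1.1), (w.1, w.2.1.2))
  | .inr e => (((φ e.1).1, α (.inl e.1)), ((φ e.1).2, α (.inr e.1)))

/-- the factor between `tutte (gadB φ M α) x y` and (approximately) `tutte φ x y` -/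
noncomputable def scB {V E : Type} [Fintype V] [Fintype E] (φ : E → V × V) (x y : ℝ) (M : ℕ) (α : E ⊕ E → Fin M) : ℝ :=
  (y ^ (Fintype.card E - Fintype.card (NL φ)) *
      ((x - 1) ^ kk (gadB φ M α) univ * (y - 1) ^ Fintype.card (V × Fin M))) /
    (y ^ (Fintype.card V * Fintype.card (Prs M)) * ((x - 1) ^ kk φ univ * (y - 1) ^ Fintype.card V))

/-! ## Paths in sets of vertices -/

/-- symmetric relations -/
def Sy {V : Type} (R : V → V → Prop) : Prop := ∀ a b, R a b → R b a

/-- `u` and `v` are joined by a path in `U` -/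
def Jn {V : Type} (R : V → V → Prop) (U : Finset V) (u v : V) : Prop :=
  u ∈ U ∧ Relation.ReflTransGen (fun a b => R a b ∧ b ∈ U) u v

open Classical in
/-- the component of `u` in `U` -/
noncomputable def comp {V : Type} (R : V → V → Prop) (U : Finset V) (u : V) : Finset V := U.filter (Jn R U u)

/-- vertices joined in `U` are joined by at most `s` vertices of `U` -/
def Short {V : Type} (R : V → V → Prop) (s : ℕ) : Prop :=
  ∀ (U : Finset V) (u v : V), Jn R U u v → ∃ P ⊆ U, P.card ≤ s ∧ Jn R P u v

open Classical in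
/-- the closed neighbourhood -/
noncomputable def nbh {V : Type} [Fintype V] (R : V → V → Prop) (X : Finset V) : Finset V :=
  univ.filter fun v => v ∈ X ∨ ∃ x ∈ X, R x v

open Classical in
/-- every set `S` contains at most `d |S|` edges (counted as ordered pairs) -/
def Dens {V : Type} (R : V → V → Prop) (d : ℕ) : Prop :=
  ∀ S : Finset V, ((S ×ˢ S).filter fun p => R p.1 p.2).card ≤ 2 * d * S.card

open Classical in
/-- every component outside of `S` has at most half of the weight -/
def Half {V : Type} [Fintype V] (R : V → V → Prop) (μ : V → ℝ) (S : Finset V) : Prop :=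
  ∀ u, 2 * ∑ v ∈ comp R (univ \ S) u, μ v ≤ ∑ v, μ v

open Classical in
/-- every component outside of `S` has at most two thirds of the weight -/
def Bal {V : Type} [Fintype V] (R : V → V → Prop) (μ : V → ℝ) (S : Finset V) : Prop :=
  ∀ u, 3 * ∑ v ∈ comp R (univ \ S) u, μ v ≤ 2 * ∑ v, μ v

/-- an induced path (the list of its vertices) -/
def IP {V : Type} (R : V → V → Prop) (l : List V) : Prop :=
  l.Nodup ∧ l.IsChain R ∧ ∀ A w B, l = A ++ w :: B → ∀ a ∈ A, ∀ b ∈ B, ¬ R a b

/-- a set with more than two thirds of the weight, with short connections `σ.2 u v` between its vertices -/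
def Valid {V : Type} [Fintype V] (R : V → V → Prop) (μ : V → ℝ) (s : ℕ) (σ : Finset V × (V → V → Finset V)) : Prop :=
  2 * ∑ v, μ v < 3 * ∑ v ∈ σ.1, μ v ∧
    ∀ u ∈ σ.1, ∀ v ∈ σ.1, σ.2 u v ⊆ σ.1 ∧ (σ.2 u v).card ≤ s ∧ Jn R (σ.2 u v) u v

open Classical in
/-- the probability that the connection between two random vertices uses `w` -/
noncomputable def us {V : Type} (μ : V → ℝ) (σ : Finset V × (V → V → Finset V)) (w : V) : ℝ :=
  (∑ u ∈ σ.1, ∑ v ∈ σ.1, if w ∈ σ.2 u v then μ u * μ v else 0) / (∑ v ∈ σ.1, μ v) ^ 2

open Classical in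
/-- a random set `P` of at most `s` vertices which uses every vertex with probability at most `lam` and meets every set
`S` with small components outside of `S` with probability at least `1 / 4` -/
structure Flow {V : Type} [Fintype V] (R : V → V → Prop) (μ : V → ℝ) (s : ℕ) (lam : ℝ) (Ω : Type) [Fintype Ω]
    (ρ : Ω → ℝ) (P : Ω → Finset V) : Prop where
  nonneg : ∀ ω, 0 ≤ ρ ω
  total : ∑ ω, ρ ω = 1
  short : ∀ ω, (P ω).card ≤ s
  use : ∀ w, ∑ ω, (if w ∈ P ω then ρ ω else 0) ≤ lam
  hit : ∀ S : Finset V, Half R μ S → 1 / 4 ≤ ∑ ω, if Disjoint (P ω) S then 0 else ρ ω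

/-! ## Trees -/

/-- different adjacent vertices -/
def adj {V E : Type} (φ : E → V × V) (u w : V) : Prop := u ≠ w ∧ nb φ u w

/-- `e` is not a loop and `p` is an end of `e` -/
def Inc {V E : Type} (ψ : E → V × V) (e : E) (p : V) : Prop :=
  (ψ e).1 ≠ (ψ e).2 ∧ ((ψ e).1 = p ∨ (ψ e).2 = p)

open Classical in
/-- the vertices which are ends of edges of `S` (loops not counted) -/
noncomputable def vs {V E : Type} [Fintype V] (ψ : E → V × V) (S : Finset E) : Finset V :=
  univ.filter fun p => ∃ e ∈ S, Inc ψ e p

open Classical in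
/-- the vertices which are ends of edges of `S` and of other edges (loops not counted) -/
noncomputable def bdv {V E : Type} [Fintype V] (ψ : E → V × V) (S : Finset E) : Finset V :=
  univ.filter fun p => (∃ e ∈ S, Inc ψ e p) ∧ ∃ e, e ∉ S ∧ Inc ψ e p

open Classical in
/-- the edges of `S` with an end in `D` -/
noncomputable def se {V E : Type} (ψ : E → V × V) (S : Finset E) (D : Finset V) : Finset E :=
  S.filter fun e => (ψ e).1 ∈ D ∨ (ψ e).2 ∈ D

open Classical in
/-- no edge leads from `D` to a vertex outside of `D` and `X`, and `D` does not meet `X` -/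
def Cld {V : Type} (R : V → V → Prop) (X D : Finset V) : Prop :=
  Disjoint D X ∧ ∀ a ∈ D, ∀ b, b ∉ X → R a b → b ∈ D

/-- a tree of the edges `S` all of whose sets have at most `B` boundary vertices -/
def HasT {V E : Type} [Fintype V] (ψ : E → V × V) (B : ℕ) (S : Finset E) : Prop :=
  ∃ t : ETree E, t.Nodup ∧ t.edges = S ∧ ∀ S' ∈ t.sets, (bdv ψ S').card ≤ B

open Classical in
/-- the tree without superfluous empty leaves -/
noncomputable def prune {E : Type} : ETree E → ETree E
  | .nil => .nil
  | .leaf e => .leaf e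
  | .node l r => if l.edges = ∅ then prune r else if r.edges = ∅ then prune l else .node (prune l) (prune r)

end Pool.Agent.Work.MP_63853a_lc.HF
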