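import Pool.Agent.Work.MP_63853a_lc.HF.Basic

set_option autoImplicit false

/-!
# ScA (size M)

`SC φ κ` is an equivalence relation: reflexive: `c = id` is `Strong` (no class meets `S` and its complement). Symmetric: clear.
Transitive: `c1`, `c2` `Strong`, `c1 u = c1 v`, `c2 v = c2 w`. Let `J = Relation.EqvGen (fun a b => c1 a = c1 b ∨ c2 a = c2 b)` and
`c3` with `c3 a = c3 b ↔ J a b` (`Quotient.out` of the setoid). `Strong φ c3 κ`: let `a ∈ S`, `b ∉ S`, `J a b`. Then some pair
`a' ∈ S`, `b' ∉ S` (or the other way round) has `c1 a' = c1 b'` or `c2 a' = c2 b'` (otherwise membership in `S` is invariant under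
the generators, so under `J`: `Relation.EqvGen` induction for the statement `a ∈ S ↔ b ∈ S`). So
`κ ≤ ncard {e | c_i (φ e).1 = c_i (φ e).2 ∧ separated by S}` and this set is contained in the one for `c3` (finite `E`,
`Set.ncard_le_ncard`, `Set.toFinite`). `c3 u = c3 w`.
`sc_ex`: `c = Quotient.out` of the setoid `SC φ κ`. `sc_strong`: `u ∈ S`, `v ∉ S`, `c u = c v`: take a `Strong` map `c'` with
`c' u = c' v`; the edges within classes of `c'` are within classes of `c` (by `hc`).
-/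

namespace Pool.Agent.Work.MP_63853a_lc.HF

open Finset Pool.Agent.Work.MP_63853a_lc Pool.Agent.Work.MP_63853a_lc.Tr

private theorem sc_trans {V E : Type} [Finite E] (φ : E → V × V) (κ : ℝ) {u v w : V} (h1 : SC φ κ u v)
    (h2 : SC φ κ v w) : SC φ κ u w := by
  classical
  obtain ⟨c1, hs1, he1⟩ := h1
  obtain ⟨c2, hs2, he2⟩ := h2
  let G : V → V → Prop := fun a b => c1 a = c1 b ∨ c2 a = c2 b
  let st : Setoid V := Relation.EqvGen.setoid G
  let c3 : V → V := fun a => (Quotient.mk st a).out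
  have hc3 : ∀ a b, c3 a = c3 b ↔ Relation.EqvGen G a b := by
    intro a b
    constructor
    · intro h
      have h3 : Quotient.mk st a = Quotient.mk st b := by
        rw [← Quotient.out_eq (Quotient.mk st a), ← Quotient.out_eq (Quotient.mk st b)]
        exact congrArg _ h
      exact Quotient.exact h3
    · intro h
      have h3 : Quotient.mk st a = Quotient.mk st b := Quotient.sound h
      simp only [c3, h3]
  refine ⟨c3, ?_, ?_⟩
  · rintro S ⟨a, ha, b, hb, hab⟩
    have hJ := (hc3 a b).1 hab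
    have hstep : ∃ x ∈ S, ∃ y ∉ S, G x y := by
      by_contra hno
      push Not at hno
      have hinv : ∀ x y, Relation.EqvGen G x y → (x ∈ S ↔ y ∈ S) := by
        intro x y hxy
        induction hxy with
        | rel x y h =>
          constructor
          · intro hx
            by_contra hy
            exact hno x hx y hy h
          · intro hy
            by_contra hx
            exact hno y hy x hx (h.imp Eq.symm Eq.symm)
        | refl x => exact Iff.rfl
        | symm x y _ ih => exact ih.symm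
        | trans x y z _ _ ih1 ih2 => exact ih1.trans ih2
      exact hb ((hinv a b hJ).1 ha)
    obtain ⟨x, hx, y, hy, hxy⟩ := hstep
    rcases hxy with h | h
    · refine (hs1 S ⟨x, hx, y, hy, h⟩).trans ?_
      have := Set.ncard_le_ncard (s := {e : E | c1 (φ e).1 = c1 (φ e).2 ∧ ¬ ((φ e).1 ∈ S ↔ (φ e).2 ∈ S)})
        (t := {e : E | c3 (φ e).1 = c3 (φ e).2 ∧ ¬ ((φ e).1 ∈ S ↔ (φ e).2 ∈ S)})
        (fun e he => ⟨(hc3 _ _).2 (Relation.EqvGen.rel _ _ (Or.inl he.1)), he.2⟩) (Set.toFinite _)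
      exact_mod_cast this
    · refine (hs2 S ⟨x, hx, y, hy, h⟩).trans ?_
      have := Set.ncard_le_ncard (s := {e : E | c2 (φ e).1 = c2 (φ e).2 ∧ ¬ ((φ e).1 ∈ S ↔ (φ e).2 ∈ S)})
        (t := {e : E | c3 (φ e).1 = c3 (φ e).2 ∧ ¬ ((φ e).1 ∈ S ↔ (φ e).2 ∈ S)})
        (fun e he => ⟨(hc3 _ _).2 (Relation.EqvGen.rel _ _ (Or.inr he.1)), he.2⟩) (Set.toFinite _)
      exact_mod_cast this
  · exact (hc3 _ _).2 (Relation.EqvGen.trans _ _ _ (Relation.EqvGen.rel _ _ (Or.inl he1))
      (Relation.EqvGen.rel _ _ (Or.inr he2)))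

theorem sc_ex {V E : Type} [Finite E] (φ : E → V × V) (κ : ℝ) : ∃ c : V → V, ∀ u v, c u = c v ↔ SC φ κ u v := by
  classical
  have hrefl : ∀ u, SC φ κ u u := by
    intro u
    refine ⟨id, ?_, rfl⟩
    rintro S ⟨a, ha, b, hb, hab⟩
    have hab' : a = b := hab
    exact absurd (hab' ▸ ha) hb
  have hsymm : ∀ {u v}, SC φ κ u v → SC φ κ v u := by
    rintro u v ⟨c, h1, h2⟩
    exact ⟨c, h1, h2.symm⟩
  let st : Setoid V := ⟨SC φ κ, hrefl, hsymm, sc_trans φ κ⟩
  refine ⟨fun a => (Quotient.mk st a).out, fun a b => ⟨fun h => ?_, fun h => ?_⟩⟩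
  · have h3 : Quotient.mk st a = Quotient.mk st b := by
      rw [← Quotient.out_eq (Quotient.mk st a), ← Quotient.out_eq (Quotient.mk st b)]
      exact congrArg _ h
    exact Quotient.exact h3
  · have h3 : Quotient.mk st a = Quotient.mk st b := Quotient.sound h
    simp only [h3]

theorem sc_strong {V E : Type} [Finite E] (φ : E → V × V) {κ : ℝ} {c : V → V}
    (hc : ∀ u v, c u = c v ↔ SC φ κ u v) : Strong φ c κ := by
  rintro S ⟨u, hu, v, hv, huv⟩
  obtain ⟨c', h1, h2⟩ := (hc u v).1 huv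
  refine (h1 S ⟨u, hu, v, hv, h2⟩).trans ?_
  have := Set.ncard_le_ncard (s := {e : E | c' (φ e).1 = c' (φ e).2 ∧ ¬ ((φ e).1 ∈ S ↔ (φ e).2 ∈ S)})
    (t := {e : E | c (φ e).1 = c (φ e).2 ∧ ¬ ((φ e).1 ∈ S ↔ (φ e).2 ∈ S)})
    (fun e he => ⟨(hc _ _).2 ⟨c', h1, he.1⟩, he.2⟩) (Set.toFinite _)
  exact_mod_cast this

end Pool.Agent.Work.MP_63853a_lc.HF
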