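import Pool.Agent.Work.MP_63853a_lc.HF.Basic
import Pool.Agent.Work.MP_63853a_lc.HF.ScA

set_option autoImplicit false

/-!
# Merge (size M)

Suppose not: for all `T ⊆ S` with `T` and `S \ T` nonempty the number of `e` with `quo φ c e` between `T` and `S \ T` is at least
`κ`. Take `s0 ∈ S` and `c' u = if c u ∈ S then s0 else c u`. Claim `Strong φ c' κ`; then for `s1 ∈ S`, `s1 ≠ s0`, and `u0`, `u1` with
`c u0 = s0`, `c u1 = s1` (`hr`) `c' u0 = c' u1`, so `SC φ κ u0 u1` and `c u0 = c u1` by `hc`, a contradiction.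
Proof of the claim: let `u ∈ W`, `v ∉ W` with `c' u = c' v`. If some `a ∈ W`, `b ∉ W` have `c a = c b`: `Strong φ c κ`
(`sc_strong`) gives `κ ≤ ncard {e | c (φ e).1 = c (φ e).2 ∧ separated by W}`, and `c` equal implies `c'` equal. Otherwise
membership in `W` depends only on `c`. Then `c u ≠ c v`, so `c u, c v ∈ S` (both values of `c'` are equal; if `c u ∉ S` then
`c' u = c u`, and `c' v` is `c v` or `s0`: note that `c' v = s0 = c u ∈ S` is impossible). Put `T = S.filter (fun p => ∃ a ∈ W, c a = p)`: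
`c u ∈ T`, `c v ∈ S \ T`. An edge `e` with `quo φ c e` between `T` and `S \ T` has `c'` equal at both ends (`s0`) and is separated
by `W`. So `κ ≤` the number of the edges within classes of `c'` separated by `W`.
-/

namespace Pool.Agent.Work.MP_63853a_lc.HF

open Finset Pool.Agent.Work.MP_63853a_lc Pool.Agent.Work.MP_63853a_lc.Tr

open Classical in
theorem merge {V E : Type} [Finite E] (φ : E → V × V) {κ : ℝ} {c : V → V}
    (hc : ∀ u v, c u = c v ↔ SC φ κ u v) {S : Finset V} (hS : 1 < S.card) (hr : ∀ v ∈ S, ∃ u, c u = v) :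
    ∃ T : Finset V, T ⊆ S ∧ T.Nonempty ∧ (S \ T).Nonempty ∧
      ((Set.ncard {e : E | ((quo φ c e).1 ∈ T ∧ (quo φ c e).2 ∈ S \ T) ∨
        ((quo φ c e).1 ∈ S \ T ∧ (quo φ c e).2 ∈ T)} : ℕ) : ℝ) < κ := by
  by_contra hcon
  push Not at hcon
  obtain ⟨s0, hs0, s1, hs1, hne⟩ := one_lt_card.1 hS
  set c' : V → V := fun u => if c u ∈ S then s0 else c u with hc'
  have F1 : ∀ a b, c a = c b → c' a = c' b := by
    intro a b hab
    simp only [hc', hab]
  have F0 : ∀ a b, c a ∈ S → c b ∈ S → c' a = c' b := by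
    intro a b h1 h2
    simp only [hc', if_pos h1, if_pos h2]
  have F2 : ∀ a b, c' a = c' b → c a ≠ c b → c a ∈ S ∧ c b ∈ S := by
    intro a b hab hn
    by_cases ha : c a ∈ S
    · by_cases hb : c b ∈ S
      · exact ⟨ha, hb⟩
      · simp only [hc', if_pos ha, if_neg hb] at hab
        exact absurd (hab ▸ hs0) hb
    · by_cases hb : c b ∈ S
      · simp only [hc', if_neg ha, if_pos hb] at hab
        exact absurd (hab ▸ hs0) ha
      · simp only [hc', if_neg ha, if_neg hb] at hab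
        exact absurd hab hn
  have hst : Strong φ c' κ := by
    rintro W ⟨u, hu, v, hv, huv⟩
    by_cases h1 : ∃ a ∈ W, ∃ b ∉ W, c a = c b
    · refine (sc_strong φ hc W h1).trans (Nat.cast_le.2 (Set.ncard_le_ncard ?_ (Set.toFinite _)))
      rintro e ⟨he1, he2⟩
      exact ⟨F1 _ _ he1, he2⟩
    · push Not at h1
      obtain ⟨hcu, hcv⟩ := F2 u v huv (h1 u hu v hv)
      have hT1 : c u ∈ S.filter (fun p => ∃ a ∈ W, c a = p) := mem_filter.2 ⟨hcu, u, hu, rfl⟩
      have hT2 : c v ∈ S \ S.filter (fun p => ∃ a ∈ W, c a = p) := by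
        refine mem_sdiff.2 ⟨hcv, ?_⟩
        intro h
        obtain ⟨_, a, ha, hav⟩ := mem_filter.1 h
        exact h1 a ha v hv hav
      have h2 := hcon (S.filter (fun p => ∃ a ∈ W, c a = p)) (filter_subset _ _) ⟨c u, hT1⟩ ⟨c v, hT2⟩
      refine h2.trans (Nat.cast_le.2 (Set.ncard_le_ncard ?_ (Set.toFinite _)))
      have key : ∀ p q, c p ∈ S.filter (fun p => ∃ a ∈ W, c a = p) →
          c q ∈ S \ S.filter (fun p => ∃ a ∈ W, c a = p) → c' p = c' q ∧ p ∈ W ∧ q ∉ W := by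
        intro p q hp hq
        obtain ⟨hp1, a, ha, hap⟩ := mem_filter.1 hp
        obtain ⟨hq1, hq2⟩ := mem_sdiff.1 hq
        refine ⟨F0 _ _ hp1 hq1, ?_, ?_⟩
        · by_contra hpW
          exact h1 a ha p hpW hap
        · intro hqW
          exact hq2 (mem_filter.2 ⟨hq1, q, hqW, rfl⟩)
      intro e he
      rcases he with ⟨he1, he2⟩ | ⟨he1, he2⟩
      · obtain ⟨k1, k2, k3⟩ := key _ _ he1 he2
        exact ⟨k1, fun h => k3 (h.1 k2)⟩
      · obtain ⟨k1, k2, k3⟩ := key _ _ he2 he1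
        exact ⟨k1.symm, fun h => k3 (h.2 k2)⟩
  obtain ⟨u0, hu0⟩ := hr s0 hs0
  obtain ⟨u1, hu1⟩ := hr s1 hs1
  have h3 : SC φ κ u0 u1 := ⟨c', hst, F0 _ _ (hu0 ▸ hs0) (hu1 ▸ hs1)⟩
  have h4 := (hc u0 u1).2 h3
  rw [hu0, hu1] at h4
  exact hne h4

end Pool.Agent.Work.MP_63853a_lc.HF
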