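import Pool.Agent.Work.MP_63853a_lc.HF.Basic
import Pool.Agent.Work.MP_63853a_lc.HF.Merge

set_option autoImplicit false

/-!
# DenQ (size M)

`ψ = quo φ c`, `n S = ncard {e | (ψ e).1 ≠ (ψ e).2 ∧ (ψ e).1 ∈ S ∧ (ψ e).2 ∈ S}`.
(1) `n S + K ≤ K * S.card` for nonempty `S` all of whose elements are values of `c`: strong induction on `S.card`. One element:
`n S = 0`. More: `T` from `merge`: `n S ≤ n T + n (S \ T) + (number of edges between them)`, the last number is less than
`κ ≤ K`, so it is at most `K` (a natural number; in fact `≤ K - 1`), and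
`n T + K ≤ K * T.card`, `n (S \ T) + K ≤ K * (S \ T).card`; add (`K` is enough: `n S + K ≤ K * S.card - 2 K + K + K`).
(2) For every `S`: the edges counted by `n S` have their ends in `S ∩ range c`, so `n S ≤ K * S.card`.
(3) The ordered pairs `(a, b) ∈ S × S` with `adj ψ a b`: choose an edge `e` with `ψ e = (a, b)` or `(b, a)`; the map
`(a, b) ↦ (e, ψ e = (a, b))` to (edges counted by `n S`) x `Bool` is injective. So their number is at most `2 * n S`.
-/

namespace Pool.Agent.Work.MP_63853a_lc.HF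

open Finset Pool.Agent.Work.MP_63853a_lc Pool.Agent.Work.MP_63853a_lc.Tr

private theorem ncard_filter {E : Type} [Fintype E] (Q : E → Prop) [DecidablePred Q] :
    Set.ncard {e | Q e} = (univ.filter Q).card := by
  rw [← Set.ncard_coe_finset]
  simp

open Classical in
private theorem dens_one {V E : Type} [Fintype E] (φ : E → V × V) {κ : ℝ} {c : V → V}
    (hc : ∀ u v, c u = c v ↔ SC φ κ u v) {K : ℕ} (hK : κ ≤ K) : ∀ (n : ℕ) (S : Finset V),
    S.card = n → S.Nonempty → (∀ v ∈ S, ∃ u, c u = v) →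
    (univ.filter fun e : E => (quo φ c e).1 ≠ (quo φ c e).2 ∧ (quo φ c e).1 ∈ S ∧
      (quo φ c e).2 ∈ S).card + K ≤ K * S.card := by
  intro n
  induction n using Nat.strong_induction_on with
  | _ n ih =>
    intro S hn hne hr
    rcases Nat.lt_or_ge 1 S.card with h1 | h1
    · obtain ⟨T, hTS, hT, hT', hB⟩ := merge φ hc h1 hr
      have hcard : T.card + (S \ T).card = S.card := by
        rw [add_comm]
        exact card_sdiff_add_card_eq_card hTS
      have c1 := card_pos.2 hT
      have c2 := card_pos.2 hT'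
      have i1 := ih T.card (by omega) T rfl hT fun v hv => hr v (hTS hv)
      have i2 := ih (S \ T).card (by omega) (S \ T) rfl hT' fun v hv => hr v (sdiff_subset hv)
      rw [ncard_filter] at hB
      have hB' : (univ.filter fun e : E => ((quo φ c e).1 ∈ T ∧ (quo φ c e).2 ∈ S \ T) ∨
        ((quo φ c e).1 ∈ S \ T ∧ (quo φ c e).2 ∈ T)).card < K := by
        have h2 := lt_of_lt_of_le hB hK
        exact_mod_cast h2
      have hsub : (univ.filter fun e : E => (quo φ c e).1 ≠ (quo φ c e).2 ∧ (quo φ c e).1 ∈ S ∧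
          (quo φ c e).2 ∈ S) ⊆
          ((univ.filter fun e : E => (quo φ c e).1 ≠ (quo φ c e).2 ∧ (quo φ c e).1 ∈ T ∧
            (quo φ c e).2 ∈ T) ∪ (univ.filter fun e : E => (quo φ c e).1 ≠ (quo φ c e).2 ∧
              (quo φ c e).1 ∈ S \ T ∧ (quo φ c e).2 ∈ S \ T)) ∪
          (univ.filter fun e : E => ((quo φ c e).1 ∈ T ∧ (quo φ c e).2 ∈ S \ T) ∨
            ((quo φ c e).1 ∈ S \ T ∧ (quo φ c e).2 ∈ T)) := by
        intro e he
        obtain ⟨-, e1, e2, e3⟩ := mem_filter.1 he
        simp only [mem_union, mem_filter, mem_univ, true_and, mem_sdiff]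
        by_cases t1 : (quo φ c e).1 ∈ T <;> by_cases t2 : (quo φ c e).2 ∈ T
        · exact Or.inl (Or.inl ⟨e1, t1, t2⟩)
        · exact Or.inr (Or.inl ⟨t1, e3, t2⟩)
        · exact Or.inr (Or.inr ⟨⟨e2, t1⟩, t2⟩)
        · exact Or.inl (Or.inr ⟨e1, ⟨e2, t1⟩, e3, t2⟩)
      have h3 := card_le_card hsub
      have h4 := card_union_le ((univ.filter fun e : E => (quo φ c e).1 ≠ (quo φ c e).2 ∧
        (quo φ c e).1 ∈ T ∧ (quo φ c e).2 ∈ T) ∪ (univ.filter fun e : E =>
          (quo φ c e).1 ≠ (quo φ c e).2 ∧ (quo φ c e).1 ∈ S \ T ∧ (quo φ c e).2 ∈ S \ T))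
          (univ.filter fun e : E => ((quo φ c e).1 ∈ T ∧ (quo φ c e).2 ∈ S \ T) ∨
            ((quo φ c e).1 ∈ S \ T ∧ (quo φ c e).2 ∈ T))
      have h5 := card_union_le (univ.filter fun e : E => (quo φ c e).1 ≠ (quo φ c e).2 ∧
        (quo φ c e).1 ∈ T ∧ (quo φ c e).2 ∈ T) (univ.filter fun e : E =>
          (quo φ c e).1 ≠ (quo φ c e).2 ∧ (quo φ c e).1 ∈ S \ T ∧ (quo φ c e).2 ∈ S \ T)
      have h6 : K * S.card = K * T.card + K * (S \ T).card := by
        rw [← hcard, mul_add]
      omega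
    · have h2 : S.card = 1 := le_antisymm h1 (card_pos.2 hne)
      obtain ⟨a, rfl⟩ := card_eq_one.1 h2
      have h3 : (univ.filter fun e : E => (quo φ c e).1 ≠ (quo φ c e).2 ∧
          (quo φ c e).1 ∈ ({a} : Finset V) ∧ (quo φ c e).2 ∈ ({a} : Finset V)) = ∅ := by
        rw [filter_eq_empty_iff]
        rintro e - ⟨e1, e2, e3⟩
        rw [mem_singleton] at e2 e3
        exact e1 (e2.trans e3.symm)
      rw [h3, card_empty, h2]
      omega

theorem dens_quo {V E : Type} [Fintype V] [Finite E] (φ : E → V × V) {κ : ℝ} {c : V → V}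
    (hc : ∀ u v, c u = c v ↔ SC φ κ u v) {K : ℕ} (hK : κ ≤ K) : Dens (adj (quo φ c)) K := by
  classical
  let _ : Fintype E := Fintype.ofFinite E
  intro S
  let S' : Finset V := S.filter fun v => ∃ u, c u = v
  let F : Finset E := univ.filter fun e : E => (quo φ c e).1 ≠ (quo φ c e).2 ∧
    (quo φ c e).1 ∈ S' ∧ (quo φ c e).2 ∈ S'
  have hF : F.card ≤ K * S.card := by
    have hSS : S'.card ≤ S.card := card_le_card (filter_subset _ _)
    rcases S'.eq_empty_or_nonempty with h0 | h0
    · have h1 : F = ∅ := by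
        rw [filter_eq_empty_iff]
        rintro e - ⟨-, e2, -⟩
        rw [h0] at e2
        exact notMem_empty _ e2
      rw [h1]
      simp
    · have h1 := dens_one φ hc hK S'.card S' rfl h0 fun v hv => (mem_filter.1 hv).2
      have h2 : F.card ≤ K * S'.card := by
        refine le_trans ?_ h1
        exact Nat.le_add_right _ _
      exact h2.trans (Nat.mul_le_mul_left K hSS)
  have hsub : ((S ×ˢ S).filter fun p => adj (quo φ c) p.1 p.2) ⊆
      F.image (fun e => quo φ c e) ∪ F.image (fun e => ((quo φ c e).2, (quo φ c e).1)) := by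
    rintro ⟨a, b⟩ hp
    obtain ⟨hp1, hne, e, he⟩ := mem_filter.1 hp
    obtain ⟨ha, hb⟩ := mem_product.1 hp1
    simp only at ha hb hne he
    rw [mem_union, mem_image, mem_image]
    have hv : ∀ v, v ∈ S → (v = (quo φ c e).1 ∨ v = (quo φ c e).2) → v ∈ S' := by
      intro v hv hvv
      refine mem_filter.2 ⟨hv, ?_⟩
      rcases hvv with h | h
      · exact ⟨(φ e).1, h.symm⟩
      · exact ⟨(φ e).2, h.symm⟩
    rcases he with he | he
    · left
      refine ⟨e, mem_filter.2 ⟨mem_univ _, ?_⟩, he⟩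
      rw [he] at hv ⊢
      exact ⟨hne, hv a ha (Or.inl rfl), hv b hb (Or.inr rfl)⟩
    · right
      refine ⟨e, mem_filter.2 ⟨mem_univ _, ?_⟩, by rw [he]⟩
      rw [he] at hv ⊢
      exact ⟨hne.symm, hv b hb (Or.inl rfl), hv a ha (Or.inr rfl)⟩
  have h1 := card_le_card hsub
  have h2 := card_union_le (F.image (fun e => quo φ c e))
    (F.image (fun e => ((quo φ c e).2, (quo φ c e).1)))
  have h3 := card_image_le (s := F) (f := fun e => quo φ c e)
  have h4 := card_image_le (s := F) (f := fun e => ((quo φ c e).2, (quo φ c e).1))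
  have h5 : 2 * K * S.card = K * S.card + K * S.card := by ring
  rw [h5]
  refine le_trans ?_ (le_trans h1 (le_trans h2 (Nat.add_le_add (h3.trans hF) (h4.trans hF))))
  refine le_of_eq ?_
  congr

end Pool.Agent.Work.MP_63853a_lc.HF
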