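import Pool.Agent.Work.MP_63853a_lc.HF.GirA
import Pool.Agent.Work.MP_63853a_lc.HF.CycH

set_option autoImplicit false

/-!
# FreeA (size S)

An induced copy `f` of `H`: `U = W.image f` (`cyc_h`) satisfies the hypothesis of `gir_a` (`f` injective, adjacency preserved),
so `a < U.card ≤ W.card ≤ h ≤ a`.
-/

namespace Pool.Agent.Work.MP_63853a_lc.HF

open Finset Pool.Agent.Work.MP_63853a_lc Pool.Agent.Work.MP_63853a_lc.Tr

theorem free_a {h : ℕ} (H : SimpleGraph (Fin h)) (hH : ¬ H.IsAcyclic) {V E : Type} (φ : E → V × V) {a m : ℕ}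
    (ha : 1 ≤ a) (hh : h ≤ a) : Free H (gadA φ a m) := by
  classical
  rintro ⟨f, hf, hadj⟩
  obtain ⟨W, hW, hW2⟩ := cyc_h H hH
  have h1 := gir_a φ ha (W.image f) (hW.image f) (by
    intro u hu
    obtain ⟨w, hw, rfl⟩ := mem_image.1 hu
    obtain ⟨x, hx, y, hy, hxy, h2, h3⟩ := hW2 w hw
    exact ⟨f x, mem_image_of_mem f hx, f y, mem_image_of_mem f hy, fun h4 => hxy (hf h4),
      (hadj w x h2.ne).1 h2, (hadj w y h3.ne).1 h3⟩)
  have h2 : (W.image f).card ≤ h := by
    refine card_image_le.trans ?_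
    simpa using Finset.card_le_univ W
  omega

end Pool.Agent.Work.MP_63853a_lc.HF
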