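import Pool.Agent.Work.MP_63853a_lc.HF.Defs
import Pool.Agent.Work.MP_63853a_lc.PForm
import Pool.Agent.Work.MP_63853a_lc.Lengths

set_option autoImplicit false

/-!
# ParA (size M-L)

`q = (x - 1) * (y - 1)`, `1 + q / (y - 1) = x`, so `weff (y - 1) (a + 1) q = q / (x ^ (a + 1) - 1) =: w a` (`weff_eq`), decreasing
to `0`. Let `η = min (1 / 2) ((y - 1) / (2 y)) * δ / (M + 1)` and `a` the least number `≥ L` with `w a ≤ η`; then `x ^ (a + 1) ≤`
`x * (1 + q / η) + x ^ (L + 1)` (either `a = L` or `w (a - 1) > η`), so `1 / w a ≤ C1 * (M + 1) / δ` and, as `a + 1 ≤ x ^ (a + 1) / (x - 1)`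
(Bernoulli), also `a ≤ C1 * (M + 1) / δ`. Let `m` be the largest number with `(1 + w a) ^ m ≤ y` (`Nat.findGreatest` or
`⌊log y / log (1 + w a)⌋₊`); `m ≥ 1` as `w a ≤ η < y - 1`; `m * w a ≤ (1 + w a) ^ m ≤ y` (Bernoulli), so `m ≤ y / w a`.
`g = (1 + w a) ^ m - 1`: `0 < g ≤ y - 1` and `1 + g > y / (1 + w a) ≥ y (1 - w a)`, so `g ≥ (y - 1) - y η` and
`g / (y - 1) ≥ 1 - y η / (y - 1) ≥ 1 - δ / (M + 1)`; Bernoulli (`one_add_mul_le_pow`): `(g / (y - 1)) ^ M ≥ 1 - M δ / (M + 1) ≥ 1 - δ`.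
Size: `v + M m a + M m (a + 1)` is at most a constant times `((v + M + 1) / δ) ^ 3`; a number `C` which serves as constant and as
exponent (`(v + M + 1) / δ ≥ 1`).
-/

namespace Pool.Agent.Work.MP_63853a_lc.HF

open Finset Pool.Agent.Work.MP_63853a_lc Pool.Agent.Work.MP_63853a_lc.Tr

/-- the choice of `a` for a given `η` -/
private theorem par_len {x : ℝ} (hx : 1 < x) (L : ℕ) {Y : ℝ} (hY : 0 < Y) :
    ∃ a : ℕ, L ≤ a ∧ Y ≤ x ^ (a + 1) ∧ x ^ (a + 1) ≤ x * Y + x ^ (L + 1) := by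
  classical
  have hx0 : 0 < x := by linarith
  have hex : ∃ a : ℕ, L ≤ a ∧ Y ≤ x ^ (a + 1) := by
    obtain ⟨n, hn⟩ := pow_unbounded_of_one_lt Y hx
    refine ⟨max L n, le_max_left _ _, hn.le.trans ?_⟩
    exact pow_le_pow_right₀ hx.le (le_trans (le_max_right L n) (Nat.le_succ _))
  refine ⟨Nat.find hex, (Nat.find_spec hex).1, (Nat.find_spec hex).2, ?_⟩
  rcases Nat.eq_or_lt_of_le (Nat.find_spec hex).1 with he | hlt
  · rw [← he]
    have : 0 < x * Y := mul_pos hx0 hY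
    linarith
  · have hmin := Nat.find_min hex (m := Nat.find hex - 1) (by omega)
    have h1 : ¬ Y ≤ x ^ (Nat.find hex) := by
      intro hc
      apply hmin
      refine ⟨by omega, ?_⟩
      have e : Nat.find hex - 1 + 1 = Nat.find hex := by omega
      rw [e]
      exact hc
    have h2 : x ^ (Nat.find hex + 1) ≤ x * Y := by
      rw [pow_succ, mul_comm]
      exact mul_le_mul_of_nonneg_left (not_le.1 h1).le hx0.le
    have h3 : 0 < x ^ (L + 1) := pow_pos hx0 _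
    linarith

/-- the choice of `m` -/
private theorem par_m {y w η δ : ℝ} (hy : 1 < y) (hw : 0 < w) (hwη : w ≤ η) (M : ℕ) (hδ : 0 < δ) (hδ1 : δ ≤ 1)
    (hη : y * η ≤ (y - 1) * (δ / (M + 1))) (hη2 : η < y - 1) :
    ∃ m : ℕ, (m : ℝ) ≤ y / w ∧ 0 < (1 + w) ^ m - 1 ∧ (1 + w) ^ m - 1 ≤ y - 1 ∧
      1 - δ ≤ (((1 + w) ^ m - 1) / (y - 1)) ^ M := by
  obtain ⟨m, hm1, hm2⟩ := exists_nat_pow_near hy.le (show (1 : ℝ) < 1 + w by linarith)
  have hm0 : m ≠ 0 := by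
    rintro rfl
    rw [zero_add, pow_one] at hm2
    linarith
  have hM : (0 : ℝ) < (M : ℝ) + 1 := by positivity
  have hy1 : 0 < y - 1 := by linarith
  refine ⟨m, ?_, ?_, by linarith, ?_⟩
  · rw [le_div_iff₀ hw]
    have := one_add_mul_le_pow (show (-2 : ℝ) ≤ w by linarith) m
    linarith
  · have := one_lt_pow₀ (show (1 : ℝ) < 1 + w by linarith) hm0
    linarith
  · have h1 : y * (1 - w) ≤ (1 + w) ^ m := by
      have h2 : y * (1 - w) * (1 + w) ≤ (1 + w) ^ m * (1 + w) := by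
        have h3 : y * (1 - w) * (1 + w) ≤ y := by nlinarith [mul_pos hw hw]
        rw [pow_succ] at hm2
        linarith
      exact le_of_mul_le_mul_right h2 (by linarith)
    have h2 : 1 + -(δ / (M + 1)) ≤ ((1 + w) ^ m - 1) / (y - 1) := by
      rw [le_div_iff₀ hy1]
      have h3 : y * w ≤ y * η := mul_le_mul_of_nonneg_left hwη (by linarith)
      nlinarith
    have hq1 : δ / (M + 1) ≤ 1 := by
      rw [div_le_one hM]
      have : (0 : ℝ) ≤ (M : ℝ) := Nat.cast_nonneg M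
      linarith
    have hq0 : 0 < δ / (M + 1) := by positivity
    have h4 := one_add_mul_le_pow (show (-2 : ℝ) ≤ -(δ / (M + 1)) by linarith) M
    have h5 : (1 + -(δ / (M + 1))) ^ M ≤ (((1 + w) ^ m - 1) / (y - 1)) ^ M :=
      pow_le_pow_left₀ (by linarith) h2 M
    have h6 : 1 - δ ≤ 1 + (M : ℝ) * -(δ / (M + 1)) := by
      have h7 : (M : ℝ) * (δ / (M + 1)) ≤ δ := by
        rw [← mul_div_assoc, div_le_iff₀ hM]
        nlinarith
      linarith
    linarith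

/-- the size -/
private theorem par_size {y D T w : ℝ} (hy : 1 < y) (hT : 1 ≤ T) (hD : 1 / w ≤ D * T) (hD0 : 0 < D)
    (v M m a : ℕ) (hv : (v : ℝ) ≤ T) (hM : (M : ℝ) ≤ T) (hm : (m : ℝ) ≤ y / w)
    (ha : (a : ℝ) + 1 ≤ (y - 1) / w) :
    (v : ℝ) + M * m * a + M * m * (a + 1) ≤ (1 + 2 * y * (y - 1) * D ^ 2) * T ^ 3 := by
  have hT0 : 0 < T := by linarith
  have h1 : (m : ℝ) ≤ y * (D * T) := by
    refine hm.trans ?_
    rw [div_eq_mul_one_div]
    exact mul_le_mul_of_nonneg_left hD (by linarith)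
  have h2 : (a : ℝ) + 1 ≤ (y - 1) * (D * T) := by
    refine ha.trans ?_
    rw [div_eq_mul_one_div]
    exact mul_le_mul_of_nonneg_left hD (by linarith)
  have hm0 : (0 : ℝ) ≤ m := Nat.cast_nonneg m
  have hM0 : (0 : ℝ) ≤ M := Nat.cast_nonneg M
  have ha0 : (0 : ℝ) ≤ a := Nat.cast_nonneg a
  have h3 : (M : ℝ) * m * (a + 1) ≤ T * (y * (D * T)) * ((y - 1) * (D * T)) := by
    apply mul_le_mul (mul_le_mul hM h1 hm0 hT0.le) h2 (by linarith)
    positivity
  have h4 : (M : ℝ) * m * a ≤ M * m * (a + 1) :=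
    mul_le_mul_of_nonneg_left (by linarith) (mul_nonneg hM0 hm0)
  have h5 : T ≤ T ^ 3 := by
    calc T = T ^ 1 := (pow_one T).symm
      _ ≤ T ^ 3 := pow_le_pow_right₀ hT (by norm_num)
  have h6 : T * (y * (D * T)) * ((y - 1) * (D * T)) = y * (y - 1) * D ^ 2 * T ^ 3 := by ring
  rw [h6] at h3
  calc (v : ℝ) + M * m * a + M * m * (a + 1) ≤ T ^ 3 + y * (y - 1) * D ^ 2 * T ^ 3 +
        y * (y - 1) * D ^ 2 * T ^ 3 := by linarith
    _ = (1 + 2 * y * (y - 1) * D ^ 2) * T ^ 3 := by ring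

theorem par_a {x y : ℝ} (hx : 1 < x) (hy : 1 < y) (L : ℕ) :
    ∃ C : ℕ, ∀ (v M : ℕ) (δ : ℝ), 0 < δ → δ ≤ 1 → ∃ a m : ℕ, L ≤ a ∧
      ((v + M * m * a + M * m * (a + 1) : ℕ) : ℝ) ≤ C * ((v + M + 1 : ℕ) / δ) ^ C ∧
      0 < (1 + weff (y - 1) (a + 1) ((x - 1) * (y - 1))) ^ m - 1 ∧
      (1 + weff (y - 1) (a + 1) ((x - 1) * (y - 1))) ^ m - 1 ≤ y - 1 ∧
      1 - δ ≤ (((1 + weff (y - 1) (a + 1) ((x - 1) * (y - 1))) ^ m - 1) / (y - 1)) ^ M := by
  have hx1 : 0 < x - 1 := by linarith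
  have hy1 : 0 < y - 1 := by linarith
  have hx0 : 0 < x := by linarith
  have hy0 : 0 < y := by linarith
  have hq : 0 < (x - 1) * (y - 1) := mul_pos hx1 hy1
  obtain ⟨κ, hκ0, hκ1⟩ : ∃ κ : ℝ, 0 < κ ∧ y * κ ≤ (y - 1) / 2 := by
    refine ⟨(y - 1) / (2 * y), by positivity, le_of_eq ?_⟩
    field_simp
  have hκ2 : κ < y - 1 := by nlinarith
  set q := (x - 1) * (y - 1) with hqd
  set D : ℝ := (x + x ^ (L + 1)) / q + x / κ with hDd
  have hD0 : 0 < D := by positivity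
  obtain ⟨C0, hC0⟩ := exists_nat_ge (1 + 2 * y * (y - 1) * D ^ 2)
  refine ⟨max 3 C0, ?_⟩
  intro v M δ hδ hδ1
  have hM : (0 : ℝ) < (M : ℝ) + 1 := by positivity
  have hr0 : 0 < δ / (M + 1) := by positivity
  have hr1 : δ / (M + 1) ≤ 1 := by
    rw [div_le_one hM]
    have : (0 : ℝ) ≤ (M : ℝ) := Nat.cast_nonneg M
    linarith
  have hη0 : 0 < κ * (δ / (M + 1)) := mul_pos hκ0 hr0
  have hηκ : κ * (δ / (M + 1)) ≤ κ := by nlinarith
  have hY : 0 < 1 + q / (κ * (δ / (M + 1))) := by positivity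
  obtain ⟨a, ha1, ha2, ha3⟩ := par_len hx L hY
  have hxq : 1 + q / (y - 1) = x := by
    rw [hqd]
    field_simp
    ring
  have hxa : 0 < x ^ (a + 1) - 1 := by
    have := one_lt_pow₀ hx (Nat.succ_ne_zero a)
    simp only [Nat.succ_eq_add_one] at this
    linarith
  have hwe : weff (y - 1) (a + 1) q = q / (x ^ (a + 1) - 1) := by
    rw [weff_eq hy1 hq (a + 1) (by omega), hxq]
  have hw0 : 0 < weff (y - 1) (a + 1) q := weff_pos hy1 hq (a + 1) (by omega)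
  have hwη : weff (y - 1) (a + 1) q ≤ κ * (δ / (M + 1)) :=
    weff_small hy1 hq hη0 (a + 1) (by omega) (by rw [hxq]; exact ha2)
  generalize hw : weff (y - 1) (a + 1) q = w at *
  have hiw : 1 / w = (x ^ (a + 1) - 1) / q := by
    rw [hwe, one_div_div]
  obtain ⟨m, hm1, hm2, hm3, hm4⟩ := par_m hy hw0 hwη M hδ hδ1
    (by nlinarith) (by linarith)
  refine ⟨a, m, ha1, ?_, ?_⟩
  · have hN : (((v + M + 1 : ℕ) : ℝ)) = v + M + 1 := by push_cast; ring
    set T : ℝ := ((v + M + 1 : ℕ) : ℝ) / δ with hT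
    have hv0 : (0 : ℝ) ≤ v := Nat.cast_nonneg v
    have hM0 : (0 : ℝ) ≤ M := Nat.cast_nonneg M
    have hNT : ((v + M + 1 : ℕ) : ℝ) ≤ T := by
      rw [hT, le_div_iff₀ hδ]
      have : (0 : ℝ) ≤ ((v + M + 1 : ℕ) : ℝ) := Nat.cast_nonneg _
      nlinarith
    rw [hN] at hNT
    have hT1 : 1 ≤ T := by linarith
    have hrT : (M + 1) / δ ≤ T := by
      rw [hT, hN]
      apply div_le_div_of_nonneg_right _ hδ.le
      linarith
    have hDT : 1 / w ≤ D * T := by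
      rw [hiw]
      have e1 : (x ^ (a + 1) - 1) / q ≤ (x * (1 + q / (κ * (δ / (M + 1)))) + x ^ (L + 1)) / q := by
        apply div_le_div_of_nonneg_right _ hq.le
        linarith
      have e2 : (x * (1 + q / (κ * (δ / (M + 1)))) + x ^ (L + 1)) / q =
          (x + x ^ (L + 1)) / q + x / κ * ((M + 1) / δ) := by
        field_simp
        ring
      have e3 : (x + x ^ (L + 1)) / q ≤ (x + x ^ (L + 1)) / q * T :=
        le_mul_of_one_le_right (by positivity) hT1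
      have e4 : x / κ * ((M + 1) / δ) ≤ x / κ * T := mul_le_mul_of_nonneg_left hrT (by positivity)
      rw [hDd, add_mul]
      linarith
    have haw : (a : ℝ) + 1 ≤ (y - 1) / w := by
      have e5 := one_add_mul_le_pow (show (-2 : ℝ) ≤ x - 1 by linarith) (a + 1)
      rw [add_sub_cancel] at e5
      push_cast at e5
      have e6 : (y - 1) / w = (x ^ (a + 1) - 1) / (x - 1) := by
        rw [div_eq_mul_one_div, hiw, hqd]
        field_simp
      rw [e6, le_div_iff₀ hx1]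
      linarith
    have hs := par_size hy hT1 hDT hD0 v M m a (by linarith) (by linarith) hm1 haw
    push_cast
    have hC : (1 + 2 * y * (y - 1) * D ^ 2) ≤ ((max 3 C0 : ℕ) : ℝ) := by
      refine hC0.trans ?_
      exact_mod_cast le_max_right 3 C0
    have hp : T ^ 3 ≤ T ^ (max 3 C0) := pow_le_pow_right₀ hT1 (le_max_left _ _)
    have hfin : (1 + 2 * y * (y - 1) * D ^ 2) * T ^ 3 ≤ ((max 3 C0 : ℕ) : ℝ) * T ^ (max 3 C0) := by
      apply mul_le_mul hC hp (by positivity) (Nat.cast_nonneg _)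
    push_cast at hfin
    exact hs.trans hfin
  · rw [hw]
    exact ⟨hm2, hm3, hm4⟩

end Pool.Agent.Work.MP_63853a_lc.HF
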