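import Pool.Agent.Work.MP_63853a_lc.HF.Basic

set_option autoImplicit false

/-!
# SimA (size M)

The edge `(⟨e, i⟩, 0)` joins `pt .. e i` and `pt .. e (i + 1)` (`i ≤ a`, `a ≥ 2`); at least one of them is a new vertex `inr ⟨e, _⟩`
which determines `e`. No loop: `pt .. e i ≠ pt .. e (i + 1)`: one is new; if both are new the numbers differ. Injective: two edges
with the same ends belong to the same `e`; for given `e` the new ends are: `{inr 0}` together with an old vertex (`i = 0`),
`{inr (i - 1), inr i}` (`0 < i < a`), `{inr (a - 1)}` with an old vertex (`i = a`); these are different as `a ≥ 2`.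
-/

namespace Pool.Agent.Work.MP_63853a_lc.HF

open Finset Pool.Agent.Work.MP_63853a_lc Pool.Agent.Work.MP_63853a_lc.Tr

private theorem pt_new {V E : Type} (Φ : E → V × V) (a : ℕ) (e : E) (i : ℕ) (h1 : 1 ≤ i)
    (h2 : i ≤ a) : pt Φ (fun _ => a) e i = Sum.inr ⟨e, ⟨i - 1, by omega⟩⟩ := by
  unfold pt
  rw [if_neg (by omega), dif_pos (show i - 1 < a by omega)]

private theorem pt_inj {V E : Type} (Φ : E → V × V) (a : ℕ) {e e' : E} {i j : ℕ} (h1 : 1 ≤ i)
    (h2 : i ≤ a) (h : pt Φ (fun _ => a) e i = pt Φ (fun _ => a) e' j) : e = e' ∧ i = j := by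
  rw [pt_new Φ a e i h1 h2] at h
  unfold pt at h
  split_ifs at h with h3 h4
  have h5 := Sum.inr.inj h
  have h6 : e = e' := congrArg Sigma.fst h5
  subst h6
  have h7 := eq_of_heq (Sigma.mk.inj h5).2
  have h8 : i - 1 = j - 1 := congrArg Fin.val h7
  exact ⟨rfl, by omega⟩

theorem simp_a {V E : Type} (φ : E → V × V) {a m : ℕ} (ha : 2 ≤ a) : Simp (gadA φ a m) := by
  have hl : ∀ g : EA E a m, (gadA φ a m g).1 =
      pt (thk φ m) (fun _ => a) g.1.1 g.1.2 := fun g => rfl
  have hr : ∀ g : EA E a m, (gadA φ a m g).2 =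
      pt (thk φ m) (fun _ => a) g.1.1 (g.1.2 + 1) := fun g => rfl
  constructor
  · rintro ⟨⟨e, i⟩, k⟩ h
    rw [hl, hr] at h
    have h1 : (i : ℕ) < a + 1 := i.2
    change pt (thk φ m) (fun _ => a) e i = pt (thk φ m) (fun _ => a) e (i + 1) at h
    rcases Nat.eq_zero_or_pos (i : ℕ) with h2 | h2
    · have h3 := (pt_inj (thk φ m) a (by omega) (by omega) h.symm).2
      omega
    · have h3 := (pt_inj (thk φ m) a (by omega) (by omega) h).2
      omega
  · rintro ⟨⟨e, i⟩, k⟩ ⟨⟨e', j⟩, k'⟩ h
    have h1 : (i : ℕ) < a + 1 := i.2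
    have h2 : (j : ℕ) < a + 1 := j.2
    have hk : k = k' := Subsingleton.elim _ _
    subst hk
    have fin : e = e' → (i : ℕ) = j → (((⟨e, i⟩ : Σ _ : E × Fin m, Fin (a + 1)), k) : EA E a m) =
        ((⟨e', j⟩ : Σ _ : E × Fin m, Fin (a + 1)), k) := by
      intro h3 h4
      subst h3
      have h5 : i = j := Fin.ext h4
      subst h5
      rfl
    rcases h with h | h
    · have a1 : pt (thk φ m) (fun _ => a) e i = pt (thk φ m) (fun _ => a) e' j :=
        congrArg Prod.fst h
      have a2 : pt (thk φ m) (fun _ => a) e (i + 1) = pt (thk φ m) (fun _ => a) e' (j + 1) :=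
        congrArg Prod.snd h
      rcases Nat.eq_zero_or_pos (i : ℕ) with h3 | h3
      · obtain ⟨b1, b2⟩ := pt_inj (thk φ m) a (by omega) (by omega) a2
        exact fin b1 (by omega)
      · obtain ⟨b1, b2⟩ := pt_inj (thk φ m) a (by omega) (by omega) a1
        exact fin b1 b2
    · exfalso
      have a1 : pt (thk φ m) (fun _ => a) e i = pt (thk φ m) (fun _ => a) e' (j + 1) :=
        congrArg Prod.fst h
      have a2 : pt (thk φ m) (fun _ => a) e (i + 1) = pt (thk φ m) (fun _ => a) e' j :=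
        congrArg Prod.snd h
      rcases Nat.eq_zero_or_pos (i : ℕ) with h3 | h3
      · obtain ⟨b1, b2⟩ := pt_inj (thk φ m) a (by omega) (by omega) a2
        subst b1
        obtain ⟨-, b3⟩ := pt_inj (thk φ m) a (by omega) (by omega) a1.symm
        omega
      · obtain ⟨b1, b2⟩ := pt_inj (thk φ m) a (by omega) (by omega) a1
        subst b1
        rcases Nat.lt_or_ge (i : ℕ) a with h4 | h4
        · obtain ⟨-, b3⟩ := pt_inj (thk φ m) a (by omega) (by omega) a2
          omega
        · obtain ⟨-, b3⟩ := pt_inj (thk φ m) a (by omega) (by omega) a2.symm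
          omega

end Pool.Agent.Work.MP_63853a_lc.HF
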