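import Pool.Agent.Work.MP_63853a_lc.HF.ScA1
import Pool.Agent.Work.MP_63853a_lc.HF.ParA
import Pool.Agent.Work.MP_63853a_lc.HF.FreeA
import Pool.Agent.Work.MP_63853a_lc.HF.SimA

set_option autoImplicit false

/-!
# PartII (size S-M)

`par_a` with `L = max h 2`, `v = card V`, `M = card E`; `card (VA V E a m) = card V + card E * m * a`,
`card (EA E a m) = card E * m * (a + 1)` (`Fintype.card_sigma`). `scA_bounds`: `(1 - δ) * T ≤ s * T' ≤ T` with `T > 0` (`tutte_pos`).
-/

namespace Pool.Agent.Work.MP_63853a_lc.HF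

open Finset Pool.Agent.Work.MP_63853a_lc Pool.Agent.Work.MP_63853a_lc.Tr

theorem part_two (x y : ℝ) (hx : 1 < x) (hy : 1 < y) {h : ℕ} (H : SimpleGraph (Fin h)) (hH : ¬ H.IsAcyclic) :
    ∃ C : ℕ, ∀ (V E : Type) [Fintype V] [Fintype E] (φ : E → V × V) (δ : ℝ), 0 < δ → δ ≤ 1 →
      ∃ a m : ℕ,
        ((Fintype.card (VA V E a m) + Fintype.card (EA E a m) : ℕ) : ℝ) ≤
          C * ((Fintype.card V + Fintype.card E + 1 : ℕ) / δ) ^ C ∧
        Simp (gadA φ a m) ∧ Free H (gadA φ a m) ∧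
        |scA φ x y a m * tutte (gadA φ a m) x y - tutte φ x y| ≤ δ * tutte φ x y := by
  obtain ⟨C, hC⟩ := par_a hx hy (max h 2)
  refine ⟨C, ?_⟩
  intro V E _ _ φ δ hδ hδ1
  obtain ⟨a, m, haL, hsz, hg0, hg1, hM⟩ := hC (Fintype.card V) (Fintype.card E) δ hδ hδ1
  have ha2 : 2 ≤ a := (le_max_right h 2).trans haL
  have hah : h ≤ a := (le_max_left h 2).trans haL
  refine ⟨a, m, ?_, simp_a φ ha2, free_a H hH φ (by omega) hah, ?_⟩
  · have e1 : Fintype.card (VA V E a m) + Fintype.card (EA E a m) =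
        Fintype.card V + Fintype.card E * m * a + Fintype.card E * m * (a + 1) := by
      simp only [Fintype.card_sum, Fintype.card_prod, Fintype.card_sigma, Fintype.card_fin,
        Finset.sum_const, Finset.card_univ, smul_eq_mul]
      ring
    rw [e1]
    exact hsz
  · obtain ⟨h1, h2⟩ := scA_bounds φ hx hy rfl hg0 hg1
    have hT : 0 < tutte φ x y := tutte_pos φ hx hy
    have hδT : 0 < δ * tutte φ x y := mul_pos hδ hT
    have h3 := mul_le_mul_of_nonneg_right hM hT.le
    rw [abs_le]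
    constructor
    · nlinarith
    · linarith

end Pool.Agent.Work.MP_63853a_lc.HF
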