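import Pool.Agent.Work.MP_63853a_lc.HF.Basic

set_option autoImplicit false

/-!
# FreeB (size M)

Every vertex `(u, i)` of `gadB φ M α` has at most one neighbour `(u', j)` with `u' ≠ u`: such a neighbour comes from an edge `e` with
`(φ e).1 = u`, `α (inl e) = i` or `(φ e).2 = u`, `α (inr e) = i`; as `α` is injective on `E ⊕ E` the edge and its side are determined by
`i`. Two different vertices of the same clique are adjacent. Let `f` be an induced copy of `H` and `v` with three different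
neighbours `a1, a2, a3` (`Set.two_lt_ncard` or `Set.three_le..`). Two of the `f (a_j)` are in the same clique as `f v`, say `a1, a2`, so
`nb (f a1) (f a2)`, `H.Adj a1 a2`, and `v, a1, a2` is a triangle of `H`, against `IsAcyclic` (a cycle
`Walk.cons .. (Walk.cons .. (Walk.cons .. nil))`; or `SimpleGraph.IsAcyclic` and `isAcyclic_iff_path_unique`: two different paths
from `v` to `a1`).
-/

namespace Pool.Agent.Work.MP_63853a_lc.HF

open Finset Pool.Agent.Work.MP_63853a_lc Pool.Agent.Work.MP_63853a_lc.Tr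

private theorem out_uniq {V E : Type} (φ : E → V × V) {M : ℕ} (α : E ⊕ E → Fin M)
    (hα : Function.Injective α) {u w w' : V} {i k k' : Fin M} (hw : w ≠ u) (hw' : w' ≠ u)
    (h1 : nb (gadB φ M α) (u, i) (w, k)) (h2 : nb (gadB φ M α) (u, i) (w', k')) :
    w = w' ∧ k = k' := by
  have key : ∀ (w : V) (k : Fin M), w ≠ u → nb (gadB φ M α) (u, i) (w, k) → ∃ e : E,
      (i = α (.inl e) ∧ w = (φ e).2 ∧ k = α (.inr e)) ∨
        (i = α (.inr e) ∧ w = (φ e).1 ∧ k = α (.inl e)) := by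
    rintro w k hwu ⟨(⟨v, ⟨⟨p, q⟩, hpq⟩⟩ | ⟨e, he⟩), h | h⟩
    · exfalso
      have a1 : v = u := congrArg (fun p => p.1.1) h
      have a2 : v = w := congrArg (fun p => p.2.1) h
      exact hwu (a2.symm.trans a1)
    · exfalso
      have a1 : v = w := congrArg (fun p => p.1.1) h
      have a2 : v = u := congrArg (fun p => p.2.1) h
      exact hwu (a1.symm.trans a2)
    · have a1 : α (.inl e) = i := congrArg (fun p => p.1.2) h
      have a2 : (φ e).2 = w := congrArg (fun p => p.2.1) h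
      have a3 : α (.inr e) = k := congrArg (fun p => p.2.2) h
      exact ⟨e, Or.inl ⟨a1.symm, a2.symm, a3.symm⟩⟩
    · have a1 : α (.inr e) = i := congrArg (fun p => p.2.2) h
      have a2 : (φ e).1 = w := congrArg (fun p => p.1.1) h
      have a3 : α (.inl e) = k := congrArg (fun p => p.1.2) h
      exact ⟨e, Or.inr ⟨a1.symm, a2.symm, a3.symm⟩⟩
  obtain ⟨e, he⟩ := key w k hw h1
  obtain ⟨e', he'⟩ := key w' k' hw' h2
  rcases he with ⟨a1, a2, a3⟩ | ⟨a1, a2, a3⟩ <;> rcases he' with ⟨b1, b2, b3⟩ | ⟨b1, b2, b3⟩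
  · have h3 : e = e' := Sum.inl.inj (hα (a1.symm.trans b1))
    subst h3
    exact ⟨a2.trans b2.symm, a3.trans b3.symm⟩
  · exact absurd (hα (a1.symm.trans b1)) (by intro h; cases h)
  · exact absurd (hα (a1.symm.trans b1)) (by intro h; cases h)
  · have h3 : e = e' := Sum.inr.inj (hα (a1.symm.trans b1))
    subst h3
    exact ⟨a2.trans b2.symm, a3.trans b3.symm⟩

private theorem in_adj {V E : Type} (φ : E → V × V) {M : ℕ} (α : E ⊕ E → Fin M) (u : V)
    {k k' : Fin M} (h : k ≠ k') : nb (gadB φ M α) (u, k) (u, k') := by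
  rcases lt_or_gt_of_ne h with h1 | h1
  · exact ⟨.inl (u, ⟨(k, k'), h1⟩), Or.inl rfl⟩
  · exact ⟨.inl (u, ⟨(k', k), h1⟩), Or.inr rfl⟩

private theorem no_triangle {h : ℕ} {H : SimpleGraph (Fin h)} (hA : H.IsAcyclic) {a b c : Fin h}
    (h1 : H.Adj a b) (h2 : H.Adj a c) (h3 : H.Adj b c) : False := by
  obtain ⟨u, w, hw, -⟩ := SimpleGraph.is3Clique_iff_exists_cycle_length_three.1
    ⟨{a, b, c}, SimpleGraph.is3Clique_triple_iff.2 ⟨h1, h2, h3⟩⟩
  exact hA w hw

theorem free_b {h : ℕ} (H : SimpleGraph (Fin h)) (hA : H.IsAcyclic) (h3 : ∃ v, 3 ≤ (H.neighborSet v).ncard)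
    {V E : Type} (φ : E → V × V) {M : ℕ} (α : E ⊕ E → Fin M) (hα : Function.Injective α) :
    Free H (gadB φ M α) := by
  rintro ⟨f, hf, hadj⟩
  obtain ⟨v, hv⟩ := h3
  obtain ⟨a, b, c, ha, hb, hc, hab, hac, hbc⟩ := (Set.two_lt_ncard_iff (Set.toFinite _)).1
    (show 2 < (H.neighborSet v).ncard by omega)
  rw [SimpleGraph.mem_neighborSet] at ha hb hc
  have hn : ∀ x, H.Adj v x → nb (gadB φ M α) ((f v).1, (f v).2) ((f x).1, (f x).2) :=
    fun x hx => (hadj v x hx.ne).1 hx
  have key : ∀ x y, H.Adj v x → H.Adj v y → x ≠ y → (f x).1 ≠ (f v).1 → (f y).1 = (f v).1 := by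
    intro x y hx hy hxy h1
    by_contra h2
    obtain ⟨h4, h5⟩ := out_uniq φ α hα h1 h2 (hn x hx) (hn y hy)
    exact hxy (hf (Prod.ext h4 h5))
  have fin : ∀ x y, H.Adj v x → H.Adj v y → x ≠ y → (f x).1 = (f v).1 → (f y).1 = (f v).1 →
      False := by
    intro x y hx hy hxy h1 h2
    have h4 : (f x).2 ≠ (f y).2 := fun h => hxy (hf (Prod.ext (h1.trans h2.symm) h))
    have h5 : nb (gadB φ M α) (f x) (f y) := by
      have h6 := in_adj φ α (f v).1 h4
      have e1 : ((f v).1, (f x).2) = f x := Prod.ext h1.symm rfl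
      have e2 : ((f v).1, (f y).2) = f y := Prod.ext h2.symm rfl
      rwa [e1, e2] at h6
    exact no_triangle hA hx hy ((hadj x y hxy).2 h5)
  by_cases h1 : (f a).1 = (f v).1
  · by_cases h2 : (f b).1 = (f v).1
    · exact fin a b ha hb hab h1 h2
    · exact fin a c ha hc hac h1 (key b c hb hc hbc h2)
  · exact fin b c hb hc hbc (key a b ha hb hab h1) (key a c ha hc hac h1)

end Pool.Agent.Work.MP_63853a_lc.HF
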