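import Pool.Agent.Work.MP_63853a_lc.HF.Defs

set_option autoImplicit false

/-!
# ParB (size M-L)

`q = (x - 1) * (y - 1)`, `β M = exp (-((M - 1) log y / 2))` decays exponentially. Choose `M = 2 E + 1 + n` with `n` such that
`M * β M * (v + 1) * q ≤ δ / 4`: as `exp (-t) ≤ 6 / t ^ 3` (`t > 0`), `M * β M ≤ C1 / M ^ 2 * M`, more simply `β M ≤ C1 / M ^ 2` for all
`M ≥ 2` with a constant `C1 = C1 (y)`, so `M * β M ≤ C1 / M` and `M ≥ 4 C1 (v + 1) q / δ` suffices: take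
`M = 2 E + 2 + ⌈4 * C1 * (v + 1) * q / δ⌉₊`. Then with `t = M β`: `(1 + β) ^ (M - 1) ≤ exp t ≤ 1 + 2 t ≤ 2` (`t ≤ 1 / 4`),
`(2 - (1 + β) ^ (M - 1)) ^ v ≥ (1 - 2 t) ^ v ≥ 1 - 2 t v ≥ 1 - δ` (Bernoulli), `(1 + (q - 1) β) ^ ((M - 1) v) ≤ exp (q t v) ≤ 1 + 2 q t v ≤ 1 + δ`.
Size: `M ≤ C2 * (v + E + 1) / δ`, so `v M + v M ^ 2 + E ≤ C3 * ((v + E + 1) / δ) ^ 3`.
-/

namespace Pool.Agent.Work.MP_63853a_lc.HF

open Finset Pool.Agent.Work.MP_63853a_lc Pool.Agent.Work.MP_63853a_lc.Tr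

private theorem pb_exp_le {t : ℝ} (h0 : 0 ≤ t) (h1 : t ≤ 1 / 4) : Real.exp t ≤ 1 + 2 * t := by
  have h2 : 1 - t ≤ Real.exp (-t) := Real.one_sub_le_exp_neg t
  rw [Real.exp_neg] at h2
  have h3 : 0 < Real.exp t := Real.exp_pos t
  have h4 : (1 - t) * Real.exp t ≤ 1 := by
    have := mul_le_mul_of_nonneg_right h2 h3.le
    rwa [inv_mul_cancel₀ h3.ne'] at this
  have h5 : 1 ≤ (1 + 2 * t) * (1 - t) := by nlinarith
  by_contra hc
  have hc' := not_le.1 hc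
  have h6 : (1 + 2 * t) * (1 - t) < Real.exp t * (1 - t) :=
    mul_lt_mul_of_pos_right hc' (by linarith)
  linarith

private theorem pb_pow_le {b : ℝ} (hb : 0 ≤ b) (n : ℕ) : (1 + b) ^ n ≤ Real.exp (n * b) := by
  rw [Real.exp_nat_mul]
  refine pow_le_pow_left₀ (by linarith) ?_ n
  have := Real.add_one_le_exp b
  linarith

private theorem pb_beta {a M : ℝ} (ha : 0 < a) (hM : 2 ≤ M) :
    M * Real.exp (-((M - 1) * a)) ≤ (8 / a ^ 2) / M := by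
  have hM0 : 0 < M := by linarith
  have hs : 0 ≤ M * a / 2 := by positivity
  have h1 : (M * a / 2) ^ 2 / 2 ≤ Real.exp (M * a / 2) := by
    have := Real.quadratic_le_exp_of_nonneg hs
    linarith
  have h2 : Real.exp (-((M - 1) * a)) ≤ Real.exp (-(M * a / 2)) := by
    apply Real.exp_le_exp.2
    nlinarith
  have h3 : Real.exp (-(M * a / 2)) ≤ 8 / (M * a) ^ 2 := by
    rw [Real.exp_neg, inv_eq_one_div, div_le_div_iff₀ (Real.exp_pos _) (by positivity)]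
    nlinarith
  calc M * Real.exp (-((M - 1) * a)) ≤ M * (8 / (M * a) ^ 2) :=
        mul_le_mul_of_nonneg_left (h2.trans h3) hM0.le
    _ = (8 / a ^ 2) / M := by
        field_simp

theorem par_b {x y : ℝ} (hx : 1 < x) (hy : 1 < y) (hq : 1 ≤ (x - 1) * (y - 1)) :
    ∃ C : ℕ, ∀ (v E : ℕ) (δ : ℝ), 0 < δ → δ ≤ 1 → ∃ M : ℕ, 1 ≤ M ∧ 2 * E ≤ M ∧
      ((v * M + (v * (M * M) + E) : ℕ) : ℝ) ≤ C * ((v + E + 1 : ℕ) / δ) ^ C ∧
      (1 + Real.exp (-(((M : ℝ) - 1) * Real.log y / 2))) ^ (M - 1) ≤ 2 ∧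
      1 - δ ≤ (2 - (1 + Real.exp (-(((M : ℝ) - 1) * Real.log y / 2))) ^ (M - 1)) ^ v ∧
      (1 + ((x - 1) * (y - 1) - 1) * Real.exp (-(((M : ℝ) - 1) * Real.log y / 2))) ^ ((M - 1) * v) ≤ 1 + δ := by
  obtain ⟨q, hqe⟩ : ∃ q, q = (x - 1) * (y - 1) := ⟨_, rfl⟩
  rw [← hqe] at hq ⊢
  have hl : 0 < Real.log y := Real.log_pos hy
  obtain ⟨a, hae⟩ : ∃ a, a = Real.log y / 2 := ⟨_, rfl⟩
  have ha : 0 < a := by
    rw [hae]
    linarith
  obtain ⟨C1, hC1e⟩ : ∃ C1, C1 = 8 / a ^ 2 := ⟨_, rfl⟩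
  have hC1 : 0 < C1 := by
    rw [hC1e]
    positivity
  obtain ⟨C2, hC2e⟩ : ∃ C2, C2 = 3 + 4 * C1 * q := ⟨_, rfl⟩
  have hC1q : 0 < C1 * q := mul_pos hC1 (by linarith)
  have hC2 : 3 < C2 := by
    rw [hC2e]
    nlinarith
  refine ⟨max 3 ⌈C2 + C2 ^ 2 + 1⌉₊, ?_⟩
  intro v E δ hδ hδ1
  have hv0 : (0 : ℝ) ≤ v := Nat.cast_nonneg v
  have hE0 : (0 : ℝ) ≤ E := Nat.cast_nonneg E
  obtain ⟨n, hn⟩ : ∃ n, n = ⌈4 * C1 * (v + 1) * q / δ⌉₊ := ⟨_, rfl⟩
  have hn1 : 4 * C1 * (v + 1) * q / δ ≤ n := by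
    rw [hn]
    exact Nat.le_ceil _
  have hX0 : 0 ≤ 4 * C1 * (v + 1) * q / δ := by positivity
  have hn2 : (n : ℝ) ≤ 4 * C1 * (v + 1) * q / δ + 1 := by
    rw [hn]
    exact (Nat.ceil_lt_add_one hX0).le
  obtain ⟨M, hMe⟩ : ∃ M : ℕ, M = 2 * E + 2 + n := ⟨_, rfl⟩
  have hM2 : (2 : ℝ) ≤ M := by
    have : 2 ≤ M := by omega
    exact_mod_cast this
  have hM0 : (0 : ℝ) < M := by linarith
  have hMn : (n : ℝ) ≤ M := by
    have : n ≤ M := by omega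
    exact_mod_cast this
  obtain ⟨β, hβe⟩ : ∃ β, β = Real.exp (-(((M : ℝ) - 1) * Real.log y / 2)) := ⟨_, rfl⟩
  have hβ0 : 0 < β := by
    rw [hβe]
    exact Real.exp_pos _
  have hβa : β = Real.exp (-(((M : ℝ) - 1) * a)) := by
    rw [hβe, hae]
    congr 1
    ring
  have hMβ : M * β ≤ C1 / M := by
    rw [hβa, hC1e]
    exact pb_beta ha hM2
  have hv1 : (0 : ℝ) < v + 1 := by linarith
  have hq0 : 0 < q := by linarith
  have ht : M * β * (v + 1) * q ≤ δ / 4 := by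
    have h1 : C1 / M * ((v + 1) * q) ≤ δ / 4 := by
      have h2 : 4 * C1 * (v + 1) * q / δ ≤ M := hn1.trans hMn
      rw [div_le_iff₀ hδ] at h2
      rw [div_mul_eq_mul_div, div_le_div_iff₀ hM0 (by norm_num)]
      nlinarith
    have h2 := mul_le_mul_of_nonneg_right hMβ (by positivity : 0 ≤ (v + 1) * q)
    nlinarith
  obtain ⟨t, hte⟩ : ∃ t, t = M * β := ⟨_, rfl⟩
  rw [← hte] at ht
  have ht0 : 0 ≤ t := by
    rw [hte]
    positivity
  have htq : 0 ≤ t * q := by positivity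
  have htv : 0 ≤ t * v := by positivity
  have htvq : 0 ≤ t * v * q := by positivity
  have ht1 : t ≤ δ / 4 := by nlinarith
  have ht2 : t * v ≤ δ / 4 := by nlinarith
  have ht3 : q * t * v ≤ δ / 4 := by nlinarith
  have hM1 : (((M - 1 : ℕ) : ℕ) : ℝ) = M - 1 := by
    rw [Nat.cast_sub (by omega), Nat.cast_one]
  have hP : (1 + β) ^ (M - 1) ≤ 1 + 2 * t := by
    refine (pb_pow_le hβ0.le (M - 1)).trans ?_
    refine le_trans (Real.exp_le_exp.2 ?_) (pb_exp_le ht0 (by linarith))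
    rw [hM1, hte]
    nlinarith
  refine ⟨M, by omega, by omega, ?_, ?_, ?_, ?_⟩
  · -- the size
    obtain ⟨r, hre⟩ : ∃ r, r = ((v + E + 1 : ℕ) : ℝ) / δ := ⟨_, rfl⟩
    rw [← hre]
    have hr0 : (v : ℝ) + E + 1 ≤ r := by
      rw [hre, le_div_iff₀ hδ]
      push_cast
      nlinarith
    have hr1 : 1 ≤ r := by linarith
    have hMr : (M : ℝ) ≤ C2 * r := by
      have h1 : (M : ℝ) = 2 * E + 2 + n := by
        rw [hMe]
        push_cast
        ring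
      have h2 : 4 * C1 * (v + 1) * q / δ ≤ 4 * C1 * q * r := by
        rw [hre, ← mul_div_assoc]
        apply div_le_div_of_nonneg_right _ hδ.le
        push_cast
        nlinarith [mul_nonneg hC1q.le hE0]
      rw [h1, hC2e]
      nlinarith
    have hC2r : 0 ≤ C2 * r := by positivity
    have h3 : ((v * M + (v * (M * M) + E) : ℕ) : ℝ) ≤ (C2 + C2 ^ 2 + 1) * r ^ 3 := by
      push_cast
      have hvr : (v : ℝ) ≤ r := by linarith
      have hEr : (E : ℝ) ≤ r := by linarith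
      have e1 : (v : ℝ) * M ≤ r * (C2 * r) := mul_le_mul hvr hMr hM0.le (by linarith)
      have e2 : (v : ℝ) * (M * M) ≤ r * ((C2 * r) * (C2 * r)) :=
        mul_le_mul hvr (mul_le_mul hMr hMr hM0.le hC2r) (by positivity) (by linarith)
      have e3 : r ^ 2 ≤ r ^ 3 := pow_le_pow_right₀ hr1 (by norm_num)
      have e4 : r ≤ r ^ 3 := by
        calc r = r ^ 1 := (pow_one r).symm
          _ ≤ r ^ 3 := pow_le_pow_right₀ hr1 (by norm_num)
      have e5 : r * (C2 * r) ≤ C2 * r ^ 3 := by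
        have := mul_le_mul_of_nonneg_left e3 (by linarith : 0 ≤ C2)
        nlinarith
      nlinarith
    refine h3.trans ?_
    have h4 : C2 + C2 ^ 2 + 1 ≤ ((max 3 ⌈C2 + C2 ^ 2 + 1⌉₊ : ℕ) : ℝ) := by
      refine (Nat.le_ceil _).trans ?_
      exact Nat.cast_le.2 (le_max_right _ _)
    refine mul_le_mul h4 (pow_le_pow_right₀ hr1 (le_max_left _ _)) (by positivity) ?_
    exact Nat.cast_nonneg _
  · rw [← hβe]
    linarith
  · rw [← hβe]
    have h1 : 1 - 2 * t ≤ 2 - (1 + β) ^ (M - 1) := by linarith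
    have h2 : (1 - 2 * t) ^ v ≤ (2 - (1 + β) ^ (M - 1)) ^ v :=
      pow_le_pow_left₀ (by linarith) h1 v
    have h3 := one_add_mul_le_pow (by linarith : (-2 : ℝ) ≤ -(2 * t)) v
    have h4 : 1 + (v : ℝ) * -(2 * t) ≤ (1 - 2 * t) ^ v := by
      rw [sub_eq_add_neg]
      exact h3
    nlinarith
  · rw [← hβe]
    have h0 : 0 ≤ (q - 1) * β := mul_nonneg (by linarith) hβ0.le
    refine (pb_pow_le h0 _).trans ?_
    have h1 : (((M - 1) * v : ℕ) : ℝ) * ((q - 1) * β) ≤ q * t * v := by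
      rw [Nat.cast_mul, hM1, hte]
      have e1 : ((M : ℝ) - 1) * v * ((q - 1) * β) ≤ (M : ℝ) * v * ((q - 1) * β) := by
        apply mul_le_mul_of_nonneg_right _ h0
        nlinarith
      have e2 : 0 ≤ (M : ℝ) * v * β := by positivity
      nlinarith
    have h2 : 0 ≤ q * t * v := by positivity
    have h3 := pb_exp_le h2 (by linarith)
    have h4 := Real.exp_le_exp.2 h1
    linarith

end Pool.Agent.Work.MP_63853a_lc.HF
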