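import Pool.Agent.Work.MP_63853a_lc.HF.Basic

set_option autoImplicit false

/-!
# SimB (size S-M)

No loops: `p.1 < p.2` in a clique, `(φ e).1 ≠ (φ e).2` for the other edges. No parallel edges: two clique edges with the same ends
have the same `v` and the same pair (the order is fixed by `<`); a clique edge and an edge `inr e` differ (the ends of `inr e`
are in different cliques); `inr e` and `inr e'`: the number `α (inl e)` of an end determines `e` (`hα`).
-/

namespace Pool.Agent.Work.MP_63853a_lc.HF

open Finset Pool.Agent.Work.MP_63853a_lc Pool.Agent.Work.MP_63853a_lc.Tr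

theorem simp_b {V E : Type} (φ : E → V × V) {M : ℕ} (α : E ⊕ E → Fin M) (hα : Function.Injective α) :
    Simp (gadB φ M α) := by
  constructor
  · rintro (⟨v, ⟨⟨i, j⟩, h⟩⟩ | ⟨e, he⟩) hc
    · have h1 : i = j := congrArg Prod.snd hc
      subst h1
      exact absurd h (lt_irrefl _)
    · exact he (congrArg Prod.fst hc)
  · rintro (⟨v, ⟨⟨i, j⟩, h⟩⟩ | ⟨e, he⟩) (⟨v', ⟨⟨i', j'⟩, h'⟩⟩ | ⟨e', he'⟩) hc
    · rcases hc with hc | hc
      · have h1 : v = v' := congrArg (fun p => p.1.1) hc
        have h2 : i = i' := congrArg (fun p => p.1.2) hc
        have h3 : j = j' := congrArg (fun p => p.2.2) hc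
        subst h1
        subst h2
        subst h3
        rfl
      · have h2 : i = j' := congrArg (fun p => p.1.2) hc
        have h3 : j = i' := congrArg (fun p => p.2.2) hc
        subst h2
        subst h3
        exact absurd h (lt_asymm h')
    · exfalso
      rcases hc with hc | hc
      · have h1 : v = (φ e').1 := congrArg (fun p => p.1.1) hc
        have h2 : v = (φ e').2 := congrArg (fun p => p.2.1) hc
        exact he' (h1.symm.trans h2)
      · have h1 : v = (φ e').2 := congrArg (fun p => p.1.1) hc
        have h2 : v = (φ e').1 := congrArg (fun p => p.2.1) hc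
        exact he' (h2.symm.trans h1)
    · exfalso
      rcases hc with hc | hc
      · have h1 : (φ e).1 = v' := congrArg (fun p => p.1.1) hc
        have h2 : (φ e).2 = v' := congrArg (fun p => p.2.1) hc
        exact he (h1.trans h2.symm)
      · have h1 : (φ e).1 = v' := congrArg (fun p => p.1.1) hc
        have h2 : (φ e).2 = v' := congrArg (fun p => p.2.1) hc
        exact he (h1.trans h2.symm)
    · rcases hc with hc | hc
      · have h1 : α (.inl e) = α (.inl e') := congrArg (fun p => p.1.2) hc
        have h2 := hα h1
        have h3 : e = e' := Sum.inl.inj h2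
        subst h3
        rfl
      · exfalso
        have h1 : α (.inl e) = α (.inr e') := congrArg (fun p => p.1.2) hc
        exact absurd (hα h1) (by intro h; cases h)

end Pool.Agent.Work.MP_63853a_lc.HF
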