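import Pool.Agent.Work.MP_63853a_lc.HF.ScB1
import Pool.Agent.Work.MP_63853a_lc.HF.ParB
import Pool.Agent.Work.MP_63853a_lc.HF.FreeB
import Pool.Agent.Work.MP_63853a_lc.HF.SimB

set_option autoImplicit false

/-!
# PartIII (size S-M)

`par_b` with `v = card V`, `E = card E`; an injective `α : E ⊕ E → Fin M` exists as `card (E ⊕ E) = 2 card E ≤ M`
(`Function.Embedding.nonempty_of_card_le`). `card (V × Fin M) = card V * M`, `card (EB φ M) = card V * card (Prs M) + card (NL φ) ≤
card V * (M * M) + card E`. `scB_bounds`: `(1 - δ) T ≤ s T' ≤ (1 + δ) T`, `T > 0` (`tutte_pos`).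
-/

namespace Pool.Agent.Work.MP_63853a_lc.HF

open Finset Pool.Agent.Work.MP_63853a_lc Pool.Agent.Work.MP_63853a_lc.Tr

theorem part_three (x y : ℝ) (hx : 1 < x) (hy : 1 < y) (hq : 1 ≤ (x - 1) * (y - 1)) {h : ℕ}
    (H : SimpleGraph (Fin h)) (hA : H.IsAcyclic) (h3 : ∃ v, 3 ≤ (H.neighborSet v).ncard) :
    ∃ C : ℕ, ∀ (V E : Type) [Fintype V] [Fintype E] (φ : E → V × V) (δ : ℝ), 0 < δ → δ ≤ 1 →
      ∃ (M : ℕ) (α : E ⊕ E → Fin M), Function.Injective α ∧
        ((Fintype.card (V × Fin M) + Fintype.card (EB φ M) : ℕ) : ℝ) ≤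
          C * ((Fintype.card V + Fintype.card E + 1 : ℕ) / δ) ^ C ∧
        Simp (gadB φ M α) ∧ Free H (gadB φ M α) ∧
        |scB φ x y M α * tutte (gadB φ M α) x y - tutte φ x y| ≤ δ * tutte φ x y := by
  obtain ⟨C, hC⟩ := par_b hx hy hq
  refine ⟨C, ?_⟩
  intro V E _ _ φ δ hδ hδ1
  obtain ⟨M, hM1, hM2, hM3, hM4, hM5, hM6⟩ := hC (Fintype.card V) (Fintype.card E) δ hδ hδ1
  obtain ⟨α⟩ : Nonempty (E ⊕ E ↪ Fin M) := Function.Embedding.nonempty_of_card_le (by
    rw [Fintype.card_sum, Fintype.card_fin]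
    omega)
  refine ⟨M, α, α.injective, ?_, simp_b φ α α.injective, free_b H hA h3 φ α α.injective, ?_⟩
  · refine le_trans ?_ hM3
    have h1 : Fintype.card (Prs M) ≤ M * M := by
      have h := Fintype.card_le_of_injective (Subtype.val : Prs M → Fin M × Fin M)
        Subtype.val_injective
      rwa [Fintype.card_prod, Fintype.card_fin] at h
    have h2 : Fintype.card (NL φ) ≤ Fintype.card E :=
      Fintype.card_le_of_injective (Subtype.val : NL φ → E) Subtype.val_injective
    have h3 : Fintype.card (V × Fin M) + Fintype.card (EB φ M) ≤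
        Fintype.card V * M + (Fintype.card V * (M * M) + Fintype.card E) := by
      rw [Fintype.card_prod, Fintype.card_fin, Fintype.card_sum, Fintype.card_prod]
      have h4 := Nat.mul_le_mul_left (Fintype.card V) h1
      omega
    exact_mod_cast h3
  · have hT := tutte_pos φ hx hy
    obtain ⟨h1, h2⟩ := scB_bounds φ hx hy hq hM1 α rfl hM4
    have h4 := mul_le_mul_of_nonneg_right hM5 hT.le
    have h5 := mul_le_mul_of_nonneg_right hM6 hT.le
    rw [abs_le]
    constructor
    · linarith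
    · linarith

end Pool.Agent.Work.MP_63853a_lc.HF
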