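import Pool.Agent.Work.MP_63853a_lc.HF.Basic

set_option autoImplicit false

/-!
# ShG (size M)

Let `Jn (adj φ) U u v`. Let `G : SimpleGraph V` with `G.Adj a b := adj φ a b ∧ a ∈ U ∧ b ∈ U`. `G.Reachable u v` (induction along
the path). Take a walk `p` of length `r = G.dist u v` (`SimpleGraph.Reachable.exists_walk_length_eq_dist`) and
`g i = p.getVert i`, `i ≤ r`. `G.dist u (g i) = i` for `i ≤ r` (`≤ i` by the walk `p.take i`, and
`r = dist u v ≤ dist u (g i) + (r - i)` by `p.drop i`). So `g` is injective on `i ≤ r`, and `G.Adj (g i) (g j)` implies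
`|i - j| ≤ 1` (distances of adjacent vertices from `u` differ by at most one); `G.Adj (g i) (g (i + 1))` (`Walk.adj_getVert_succ`).
All `g i` are in `U` (if `r ≥ 1` every vertex of the walk is an end of an edge of `G`; if `r = 0` it is `u ∈ U`).
If `s ≤ r` then `f i = g i` (`i : Fin (s + 1)`) contradicts `h` (for `i ≠ j`: `nb φ (f i) (f j)` together with `f i ≠ f j` and
`f i, f j ∈ U` is `G.Adj (f i) (f j)`). So `r < s` and `P = (range (r + 1)).image g` has at most `r + 1 ≤ s` elements, `P ⊆ U`,
`Jn (adj φ) P u v` along the walk.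
-/

namespace Pool.Agent.Work.MP_63853a_lc.HF

open Finset Pool.Agent.Work.MP_63853a_lc Pool.Agent.Work.MP_63853a_lc.Tr

theorem short_of_noip {V E : Type} [Fintype V] (φ : E → V × V) {s : ℕ}
    (h : ¬ ∃ f : Fin (s + 1) → V, Function.Injective f ∧
      ∀ i j, i ≠ j → (nb φ (f i) (f j) ↔ (i : ℕ) + 1 = j ∨ (j : ℕ) + 1 = i)) : Short (adj φ) s := by
  classical
  intro U u v huv
  have nbs : ∀ a b, nb φ a b → nb φ b a := by
    rintro a b ⟨e, he⟩
    exact ⟨e, he.symm⟩
  let G : SimpleGraph V :=
    { Adj := fun a b => adj φ a b ∧ a ∈ U ∧ b ∈ U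
      symm := ⟨fun a b hab => ⟨⟨hab.1.1.symm, nbs _ _ hab.1.2⟩, hab.2.2, hab.2.1⟩⟩
      loopless := ⟨fun a ha => ha.1.1 rfl⟩ }
  have hre : G.Reachable u v := by
    obtain ⟨h1, h2⟩ := huv
    have h3 : ∀ w, Relation.ReflTransGen (fun a b => adj φ a b ∧ b ∈ U) u w →
        w ∈ U ∧ G.Reachable u w := by
      intro w hw
      induction hw with
      | refl => exact ⟨h1, SimpleGraph.Reachable.refl u⟩
      | tail h4 h5 ih => exact ⟨h5.2, ih.2.trans (SimpleGraph.Adj.reachable ⟨h5.1, ih.1, h5.2⟩)⟩
    exact (h3 v h2).2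
  obtain ⟨p, hp⟩ := hre.exists_walk_length_eq_dist
  have hle : ∀ i, i ≤ p.length → G.dist u (p.getVert i) = i := by
    intro i hi
    apply le_antisymm
    · have h1 := SimpleGraph.dist_le (p.take i)
      rw [SimpleGraph.Walk.take_length, min_eq_left hi] at h1
      exact h1
    · obtain ⟨q, hq⟩ := (SimpleGraph.Walk.reachable (p.take i)).exists_walk_length_eq_dist
      have h1 := SimpleGraph.dist_le (q.append (p.drop i))
      rw [SimpleGraph.Walk.length_append, SimpleGraph.Walk.drop_length, hq, ← hp] at h1
      omega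
  have hadj : ∀ i j, i ≤ p.length → j ≤ p.length → G.Adj (p.getVert i) (p.getVert j) →
      j ≤ i + 1 := by
    intro i j hi hj hij
    obtain ⟨q, hq⟩ := (SimpleGraph.Walk.reachable (p.take i)).exists_walk_length_eq_dist
    have h1 := SimpleGraph.dist_le (q.concat hij)
    rw [SimpleGraph.Walk.length_concat, hq, hle i hi, hle j hj] at h1
    exact h1
  have hU : ∀ i, i ≤ p.length → p.getVert i ∈ U := by
    intro i hi
    rcases lt_or_eq_of_le hi with h1 | h1
    · exact (p.adj_getVert_succ h1).2.1
    · rcases Nat.eq_zero_or_pos i with h2 | h2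
      · rw [h2, SimpleGraph.Walk.getVert_zero]
        exact huv.1
      · have h3 := (p.adj_getVert_succ (i := i - 1) (by omega)).2.2
        rwa [Nat.sub_add_cancel h2] at h3
  have hlt : p.length < s := by
    by_contra hcon
    rw [not_lt] at hcon
    refine h ⟨fun i => p.getVert i, ?_, ?_⟩
    · intro i j hij
      have h1 := hle i (by omega)
      have h2 := hle j (by omega)
      have h3 : p.getVert (i : ℕ) = p.getVert (j : ℕ) := hij
      rw [h3, h2] at h1
      exact Fin.ext h1.symm
    · intro i j hij
      have hi : (i : ℕ) ≤ p.length := by omega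
      have hj : (j : ℕ) ≤ p.length := by omega
      have hij' : (i : ℕ) ≠ j := fun h4 => hij (Fin.ext h4)
      constructor
      · intro h1
        have hne : p.getVert (i : ℕ) ≠ p.getVert (j : ℕ) := by
          intro h4
          have h5 := hle i hi
          rw [h4, hle j hj] at h5
          exact hij' h5.symm
        have h2 := hadj i j hi hj ⟨⟨hne, h1⟩, hU i hi, hU j hj⟩
        have h3 := hadj j i hj hi ⟨⟨hne.symm, nbs _ _ h1⟩, hU j hj, hU i hi⟩
        omega
      · rintro (h1 | h1)
        · have h2 := p.adj_getVert_succ (i := (i : ℕ)) (by omega)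
          rw [h1] at h2
          exact h2.1.2
        · have h2 := p.adj_getVert_succ (i := (j : ℕ)) (by omega)
          rw [h1] at h2
          exact nbs _ _ h2.1.2
  refine ⟨(Finset.range (p.length + 1)).image p.getVert, ?_, ?_, ?_⟩
  · intro x hx
    obtain ⟨i, hi, rfl⟩ := Finset.mem_image.1 hx
    exact hU i (by have := Finset.mem_range.1 hi; omega)
  · exact Finset.card_image_le.trans (by rw [Finset.card_range]; omega)
  · have hm : ∀ i, i ≤ p.length → p.getVert i ∈ (Finset.range (p.length + 1)).image p.getVert :=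
      fun i hi => Finset.mem_image.2 ⟨i, Finset.mem_range.2 (by omega), rfl⟩
    have h1 : ∀ i, i ≤ p.length →
        Jn (adj φ) ((Finset.range (p.length + 1)).image p.getVert) u (p.getVert i) := by
      intro i
      induction i with
      | zero =>
        intro _
        rw [SimpleGraph.Walk.getVert_zero]
        have h2 := hm 0 (Nat.zero_le _)
        rw [SimpleGraph.Walk.getVert_zero] at h2
        exact jn_refl h2
      | succ i ih =>
        intro hi
        exact jn_step (ih (by omega)) (p.adj_getVert_succ (by omega)).1 (hm _ hi)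
    have h2 := h1 p.length (le_refl _)
    rwa [SimpleGraph.Walk.getVert_length] at h2

end Pool.Agent.Work.MP_63853a_lc.HF
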