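import Pool.Agent.Work.MP_63853a_lc.HF.SepM
import Pool.Agent.Work.MP_63853a_lc.HF.ShG

set_option autoImplicit false

/-!
# SepG (size M)

Part (iv) of the final theorem, for `SimpleGraph`s. `R = G.Adj`, symmetric. `Short G.Adj s`: as in `ShG` (whose theorem is for
multigraphs): apply `short_of_noip` to the multigraph `φ : G.edgeSet → V × V` (ends chosen by `Quot.out`) or to
`φ : {p : V × V // G.Adj p.1 p.2} → V × V`, `φ p = p`: then `nb φ u w ↔ G.Adj u w` and `adj φ u w ↔ G.Adj u w`; an induced path
`f : Fin (s + 1) → V` gives an embedding `SimpleGraph.pathGraph (s + 1) ↪g G` (`SimpleGraph.pathGraph_adj`).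
`Dens G.Adj d`: the ordered adjacent pairs in `S` are the darts of `G.induce S`, their number is twice the number of edges
(`SimpleGraph.dart_card_eq_twice_card_edges`, or map `p` to `s(p.1, p.2)`, at most two pairs for every edge).
`s ≥ 1`: if `s = 0` then `pathGraph 1` embeds as soon as `V` is not empty; for `V` empty take `X = ∅` (the sets `D` are empty and
the sums are `0`). `Bal` to the statement: if `G.induce D` is connected and `D` is disjoint from `X`, then `D ⊆ comp G.Adj (univ \ X) u`
for every `u ∈ D` (walks in `G.induce D` give `Jn`), so `3 * ∑ D ≤ 3 * ∑ comp ≤ 2 * ∑ univ`.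
-/

namespace Pool.Agent.Work.MP_63853a_lc.HF

open Finset Pool.Agent.Work.MP_63853a_lc Pool.Agent.Work.MP_63853a_lc.Tr

private theorem jn_of_walk {V : Type} (G : SimpleGraph V) (D : Finset V) :
    ∀ {a b : ((D : Set V) : Type)}, (G.induce (D : Set V)).Walk a b → Jn G.Adj D a.1 b.1 := by
  intro a b p
  induction p with
  | nil => exact jn_refl (Finset.mem_coe.1 (Subtype.property _))
  | @cons u v w hadj q ih =>
    exact jn_trans (jn_step (jn_refl (Finset.mem_coe.1 u.2)) hadj (Finset.mem_coe.1 v.2)) ih

theorem sep_graph {V : Type} [Fintype V] (G : SimpleGraph V) {s d : ℕ}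
    (h : ¬ Nonempty (SimpleGraph.pathGraph (s + 1) ↪g G))
    (hd : ∀ S : Finset V, (G.induce (S : Set V)).edgeSet.ncard ≤ d * S.card) (μ : V → ℝ) (hμ : ∀ v, 0 ≤ μ v) :
    ∃ X : Finset V, X.card ≤ 4096 * s ^ 4 * d + 32 * s ^ 2 ∧ ∀ D : Finset V, Disjoint D X →
      (G.induce (D : Set V)).Connected → 3 * ∑ v ∈ D, μ v ≤ 2 * ∑ v, μ v := by
  classical
  rcases isEmpty_or_nonempty V with hV | hV
  · refine ⟨∅, by simp, fun D _ _ => ?_⟩
    have hD : D = ∅ := Finset.eq_empty_of_isEmpty D
    rw [hD, Finset.univ_eq_empty]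
    simp
  · obtain ⟨v0⟩ := hV
    have hs : 1 ≤ s := by
      by_contra hc
      have hs0 : s = 0 := by omega
      subst hs0
      refine h ⟨⟨⟨fun _ => v0, fun a b _ => Subsingleton.elim (α := Fin 1) a b⟩, ?_⟩⟩
      intro a b
      have hab : a = b := Subsingleton.elim (α := Fin 1) a b
      subst hab
      simp
    set φ : {p : V × V // G.Adj p.1 p.2} → V × V := Subtype.val with hφ
    have hnb : ∀ u w, nb φ u w ↔ G.Adj u w := by
      intro u w
      constructor
      · rintro ⟨⟨p, hp⟩, h1 | h1⟩
        · have h2 : p = (u, w) := h1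
          rw [h2] at hp
          exact hp
        · have h2 : p = (w, u) := h1
          rw [h2] at hp
          exact hp.symm
      · intro h1
        exact ⟨⟨(u, w), h1⟩, Or.inl rfl⟩
    have hadj : adj φ = G.Adj := by
      funext u w
      apply propext
      constructor
      · rintro ⟨-, h1⟩
        exact (hnb u w).1 h1
      · intro h1
        exact ⟨h1.ne, (hnb u w).2 h1⟩
    have hshort : Short G.Adj s := by
      rw [← hadj]
      refine short_of_noip φ ?_
      rintro ⟨f, hf, hf'⟩
      refine h ⟨⟨⟨f, hf⟩, ?_⟩⟩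
      intro a b
      change G.Adj (f a) (f b) ↔ _
      rw [SimpleGraph.pathGraph_adj]
      by_cases hab : a = b
      · subst hab
        constructor
        · intro h1
          exact absurd h1 (G.loopless.irrefl _)
        · intro h1
          omega
      · rw [← hnb, hf' a b hab]
    have hdens : Dens G.Adj d := by
      intro S
      have key : ∀ T : Finset (V × V), (∀ p ∈ T, p.1 ∈ S ∧ p.2 ∈ S ∧ G.Adj p.1 p.2) →
          T.card ≤ 2 * d * S.card := by
        intro T hT
        have h1 : Fintype.card (T : Type) ≤ Fintype.card (G.induce (S : Set V)).Dart := by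
          refine Fintype.card_le_of_injective (fun p : (T : Type) =>
            (⟨(⟨p.1.1, Finset.mem_coe.2 (hT p.1 p.2).1⟩, ⟨p.1.2, Finset.mem_coe.2 (hT p.1 p.2).2.1⟩),
              (hT p.1 p.2).2.2⟩ : (G.induce (S : Set V)).Dart)) ?_
          intro p q hpq
          have h2 := congrArg (fun x : (G.induce (S : Set V)).Dart => x.toProd) hpq
          have h3 := congrArg (fun x => (x.1.1, x.2.1)) h2
          have h4 : (p.1.1, p.1.2) = (q.1.1, q.1.2) := h3
          exact Subtype.ext h4
        rw [Fintype.card_coe, SimpleGraph.dart_card_eq_twice_card_edges] at h1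
        have h5 : (G.induce (S : Set V)).edgeFinset.card =
            (G.induce (S : Set V)).edgeSet.ncard := by
          rw [Set.ncard_eq_toFinset_card', SimpleGraph.edgeFinset]
        have h6 := hd S
        rw [h5] at h1
        calc T.card ≤ 2 * (G.induce (S : Set V)).edgeSet.ncard := h1
          _ ≤ 2 * (d * S.card) := Nat.mul_le_mul_left 2 h6
          _ = 2 * d * S.card := by ring
      apply key
      intro p hp
      rw [Finset.mem_filter, Finset.mem_product] at hp
      exact ⟨hp.1.1, hp.1.2, hp.2⟩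
    obtain ⟨X, hX, hB⟩ := sep_main (R := G.Adj) (fun a b hab => hab.symm) hs hshort hdens hμ
    refine ⟨X, hX, fun D hDX hconn => ?_⟩
    obtain ⟨u⟩ := hconn.nonempty
    have hsub : D ⊆ comp G.Adj (Finset.univ \ X) u.1 := by
      intro v hv
      obtain ⟨p⟩ := hconn.preconnected u ⟨v, Finset.mem_coe.2 hv⟩
      refine mem_comp.2 (jn_mono ?_ (jn_of_walk G D p))
      intro w hw
      exact Finset.mem_sdiff.2 ⟨Finset.mem_univ _, Finset.disjoint_left.1 hDX hw⟩
    have h7 : ∑ v ∈ D, μ v ≤ ∑ v ∈ comp G.Adj (Finset.univ \ X) u.1, μ v :=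
      Finset.sum_le_sum_of_subset_of_nonneg hsub fun v _ _ => hμ v
    have h8 := hB u.1
    calc 3 * ∑ v ∈ D, μ v ≤ 3 * ∑ v ∈ comp G.Adj (Finset.univ \ X) u.1, μ v := by linarith
      _ ≤ 2 * ∑ v, μ v := h8

end Pool.Agent.Work.MP_63853a_lc.HF
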