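import Pool.Agent.Work.MP_63853a_lc.HF.Defs

set_option autoImplicit false

/-!
# LinF (size M)

A linear forest is an induced subgraph of a path. Prove for every finite type `W` (or for subsets `W` of `Fin h`, induction on
the number of elements): `∃ f : W → ℕ` injective, `f v < 2 * card W`, `H.Adj a b ↔ f a + 1 = f b ∨ f b + 1 = f a` for `a ≠ b`.
Step: a nonempty finite acyclic graph has a vertex `v` with at most one neighbour in `W` (otherwise there is a cycle: for example
`SimpleGraph.IsAcyclic` and the last vertex of a longest path, or Mathlib: a forest with an edge has a leaf,
`SimpleGraph.IsTree.exists_vert_degree_one_of_nontrivial` for a component; or count edges: `IsAcyclic` implies fewer edges than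
vertices, so the degree sum is less than `2 card W`). Remove `v`, get `f` for `W - v`. If `v` has no neighbour in `W`:
`f v = 2 * (card W - 1) + 1` and the others are unchanged (values at most `2 (card W - 1) - 1`, so no new adjacency). If `v` has the
one neighbour `u`: `u` has at most one neighbour in `W - v` (degree at most 2), so one of `f u - 1`, `f u + 1` is not the value of
a neighbour, hence not a value at all. Case `f u + 1` is not a value: `f' v = f u + 1`, `f' w = f w + 2` if `f w > f u`, `f' w = f w` if
`f w ≤ f u`: the pairs on different sides of `f u` had distance at least `2` before. Case `f u + 1` is a value (so `f u - 1` is not, or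
`f u = 0`): `f' w = f w + 2` if `f w ≥ f u`, `f' w = f w` if `f w < f u` and `f' v = f u + 1` (so `f' u = f u + 2`; the values below `f u`
are at most `f u - 2`). All values are less than `2 card W`.
-/

namespace Pool.Agent.Work.MP_63853a_lc.HF

open Finset Pool.Agent.Work.MP_63853a_lc Pool.Agent.Work.MP_63853a_lc.Tr

private theorem lf_leaf {h : ℕ} (H : SimpleGraph (Fin h)) (hA : H.IsAcyclic) (W : Finset (Fin h))
    (hW : W.Nonempty) : ∃ v ∈ W, ∀ a ∈ W, ∀ b ∈ W, H.Adj v a → H.Adj v b → a = b := by
  by_contra hcon
  push Not at hcon
  have key : ∀ n : ℕ, ∃ u ∈ W, ∃ (v : Fin h) (p : H.Walk u v), p.IsPath ∧ p.length = n := by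
    intro n
    induction n with
    | zero =>
      obtain ⟨u, hu⟩ := hW
      exact ⟨u, hu, u, SimpleGraph.Walk.nil, SimpleGraph.Walk.IsPath.nil, rfl⟩
    | succ n ih =>
      obtain ⟨u, hu, v, p, hp, hn⟩ := ih
      obtain ⟨a, ha, b, hb, h1, h2, hab⟩ := hcon u hu
      have h3 : ∃ w ∈ W, H.Adj u w ∧ w ∉ p.support := by
        by_contra h4
        push Not at h4
        have h5 := hA.eq_snd_of_adj_start hp h1 (h4 a ha h1)
        have h6 := hA.eq_snd_of_adj_start hp h2 (h4 b hb h2)
        exact hab (h5.trans h6.symm)
      obtain ⟨w, hw, h4, h5⟩ := h3
      exact ⟨w, hw, v, SimpleGraph.Walk.cons h4.symm p, hp.cons h5, by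
        rw [SimpleGraph.Walk.length_cons, hn]⟩
  obtain ⟨u, -, v, p, hp, hn⟩ := key (Fintype.card (Fin h))
  have := hp.length_lt
  omega

private theorem lf_main {h : ℕ} (H : SimpleGraph (Fin h)) (hA : H.IsAcyclic)
    (h2 : ∀ v, (H.neighborSet v).ncard ≤ 2) (n : ℕ) : ∀ W : Finset (Fin h), W.card = n →
    ∃ f : Fin h → ℕ, (∀ a ∈ W, ∀ b ∈ W, f a = f b → a = b) ∧ (∀ v ∈ W, f v < 2 * n) ∧
      ∀ a ∈ W, ∀ b ∈ W, a ≠ b → (H.Adj a b ↔ f a + 1 = f b ∨ f b + 1 = f a) := by
  induction n with
  | zero =>
    intro W hW
    have h3 := Finset.card_eq_zero.1 hW
    subst h3
    exact ⟨fun _ => 0, fun a ha => absurd ha (Finset.notMem_empty a),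
      fun a ha => absurd ha (Finset.notMem_empty a), fun a ha => absurd ha (Finset.notMem_empty a)⟩
  | succ n ih =>
    intro W hW
    obtain ⟨v, hv, hleaf⟩ := lf_leaf H hA W (Finset.card_pos.1 (by omega))
    obtain ⟨f, f1, f2, f3⟩ := ih (W.erase v) (by rw [Finset.card_erase_of_mem hv, hW]; rfl)
    have hmem : ∀ {a}, a ∈ W → a ≠ v → a ∈ W.erase v := fun ha h4 => Finset.mem_erase.2 ⟨h4, ha⟩
    by_cases hu : ∃ u ∈ W.erase v, H.Adj v u
    · obtain ⟨u, hu, huv⟩ := hu
      obtain ⟨hu1, hu2⟩ := Finset.mem_erase.1 hu
      have hadj : ∀ a ∈ W, H.Adj v a ↔ a = u := fun a ha =>
        ⟨fun h4 => hleaf a ha u hu2 h4 huv, fun h4 => h4 ▸ huv⟩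
      by_cases hb : ∃ b ∈ W.erase v, f b = f u + 1
      · obtain ⟨b, hb, hfb⟩ := hb
        obtain ⟨hb1, hb2⟩ := Finset.mem_erase.1 hb
        have hbu : b ≠ u := by
          rintro rfl
          omega
        have hno : ∀ c ∈ W.erase v, f c + 1 ≠ f u := by
          intro c hc hfc
          obtain ⟨hc1, hc2⟩ := Finset.mem_erase.1 hc
          have hcu : c ≠ u := by
            rintro rfl
            omega
          have hcb : c ≠ b := by
            rintro rfl
            omega
          have e1 : H.Adj u b := (f3 u hu b hb hbu.symm).2 (Or.inl hfb.symm)
          have e2 : H.Adj u c := (f3 u hu c hc hcu.symm).2 (Or.inr hfc)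
          have e3 : ((({v, b, c} : Finset (Fin h)) : Set (Fin h))) ⊆ H.neighborSet u := by
            intro x hx
            simp only [Finset.coe_insert, Finset.coe_singleton, Set.mem_insert_iff,
              Set.mem_singleton_iff] at hx
            rcases hx with rfl | rfl | rfl
            · exact huv.symm
            · exact e1
            · exact e2
          have e4 := Set.ncard_le_ncard e3 (Set.toFinite _)
          rw [Set.ncard_coe_finset, Finset.card_eq_three.2
            ⟨v, b, c, hb1.symm, hc1.symm, hcb.symm, rfl⟩] at e4
          have := h2 u
          omega
        refine ⟨fun a => if a = v then f u + 1 else if f u ≤ f a then f a + 2 else f a, ?_, ?_, ?_⟩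
        · intro a ha b hb hab
          by_cases ea : a = v
          · by_cases eb : b = v
            · rw [ea, eb]
            · exfalso
              have := hno b (hmem hb eb)
              simp only [ea, if_true, if_neg eb] at hab
              split_ifs at hab <;> omega
          · by_cases eb : b = v
            · exfalso
              have := hno a (hmem ha ea)
              simp only [eb, if_true, if_neg ea] at hab
              split_ifs at hab <;> omega
            · simp only [if_neg ea, if_neg eb] at hab
              refine f1 a (hmem ha ea) b (hmem hb eb) ?_
              split_ifs at hab <;> omega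
        · intro a ha
          by_cases ea : a = v
          · simp only [ea, if_true]
            have := f2 u hu
            omega
          · simp only [if_neg ea]
            have := f2 a (hmem ha ea)
            split_ifs <;> omega
        · have key : ∀ a ∈ W, a ≠ v → (H.Adj v a ↔ f u + 1 + 1 =
              (if f u ≤ f a then f a + 2 else f a) ∨
              (if f u ≤ f a then f a + 2 else f a) + 1 = f u + 1) := by
            intro a ha ea
            rw [hadj a ha]
            constructor
            · rintro rfl
              left
              rw [if_pos (le_refl _)]
            · intro h4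
              have h5 := hno a (hmem ha ea)
              refine f1 a (hmem ha ea) u hu ?_
              split_ifs at h4 <;> omega
          intro a ha c hc hac
          by_cases ea : a = v
          · subst ea
            have eb : c ≠ a := hac.symm
            simp only [if_true, if_neg eb]
            exact key c hc eb
          · by_cases eb : c = v
            · subst eb
              simp only [if_true, if_neg ea]
              rw [H.adj_comm, key a ha ea, or_comm]
            · simp only [if_neg ea, if_neg eb]
              rw [f3 a (hmem ha ea) c (hmem hc eb) hac]
              have h5 := hno a (hmem ha ea)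
              have h6 := hno c (hmem hc eb)
              split_ifs <;> omega
      · push Not at hb
        refine ⟨fun a => if a = v then f u + 1 else if f u < f a then f a + 2 else f a, ?_, ?_, ?_⟩
        · intro a ha b hb' hab
          by_cases ea : a = v
          · by_cases eb : b = v
            · rw [ea, eb]
            · exfalso
              have := hb b (hmem hb' eb)
              simp only [ea, if_true, if_neg eb] at hab
              split_ifs at hab <;> omega
          · by_cases eb : b = v
            · exfalso
              have := hb a (hmem ha ea)
              simp only [eb, if_true, if_neg ea] at hab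
              split_ifs at hab <;> omega
            · simp only [if_neg ea, if_neg eb] at hab
              refine f1 a (hmem ha ea) b (hmem hb' eb) ?_
              split_ifs at hab <;> omega
        · intro a ha
          by_cases ea : a = v
          · simp only [ea, if_true]
            have := f2 u hu
            omega
          · simp only [if_neg ea]
            have := f2 a (hmem ha ea)
            split_ifs <;> omega
        · have key : ∀ a ∈ W, a ≠ v → (H.Adj v a ↔ f u + 1 + 1 =
              (if f u < f a then f a + 2 else f a) ∨
              (if f u < f a then f a + 2 else f a) + 1 = f u + 1) := by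
            intro a ha ea
            rw [hadj a ha]
            constructor
            · rintro rfl
              right
              rw [if_neg (lt_irrefl _)]
            · intro h4
              have h5 := hb a (hmem ha ea)
              refine f1 a (hmem ha ea) u hu ?_
              split_ifs at h4 <;> omega
          intro a ha b hb' hab
          by_cases ea : a = v
          · subst ea
            have eb : b ≠ a := hab.symm
            simp only [if_true, if_neg eb]
            exact key b hb' eb
          · by_cases eb : b = v
            · subst eb
              simp only [if_true, if_neg ea]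
              rw [H.adj_comm, key a ha ea, or_comm]
            · simp only [if_neg ea, if_neg eb]
              rw [f3 a (hmem ha ea) b (hmem hb' eb) hab]
              have h5 := hb a (hmem ha ea)
              have h6 := hb b (hmem hb' eb)
              split_ifs <;> omega
    · push Not at hu
      refine ⟨fun a => if a = v then 2 * n + 1 else f a, ?_, ?_, ?_⟩
      · intro a ha b hb hab
        by_cases ea : a = v
        · by_cases eb : b = v
          · rw [ea, eb]
          · exfalso
            have := f2 b (hmem hb eb)
            simp only [ea, if_true, if_neg eb] at hab
            omega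
        · by_cases eb : b = v
          · exfalso
            have := f2 a (hmem ha ea)
            simp only [eb, if_true, if_neg ea] at hab
            omega
          · simp only [if_neg ea, if_neg eb] at hab
            exact f1 a (hmem ha ea) b (hmem hb eb) hab
      · intro a ha
        by_cases ea : a = v
        · simp only [ea, if_true]
          omega
        · simp only [if_neg ea]
          have := f2 a (hmem ha ea)
          omega
      · intro a ha b hb hab
        by_cases ea : a = v
        · subst ea
          have eb : b ≠ a := hab.symm
          simp only [if_true, if_neg eb]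
          have h5 := f2 b (hmem hb eb)
          exact ⟨fun h6 => absurd h6 (hu b (hmem hb eb)), fun h6 => by omega⟩
        · by_cases eb : b = v
          · subst eb
            simp only [if_true, if_neg ea]
            have h5 := f2 a (hmem ha ea)
            exact ⟨fun h6 => absurd h6.symm (hu a (hmem ha ea)), fun h6 => by omega⟩
          · simp only [if_neg ea, if_neg eb]
            exact f3 a (hmem ha ea) b (hmem hb eb) hab

theorem lin_embed {h : ℕ} (H : SimpleGraph (Fin h)) (hA : H.IsAcyclic)
    (h2 : ∀ v, (H.neighborSet v).ncard ≤ 2) :
    ∃ f : Fin h → ℕ, Function.Injective f ∧ (∀ v, f v < 2 * h) ∧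
      ∀ a b, a ≠ b → (H.Adj a b ↔ f a + 1 = f b ∨ f b + 1 = f a) := by
  obtain ⟨f, f1, f2, f3⟩ := lf_main H hA h2 h Finset.univ (by rw [Finset.card_univ, Fintype.card_fin])
  exact ⟨f, fun a b hab => f1 a (Finset.mem_univ a) b (Finset.mem_univ b) hab,
    fun v => f2 v (Finset.mem_univ v),
    fun a b hab => f3 a (Finset.mem_univ a) b (Finset.mem_univ b) hab⟩

end Pool.Agent.Work.MP_63853a_lc.HF
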