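import Pool.Agent.Work.MP_63853a_lc.HF.Basic
import Pool.Agent.Work.MP_63853a_lc.HF.LinF
import Pool.Agent.Work.MP_63853a_lc.HF.ShG

set_option autoImplicit false

/-!
# FrS (size S)

`short_of_noip` with `s = 2 * h`: an induced path `f : Fin (2 * h + 1) → V` composed with `lin_embed` is an induced copy of `H`.
-/

namespace Pool.Agent.Work.MP_63853a_lc.HF

open Finset Pool.Agent.Work.MP_63853a_lc Pool.Agent.Work.MP_63853a_lc.Tr

theorem short_of_free {h : ℕ} (H : SimpleGraph (Fin h)) (hA : H.IsAcyclic)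
    (h2 : ∀ v, (H.neighborSet v).ncard ≤ 2) {V E : Type} [Fintype V] (φ : E → V × V) (hF : Free H φ) :
    Short (adj φ) (2 * h) := by
  apply short_of_noip φ
  rintro ⟨f, hf, hfa⟩
  obtain ⟨g, hg, hg2, hga⟩ := lin_embed H hA h2
  apply hF
  have hlt : ∀ v, g v < 2 * h + 1 := fun v => (hg2 v).trans (Nat.lt_succ_self _)
  have hinj : ∀ a b, (⟨g a, hlt a⟩ : Fin (2 * h + 1)) = ⟨g b, hlt b⟩ → a = b := fun a b hab =>
    hg (Fin.mk.inj_iff.1 hab)
  refine ⟨fun v => f ⟨g v, hlt v⟩, fun a b hab => hinj a b (hf hab), fun a b hab => ?_⟩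
  rw [hga a b hab]
  exact (hfa ⟨g a, hlt a⟩ ⟨g b, hlt b⟩ (fun h3 => hab (hinj a b h3))).symm

end Pool.Agent.Work.MP_63853a_lc.HF
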