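import Pool.Agent.Work.MP_63853a_lc.HF.Defs

set_option autoImplicit false

/-!
# MinMax (size M)

Minimax theorem. Let `K = convexHull ℝ (Set.range A)` in `V → ℝ` (compact: `Set.Finite.isCompact_convexHull`, finite range),
`L = {z | ∀ v, z v ≤ lam}` (convex, closed). If `K` and `L` meet, an element of `K` is a convex combination of the `A i`
(`convexHull_range_eq_exists_affineCombination` or `Finset.mem_convexHull'`, `mem_convexHull_iff_exists_fintype`, or
`Set.Finite.convexHull_eq`, `convexHull_eq`), which gives `π`. Otherwise `geometric_hahn_banach_compact_closed` gives a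
continuous linear `f` and reals `a < b` with `f z < a` on `K` and `b < f z` on `L`. Put `p v = - f (Pi.single v 1)`;
`f z = - ∑ v, z v * p v` (`pi_eq_sum_univ` or `LinearMap.pi_apply_eq_sum_univ`). `p v ≥ 0`: otherwise
`z = lam - t * single v` (constant `lam`, `t → ∞`) is in `L` and `f z` is arbitrarily small. `p` is not `0`: otherwise `f = 0`
and `0 < a < b < 0` (`ι` is nonempty by `h` for the uniform weights, so `K` is not empty; `L` contains the constant `lam`).
So `Σ = ∑ p > 0`; the constant `lam` is in `L`: `b < - lam * Σ`; `A i ∈ K`: `- ∑ p v * A i v < a`, so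
`∑ v, (p v / Σ) * A i v > lam` for all `i`, against `h` for `ℓ = p / Σ`.
-/

namespace Pool.Agent.Work.MP_63853a_lc.HF

open Finset Pool.Agent.Work.MP_63853a_lc Pool.Agent.Work.MP_63853a_lc.Tr

theorem minimax {ι V : Type} [Fintype ι] [Fintype V] [Nonempty V] (A : ι → V → ℝ) (lam : ℝ)
    (h : ∀ ℓ : V → ℝ, (∀ v, 0 ≤ ℓ v) → ∑ v, ℓ v = 1 → ∃ i, ∑ v, ℓ v * A i v ≤ lam) :
    ∃ π : ι → ℝ, (∀ i, 0 ≤ π i) ∧ ∑ i, π i = 1 ∧ ∀ v, ∑ i, π i * A i v ≤ lam := by
  classical
  have hK : IsCompact (convexHull ℝ (Set.range A)) := (Set.finite_range A).isCompact_convexHull ℝ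
  have hL : IsClosed {z : V → ℝ | ∀ v, z v ≤ lam} := by
    have e : {z : V → ℝ | ∀ v, z v ≤ lam} = ⋂ v, {z : V → ℝ | z v ≤ lam} := by
      ext z
      simp
    rw [e]
    exact isClosed_iInter fun v => isClosed_le (continuous_apply v) continuous_const
  have hLc : Convex ℝ {z : V → ℝ | ∀ v, z v ≤ lam} := by
    intro x hx y hy a b ha hb hab v
    have h1 : a * x v + b * y v ≤ a * lam + b * lam :=
      add_le_add (mul_le_mul_of_nonneg_left (hx v) ha) (mul_le_mul_of_nonneg_left (hy v) hb)
    rw [← add_mul, hab, one_mul] at h1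
    exact h1
  by_cases hd : Disjoint (convexHull ℝ (Set.range A)) {z : V → ℝ | ∀ v, z v ≤ lam}
  · exfalso
    obtain ⟨f, a, b, h1, h2, h3⟩ :=
      geometric_hahn_banach_compact_closed (convex_convexHull ℝ _) hK hLc hL hd
    obtain ⟨p, hp⟩ : ∃ p : V → ℝ, ∀ z : V → ℝ, f z = - ∑ v, z v * p v := by
      refine ⟨fun v => - f (fun j => if v = j then 1 else 0), fun z => ?_⟩
      have h4 := (f : (V → ℝ) →ₗ[ℝ] ℝ).pi_apply_eq_sum_univ z
      rw [← Finset.sum_neg_distrib]
      refine h4.trans (Finset.sum_congr rfl fun v _ => ?_)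
      simp
    have hp0 : ∀ v, 0 ≤ p v := by
      intro v
      by_contra hv
      rw [not_le] at hv
      set S := ∑ u, lam * p u with hS
      set t := (|-S - b| + 1) / (-p v) with ht
      have ht0 : 0 ≤ t := div_nonneg (by positivity) (by linarith)
      have hz : (fun u => if u = v then lam - t else lam) ∈ {z : V → ℝ | ∀ v, z v ≤ lam} := by
        intro u
        show (if u = v then lam - t else lam) ≤ lam
        split_ifs
        · linarith
        · exact le_refl _
      have h4 := h3 _ hz
      rw [hp] at h4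
      have h5 : ∑ u, (if u = v then lam - t else lam) * p u = S - t * p v := by
        have h6 : ∀ u, (if u = v then lam - t else lam) * p u =
            lam * p u - if u = v then t * p u else 0 := by
          intro u
          split_ifs <;> ring
        rw [Finset.sum_congr rfl fun u _ => h6 u, Finset.sum_sub_distrib,
          Finset.sum_ite_eq' Finset.univ v, if_pos (Finset.mem_univ v)]
      rw [h5] at h4
      have h6 : t * p v = -(|-S - b| + 1) := by
        have h8 : -p v ≠ 0 := by linarith
        have h9 : t * (-p v) = |-S - b| + 1 := div_mul_cancel₀ _ h8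
        linarith
      have h7 := le_abs_self (-S - b)
      linarith
    have hc : b < -(lam * ∑ v, p v) := by
      have h4 := h3 (fun _ => lam) fun v => le_refl _
      rw [hp, ← Finset.mul_sum] at h4
      exact h4
    have hS0 : 0 ≤ ∑ v, p v := Finset.sum_nonneg fun v _ => hp0 v
    have hA : ∀ i, -(∑ v, A i v * p v) < a := by
      intro i
      have h4 := h1 _ (subset_convexHull ℝ _ ⟨i, rfl⟩)
      rwa [hp] at h4
    rcases hS0.eq_or_lt with h4 | h4
    · have h5 : ∀ v, p v = 0 := by
        intro v
        exact (Finset.sum_eq_zero_iff_of_nonneg fun v _ => hp0 v).1 h4.symm v (Finset.mem_univ v)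
      obtain ⟨i, -⟩ := h (fun _ => 1 / (Fintype.card V : ℝ)) (fun v => by positivity) (by
        rw [Finset.sum_const, Finset.card_univ, nsmul_eq_mul, mul_one_div, div_self]
        exact Nat.cast_ne_zero.2 Fintype.card_ne_zero)
      have h6 := hA i
      simp only [h5, mul_zero, Finset.sum_const_zero, neg_zero] at h6
      rw [← h4, mul_zero, neg_zero] at hc
      linarith
    · obtain ⟨i, hi⟩ := h (fun v => p v / ∑ v, p v) (fun v => div_nonneg (hp0 v) h4.le) (by
        rw [← Finset.sum_div, div_self h4.ne'])
      have h6 : ∑ v, p v / (∑ v, p v) * A i v = (∑ v, A i v * p v) / ∑ v, p v := by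
        rw [Finset.sum_div]
        exact Finset.sum_congr rfl fun v _ => by ring
      rw [h6, div_le_iff₀ h4] at hi
      have h7 := hA i
      linarith
  · rw [Set.not_disjoint_iff] at hd
    obtain ⟨z, hz, hzL⟩ := hd
    rw [mem_convexHull_iff_exists_fintype] at hz
    obtain ⟨κ, _, w, y, hw0, hw1, hy, rfl⟩ := hz
    choose g hg using hy
    refine ⟨fun i => ∑ j with g j = i, w j, fun i => Finset.sum_nonneg fun j _ => hw0 j, ?_, ?_⟩
    · exact (Finset.sum_fiberwise Finset.univ g w).trans hw1
    · intro v
      have h1 := hzL v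
      rw [Finset.sum_apply] at h1
      refine le_trans (le_of_eq ?_) h1
      rw [← Finset.sum_fiberwise Finset.univ g fun j => (w j • y j) v]
      refine Finset.sum_congr rfl fun i _ => ?_
      rw [Finset.sum_mul]
      refine Finset.sum_congr rfl fun j hj => ?_
      rw [Pi.smul_apply, smul_eq_mul, ← hg j, (Finset.mem_filter.1 hj).2]

end Pool.Agent.Work.MP_63853a_lc.HF
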