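import Pool.Agent.Work.MP_63853a_lc.HF.Basic

set_option autoImplicit false

/-!
# StrA (size S-M)

`m = ∑ v ∈ σ.1, μ v > 0` (`hσ.1` and `∑ μ ≥ 0`), so `σ.1` is nonempty and `0 ≤ a`. Exchange the sums:
`∑ w, ℓ w * us μ σ w = (∑ u ∈ σ.1, ∑ v ∈ σ.1, μ u * μ v * ∑ w ∈ σ.2 u v, ℓ w) / m ^ 2`, and `σ.2 u v ⊆ σ.1` has at most `s`
elements, so the inner sum is at most `s * a` and the whole is at most `s * a * m ^ 2 / m ^ 2`.
-/

namespace Pool.Agent.Work.MP_63853a_lc.HF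

open Finset Pool.Agent.Work.MP_63853a_lc Pool.Agent.Work.MP_63853a_lc.Tr

theorem str_use {V : Type} [Fintype V] {R : V → V → Prop} {μ : V → ℝ} (hμ : ∀ v, 0 ≤ μ v) {s : ℕ}
    {σ : Finset V × (V → V → Finset V)} (hσ : Valid R μ s σ) {ℓ : V → ℝ} (hℓ : ∀ w, 0 ≤ ℓ w) {a : ℝ}
    (ha : ∀ w ∈ σ.1, ℓ w ≤ a) : ∑ w, ℓ w * us μ σ w ≤ s * a := by
  classical
  have hmu : 0 ≤ ∑ v, μ v := Finset.sum_nonneg fun v _ => hμ v
  have hm : 0 < ∑ v ∈ σ.1, μ v := by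
    have := hσ.1
    linarith
  have hne : σ.1.Nonempty := by
    by_contra h
    rw [Finset.not_nonempty_iff_eq_empty] at h
    rw [h] at hm
    simp at hm
  obtain ⟨w0, hw0⟩ := hne
  have ha0 : 0 ≤ a := le_trans (hℓ w0) (ha w0 hw0)
  set m := ∑ v ∈ σ.1, μ v with hmdef
  have hus : ∀ w, us μ σ w = (∑ u ∈ σ.1, ∑ v ∈ σ.1, if w ∈ σ.2 u v then μ u * μ v else 0) / m ^ 2 := by
    intro w
    unfold us
    rw [← hmdef]
  have h1 : ∑ w, ℓ w * us μ σ w =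
      (∑ u ∈ σ.1, ∑ v ∈ σ.1, μ u * μ v * ∑ w ∈ σ.2 u v, ℓ w) / m ^ 2 := by
    simp only [hus]
    simp only [mul_div_assoc']
    rw [← Finset.sum_div]
    congr 1
    simp only [Finset.mul_sum]
    rw [Finset.sum_comm]
    refine Finset.sum_congr rfl fun u _ => ?_
    rw [Finset.sum_comm]
    refine Finset.sum_congr rfl fun v _ => ?_
    rw [← Finset.sum_filter_add_sum_filter_not univ (fun w => w ∈ σ.2 u v)]
    rw [Finset.sum_eq_zero (s := univ.filter fun w => ¬ w ∈ σ.2 u v), add_zero]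
    · have : univ.filter (fun w => w ∈ σ.2 u v) = σ.2 u v := by
        ext w
        simp
      rw [this]
      refine Finset.sum_congr rfl fun w hw => ?_
      rw [if_pos hw]
      ring
    · intro w hw
      rw [Finset.mem_filter] at hw
      rw [if_neg hw.2, mul_zero]
  rw [h1, div_le_iff₀ (by positivity)]
  have h2 : ∑ u ∈ σ.1, ∑ v ∈ σ.1, μ u * μ v * ∑ w ∈ σ.2 u v, ℓ w ≤
      ∑ u ∈ σ.1, ∑ v ∈ σ.1, μ u * μ v * ((s : ℝ) * a) := by
    refine Finset.sum_le_sum fun u hu => Finset.sum_le_sum fun v hv => ?_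
    refine mul_le_mul_of_nonneg_left ?_ (mul_nonneg (hμ u) (hμ v))
    obtain ⟨h3, h4, -⟩ := hσ.2 u hu v hv
    calc ∑ w ∈ σ.2 u v, ℓ w ≤ ∑ w ∈ σ.2 u v, a := Finset.sum_le_sum fun w hw => ha w (h3 hw)
      _ = ((σ.2 u v).card : ℝ) * a := by rw [Finset.sum_const, nsmul_eq_mul]
      _ ≤ (s : ℝ) * a := mul_le_mul_of_nonneg_right (by exact_mod_cast h4) ha0
  refine h2.trans (le_of_eq ?_)
  have h5 : ∀ u ∈ σ.1, ∑ v ∈ σ.1, μ u * μ v * ((s : ℝ) * a) = μ u * (m * (s * a)) := by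
    intro u _
    rw [hmdef, Finset.sum_mul, Finset.mul_sum]
    refine Finset.sum_congr rfl fun v _ => by ring
  rw [Finset.sum_congr rfl h5, ← Finset.sum_mul, ← hmdef]
  ring

end Pool.Agent.Work.MP_63853a_lc.HF
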