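import Pool.Agent.Work.MP_63853a_lc.HF.Basic

set_option autoImplicit false

/-!
# StrB (size S-M)

Fix `u ∈ σ.1`. If `v ∈ σ.1` and `σ.2 u v` is disjoint from `S` then `σ.2 u v ⊆ univ \ S` and `Jn R (σ.2 u v) u v` give
`v ∈ comp R (univ \ S) u` (`jn_mono`, `mem_comp`). So the sum over `v` is at most `μ u * ∑ v ∈ comp R (univ \ S) u, μ v`
`≤ μ u * (∑ μ) / 2 ≤ μ u * (3 / 4) * ∑ v ∈ σ.1, μ v` by `hS` and `hσ.1` (`2 ∑ μ < 3 ∑ v ∈ σ.1, μ v`). Sum over `u ∈ σ.1`.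
-/

namespace Pool.Agent.Work.MP_63853a_lc.HF

open Finset Pool.Agent.Work.MP_63853a_lc Pool.Agent.Work.MP_63853a_lc.Tr

open Classical in
theorem str_hit {V : Type} [Fintype V] {R : V → V → Prop} {μ : V → ℝ} (hμ : ∀ v, 0 ≤ μ v) {s : ℕ}
    {σ : Finset V × (V → V → Finset V)} (hσ : Valid R μ s σ) {S : Finset V} (hS : Half R μ S) :
    ∑ u ∈ σ.1, ∑ v ∈ σ.1, (if Disjoint (σ.2 u v) S then μ u * μ v else 0) ≤
      3 / 4 * (∑ v ∈ σ.1, μ v) ^ 2 := by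
  have hmu : 0 ≤ ∑ v, μ v := Finset.sum_nonneg fun v _ => hμ v
  have hm1 := hσ.1
  have key : ∀ u ∈ σ.1, ∑ v ∈ σ.1, (if Disjoint (σ.2 u v) S then μ u * μ v else 0) ≤
      μ u * (3 / 4 * ∑ v ∈ σ.1, μ v) := by
    intro u hu
    have h1 : ∑ v ∈ σ.1, (if Disjoint (σ.2 u v) S then μ u * μ v else 0) ≤
        μ u * ∑ v ∈ comp R (univ \ S) u, μ v := by
      rw [← Finset.sum_filter, Finset.mul_sum]
      refine Finset.sum_le_sum_of_subset_of_nonneg ?_ fun v _ _ => mul_nonneg (hμ u) (hμ v)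
      intro v hv
      rw [Finset.mem_filter] at hv
      obtain ⟨hv1, hv2⟩ := hv
      obtain ⟨-, -, h3⟩ := hσ.2 u hu v hv1
      refine mem_comp.2 (jn_mono ?_ h3)
      intro w hw
      rw [Finset.mem_sdiff]
      exact ⟨Finset.mem_univ w, fun hw' => (Finset.disjoint_left.1 hv2 hw) hw'⟩
    have h2 := hS u
    refine h1.trans (mul_le_mul_of_nonneg_left ?_ (hμ u))
    linarith
  refine (Finset.sum_le_sum key).trans (le_of_eq ?_)
  rw [← Finset.sum_mul]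
  ring

end Pool.Agent.Work.MP_63853a_lc.HF
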