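import Pool.Agent.Work.MP_63853a_lc.HF.Basic

set_option autoImplicit false

/-!
# StrC (size S-M)

`L = univ.filter fun w => 1 / k < ℓ w`: `L.card * (1 / k) ≤ ∑ w ∈ L, ℓ w ≤ 1`, so `L.card ≤ k`, and `hb L` gives `u` with
`2 * ∑ μ < 3 * ∑ v ∈ C, μ v`, `C = comp R (univ \ L) u` (unfold `Bal`, `push_neg`). `C ⊆ univ \ L` (`comp_subset`), so `ℓ ≤ 1 / k`
on `C`. For `a, b ∈ C`: `Jn R C a b` (`jn_comp`), so `Short` gives `P ⊆ C` with at most `s` elements and `Jn R P a b`. Choose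
(`choose`, with `∅` for pairs not in `C`) the function `σ.2`.
-/

namespace Pool.Agent.Work.MP_63853a_lc.HF

open Finset Pool.Agent.Work.MP_63853a_lc Pool.Agent.Work.MP_63853a_lc.Tr

theorem str_ex {V : Type} [Fintype V] {R : V → V → Prop} (hR : Sy R) {s : ℕ} (h : Short R s) {μ : V → ℝ}
    {k : ℕ} (hk : 1 ≤ k) (hb : ∀ S : Finset V, S.card ≤ k → ¬ Bal R μ S) {ℓ : V → ℝ} (hℓ : ∀ v, 0 ≤ ℓ v)
    (hℓ1 : ∑ v, ℓ v = 1) : ∃ σ, Valid R μ s σ ∧ ∀ w ∈ σ.1, ℓ w ≤ 1 / k := by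
  classical
  have hkpos : (0 : ℝ) < k := by exact_mod_cast hk
  let L : Finset V := univ.filter fun w => 1 / (k : ℝ) < ℓ w
  have hL : L.card ≤ k := by
    have h1 : (L.card : ℝ) * (1 / k) ≤ ∑ w ∈ L, ℓ w := by
      rw [← nsmul_eq_mul]
      exact card_nsmul_le_sum L ℓ _ (fun w hw => (mem_filter.1 hw).2.le)
    have h2 : ∑ w ∈ L, ℓ w ≤ ∑ w, ℓ w := sum_le_univ_sum_of_nonneg hℓ
    rw [hℓ1] at h2
    have h3 : (L.card : ℝ) ≤ k := by
      have h4 := h1.trans h2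
      rw [mul_one_div, div_le_one hkpos] at h4
      exact h4
    exact_mod_cast h3
  have hnb := hb L hL
  unfold Bal at hnb
  push Not at hnb
  obtain ⟨u, hu⟩ := hnb
  obtain ⟨C, hC⟩ : ∃ C, C = comp R (univ \ L) u := ⟨_, rfl⟩
  have hsub : ∀ w ∈ C, w ∉ L := by
    intro w hw
    rw [hC] at hw
    exact (mem_sdiff.1 (comp_subset hw)).2
  have hP : ∀ a b, ∃ P : Finset V, (a ∈ C → b ∈ C → P ⊆ C ∧ P.card ≤ s ∧ Jn R P a b) := by
    intro a b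
    by_cases hab : a ∈ C ∧ b ∈ C
    · have hj : Jn R C a b := by
        rw [hC] at hab ⊢
        exact jn_comp hR hab.1 hab.2
      obtain ⟨P, h1, h2, h3⟩ := h C a b hj
      exact ⟨P, fun _ _ => ⟨h1, h2, h3⟩⟩
    · exact ⟨∅, fun ha hb => absurd ⟨ha, hb⟩ hab⟩
  choose P hP using hP
  refine ⟨(C, P), ⟨?_, fun a ha b hb => hP a b ha hb⟩, fun w hw => ?_⟩
  · rw [hC]
    exact hu
  · by_contra hcon
    push Not at hcon
    exact hsub w hw (mem_filter.2 ⟨mem_univ _, hcon⟩)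

end Pool.Agent.Work.MP_63853a_lc.HF
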