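import Pool.Agent.Work.MP_63853a_lc.HF.Basic
import Pool.Agent.Work.MP_63853a_lc.HF.MinMax
import Pool.Agent.Work.MP_63853a_lc.HF.StrA
import Pool.Agent.Work.MP_63853a_lc.HF.StrB
import Pool.Agent.Work.MP_63853a_lc.HF.StrC

set_option autoImplicit false

/-!
# FlowEx (size M-L)

`ι = {σ : Finset V × (V → V → Finset V) // Valid R μ s σ}` is finite. Apply `minimax` to `A σ w = us μ σ w`, `lam = s / k`: for
weights `ℓ` take `σ` from `str_ex`; `str_use` with `a = 1 / k` gives `∑ ℓ w * us μ σ w ≤ s * (1 / k)`. Get `π`.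
`Ω = ι × V × V`, `ρ (σ, u, v) = π σ * ((if u ∈ σ.1 ∧ v ∈ σ.1 then μ u * μ v else 0) / (∑ w ∈ σ.1, μ w) ^ 2)`,
`P (σ, u, v) = if u ∈ σ.1 ∧ v ∈ σ.1 then σ.2 u v else ∅`.
`nonneg`: clear. `total`: for fixed `σ` the sum over `u, v` of the second factor is `1` (`∑_{u,v ∈ σ.1} μ u μ v = (∑ μ)^2`,
positive by `Valid`), and `∑ π = 1`. `short`: `Valid`. `use`: for fixed `σ` the sum over `(u, v)` is `us μ σ w`. `hit`: the sum of
the `ρ ω` with `P ω` not disjoint from `S` is `1 -` the sum over the others; for fixed `σ` the sum over the pairs `u, v ∈ σ.1`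
with `σ.2 u v` disjoint from `S` is at most `3 / 4` by `str_hit` (divide by the square; the pairs not in `σ.1` have weight 0).
-/

namespace Pool.Agent.Work.MP_63853a_lc.HF

open Finset Pool.Agent.Work.MP_63853a_lc Pool.Agent.Work.MP_63853a_lc.Tr

private theorem fx_sum {V : Type} [Fintype V] [DecidableEq V] (D : Finset V) (c : V → V → ℝ) :
    ∑ p : V × V, (if p.1 ∈ D ∧ p.2 ∈ D then c p.1 p.2 else 0) = ∑ u ∈ D, ∑ v ∈ D, c u v := by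
  rw [Fintype.sum_prod_type]
  calc ∑ u, ∑ v, (if u ∈ D ∧ v ∈ D then c u v else 0)
      = ∑ u, if u ∈ D then ∑ v ∈ D, c u v else 0 := by
        refine Finset.sum_congr rfl fun u _ => ?_
        by_cases hu : u ∈ D
        · simp only [hu, true_and, if_true]
          rw [Finset.sum_ite_mem, Finset.univ_inter]
        · simp [hu]
    _ = ∑ u ∈ D, ∑ v ∈ D, c u v := by
        rw [Finset.sum_ite_mem, Finset.univ_inter]

theorem flow_ex {V : Type} [Fintype V] [Nonempty V] {R : V → V → Prop} (hR : Sy R) {s : ℕ} (h : Short R s)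
    {μ : V → ℝ} (hμ : ∀ v, 0 ≤ μ v) {k : ℕ} (hk : 1 ≤ k) (hb : ∀ S : Finset V, S.card ≤ k → ¬ Bal R μ S) :
    ∃ (Ω : Type) (_ : Fintype Ω) (ρ : Ω → ℝ) (P : Ω → Finset V), Flow R μ s ((s : ℝ) / k) Ω ρ P := by
  classical
  let ι : Type := {σ : Finset V × (V → V → Finset V) // Valid R μ s σ}
  let _ : Fintype ι := Fintype.ofFinite ι
  obtain ⟨π, h1, h2, h3⟩ := minimax (fun (σ : ι) w => us μ σ.1 w) ((s : ℝ) / k) (by
    intro ℓ hℓ hℓ1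
    obtain ⟨σ, h4, h5⟩ := str_ex hR h hk hb hℓ hℓ1
    refine ⟨⟨σ, h4⟩, ?_⟩
    have h6 := str_use hμ h4 hℓ h5
    rwa [mul_one_div] at h6)
  have hM : ∀ σ : ι, 0 < ∑ w ∈ σ.1.1, μ w := by
    intro σ
    have h4 := σ.2.1
    have h5 : 0 ≤ ∑ v, μ v := Finset.sum_nonneg fun v _ => hμ v
    linarith
  -- sums over the pairs
  have key : ∀ (σ : ι) (F : Finset V → ℝ), ∑ p : V × V,
      ((if p.1 ∈ σ.1.1 ∧ p.2 ∈ σ.1.1 then μ p.1 * μ p.2 else 0) / (∑ w ∈ σ.1.1, μ w) ^ 2) *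
        F (if p.1 ∈ σ.1.1 ∧ p.2 ∈ σ.1.1 then σ.1.2 p.1 p.2 else ∅) =
      (∑ u ∈ σ.1.1, ∑ v ∈ σ.1.1, μ u * μ v * F (σ.1.2 u v)) / (∑ w ∈ σ.1.1, μ w) ^ 2 := by
    intro σ F
    rw [← fx_sum, Finset.sum_div]
    refine Finset.sum_congr rfl fun p _ => ?_
    by_cases hp : p.1 ∈ σ.1.1 ∧ p.2 ∈ σ.1.1
    · simp only [if_pos hp]
      ring
    · simp only [if_neg hp]
      ring
  have hone : ∀ σ : ι, (∑ u ∈ σ.1.1, ∑ v ∈ σ.1.1, μ u * μ v) / (∑ w ∈ σ.1.1, μ w) ^ 2 = 1 := by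
    intro σ
    rw [← Finset.sum_mul_sum, ← pow_two, div_self (pow_pos (hM σ) 2).ne']
  refine ⟨ι × V × V, inferInstance, fun ω => π ω.1 *
    ((if ω.2.1 ∈ ω.1.1.1 ∧ ω.2.2 ∈ ω.1.1.1 then μ ω.2.1 * μ ω.2.2 else 0) /
      (∑ w ∈ ω.1.1.1, μ w) ^ 2),
    fun ω => if ω.2.1 ∈ ω.1.1.1 ∧ ω.2.2 ∈ ω.1.1.1 then ω.1.1.2 ω.2.1 ω.2.2 else ∅, ?_⟩
  have tot : ∀ F : Finset V → ℝ, ∑ ω : ι × V × V, (π ω.1 *
      ((if ω.2.1 ∈ ω.1.1.1 ∧ ω.2.2 ∈ ω.1.1.1 then μ ω.2.1 * μ ω.2.2 else 0) /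
      (∑ w ∈ ω.1.1.1, μ w) ^ 2)) *
      F (if ω.2.1 ∈ ω.1.1.1 ∧ ω.2.2 ∈ ω.1.1.1 then ω.1.1.2 ω.2.1 ω.2.2 else ∅) =
      ∑ σ, π σ * ((∑ u ∈ σ.1.1, ∑ v ∈ σ.1.1, μ u * μ v * F (σ.1.2 u v)) /
        (∑ w ∈ σ.1.1, μ w) ^ 2) := by
    intro F
    rw [Fintype.sum_prod_type]
    refine Finset.sum_congr rfl fun σ _ => ?_
    rw [← key σ F, Finset.mul_sum]
    exact Finset.sum_congr rfl fun p _ => by rw [mul_assoc]
  have t1 := tot fun _ => 1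
  simp only [mul_one] at t1
  have htotal : ∑ ω : ι × V × V, (π ω.1 *
      ((if ω.2.1 ∈ ω.1.1.1 ∧ ω.2.2 ∈ ω.1.1.1 then μ ω.2.1 * μ ω.2.2 else 0) /
      (∑ w ∈ ω.1.1.1, μ w) ^ 2)) = 1 := by
    rw [t1, ← h2]
    exact Finset.sum_congr rfl fun σ _ => by rw [hone σ, mul_one]
  refine ⟨?_, htotal, ?_, ?_, ?_⟩
  · intro ω
    refine mul_nonneg (h1 _) (div_nonneg ?_ (pow_nonneg (hM _).le 2))
    split_ifs
    · exact mul_nonneg (hμ _) (hμ _)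
    · exact le_refl _
  · intro ω
    by_cases hp : ω.2.1 ∈ ω.1.1.1 ∧ ω.2.2 ∈ ω.1.1.1
    · simp only [if_pos hp]
      exact (ω.1.2.2 _ hp.1 _ hp.2).2.1
    · simp only [if_neg hp]
      exact Nat.zero_le _
  · intro w
    refine le_trans (le_of_eq ?_) (h3 w)
    have t2 := tot fun T => if w ∈ T then 1 else 0
    refine Eq.trans (Finset.sum_congr rfl fun ω _ => ?_) (t2.trans
      (Finset.sum_congr rfl fun σ _ => ?_))
    · split_ifs <;> simp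
    · unfold us
      congr 2
      refine Finset.sum_congr rfl fun u _ => Finset.sum_congr rfl fun v _ => ?_
      split_ifs <;> simp
  · intro S hS
    have t2 := tot fun T => if Disjoint T S then 1 else 0
    have h5 : ∑ σ, π σ * ((∑ u ∈ σ.1.1, ∑ v ∈ σ.1.1, μ u * μ v *
        (if Disjoint (σ.1.2 u v) S then (1 : ℝ) else 0)) / (∑ w ∈ σ.1.1, μ w) ^ 2) ≤ 3 / 4 := by
      calc ∑ σ, π σ * ((∑ u ∈ σ.1.1, ∑ v ∈ σ.1.1, μ u * μ v *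
            (if Disjoint (σ.1.2 u v) S then (1 : ℝ) else 0)) / (∑ w ∈ σ.1.1, μ w) ^ 2)
          ≤ ∑ σ, π σ * (3 / 4) := by
            refine Finset.sum_le_sum fun σ _ => mul_le_mul_of_nonneg_left ?_ (h1 σ)
            rw [div_le_iff₀ (pow_pos (hM σ) 2)]
            refine le_trans (le_of_eq ?_) (str_hit hμ σ.2 hS)
            refine Finset.sum_congr rfl fun u _ => Finset.sum_congr rfl fun v _ => ?_
            split_ifs <;> simp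
        _ = 3 / 4 := by rw [← Finset.sum_mul, h2, one_mul]
    rw [← t2] at h5
    have h6 : ∀ ω : ι × V × V, (if Disjoint (if ω.2.1 ∈ ω.1.1.1 ∧ ω.2.2 ∈ ω.1.1.1 then
        ω.1.1.2 ω.2.1 ω.2.2 else ∅) S then 0 else π ω.1 *
      ((if ω.2.1 ∈ ω.1.1.1 ∧ ω.2.2 ∈ ω.1.1.1 then μ ω.2.1 * μ ω.2.2 else 0) /
      (∑ w ∈ ω.1.1.1, μ w) ^ 2)) = π ω.1 *
      ((if ω.2.1 ∈ ω.1.1.1 ∧ ω.2.2 ∈ ω.1.1.1 then μ ω.2.1 * μ ω.2.2 else 0) /
      (∑ w ∈ ω.1.1.1, μ w) ^ 2) - (π ω.1 *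
      ((if ω.2.1 ∈ ω.1.1.1 ∧ ω.2.2 ∈ ω.1.1.1 then μ ω.2.1 * μ ω.2.2 else 0) /
      (∑ w ∈ ω.1.1.1, μ w) ^ 2)) * (if Disjoint (if ω.2.1 ∈ ω.1.1.1 ∧ ω.2.2 ∈ ω.1.1.1 then
        ω.1.1.2 ω.2.1 ω.2.2 else ∅) S then 1 else 0) := by
      intro ω
      by_cases hd : Disjoint (if ω.2.1 ∈ ω.1.1.1 ∧ ω.2.2 ∈ ω.1.1.1 then
        ω.1.1.2 ω.2.1 ω.2.2 else ∅) S
      · rw [if_pos hd, if_pos hd, mul_one, sub_self]
      · rw [if_neg hd, if_neg hd, mul_zero, sub_zero]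
    have h7 : ∑ ω : ι × V × V, (if Disjoint (if ω.2.1 ∈ ω.1.1.1 ∧ ω.2.2 ∈ ω.1.1.1 then
        ω.1.1.2 ω.2.1 ω.2.2 else ∅) S then 0 else π ω.1 *
      ((if ω.2.1 ∈ ω.1.1.1 ∧ ω.2.2 ∈ ω.1.1.1 then μ ω.2.1 * μ ω.2.2 else 0) /
      (∑ w ∈ ω.1.1.1, μ w) ^ 2)) ≥ 1 / 4 := by
      rw [Finset.sum_congr rfl fun ω _ => h6 ω, Finset.sum_sub_distrib, htotal]
      linarith
    refine le_trans h7 (le_of_eq (Finset.sum_congr rfl fun ω _ => ?_))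
    by_cases hd : Disjoint (if ω.2.1 ∈ ω.1.1.1 ∧ ω.2.2 ∈ ω.1.1.1 then
        ω.1.1.2 ω.2.1 ω.2.2 else ∅) S
    · rw [if_pos hd]
    · rw [if_neg hd]

end Pool.Agent.Work.MP_63853a_lc.HF
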