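import Pool.Agent.Work.MP_63853a_lc.HF.Basic
import Pool.Agent.Work.MP_63853a_lc.HF.FlowEx
import Pool.Agent.Work.MP_63853a_lc.HF.CntA
import Pool.Agent.Work.MP_63853a_lc.HF.CntB

set_option autoImplicit false

/-!
# SepM (size M)

If `V` is empty take `S = ∅`. Otherwise put `m = 128 * s ^ 2 * d + 1`, `k = 32 * s ^ 2 * m = 4096 * s ^ 4 * d + 32 * s ^ 2` and
suppose no `S` with `S.card ≤ k` is `Bal`. `flow_ex` gives a flow with `lam = s / k = 1 / (32 s m) ≤ 1 / (16 s)`.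
`cnt_a`: the set `Y0` of the `x` with `pr x ≥ 1 / (8 s)` has `Y0.card ≥ 1 / (8 lam) = 4 s m ≥ m`; take `Y ⊆ Y0` with `m`
elements (`Finset.exists_subset_card_eq`). `cnt_b`: `Z0 = {v | m / (32 s ^ 2) ≤ c v}`, `c v = (Y.filter fun y => R v y).card`, has
`Z0.card ≥ 1 / (32 s lam) = m`; take `Z ⊆ Z0` with `m` elements. `hd` for `Z ∪ Y` (at most `2 m` elements): the pairs
`(v, y)`, `v ∈ Z`, `y ∈ Y`, `R v y` are among the pairs of `(Z ∪ Y) × (Z ∪ Y)`, and there are `∑ v ∈ Z, c v ≥ m * m / (32 s ^ 2)` of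
them. So `m ^ 2 / (32 s ^ 2) ≤ 2 * d * (2 m)`, `m ≤ 128 s ^ 2 d < m`, a contradiction.
-/

namespace Pool.Agent.Work.MP_63853a_lc.HF

open Finset Pool.Agent.Work.MP_63853a_lc Pool.Agent.Work.MP_63853a_lc.Tr

theorem sep_main {V : Type} [Fintype V] {R : V → V → Prop} (hR : Sy R) {s d : ℕ} (hs : 1 ≤ s) (h : Short R s)
    (hd : Dens R d) {μ : V → ℝ} (hμ : ∀ v, 0 ≤ μ v) :
    ∃ S : Finset V, S.card ≤ 4096 * s ^ 4 * d + 32 * s ^ 2 ∧ Bal R μ S := by
  classical
  rcases isEmpty_or_nonempty V with he | he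
  · exact ⟨∅, Nat.zero_le _, fun u => he.elim u⟩
  by_contra hcon
  set m : ℕ := 128 * s ^ 2 * d + 1 with hm
  have hk1 : 4096 * s ^ 4 * d + 32 * s ^ 2 = 32 * s ^ 2 * m := by
    rw [hm]
    ring
  rw [hk1] at hcon
  have hm1 : 1 ≤ m := by omega
  have hk : 1 ≤ 32 * s ^ 2 * m := by
    have : 0 < 32 * s ^ 2 * m := by positivity
    omega
  obtain ⟨Ω, _, ρ, P, hF⟩ := flow_ex hR h hμ hk fun S h1 h2 => hcon ⟨S, h1, h2⟩
  have hs0 : (0 : ℝ) < s := by exact_mod_cast hs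
  have hm0 : (0 : ℝ) < m := by exact_mod_cast hm1
  have hlam : (s : ℝ) / ((32 * s ^ 2 * m : ℕ) : ℝ) = 1 / (32 * s * m) := by
    push_cast
    field_simp
  rw [hlam] at hF
  have h1 := cnt_a hR hs h hμ hF
  rw [mul_one_div, div_le_div_iff₀ (by norm_num) (by positivity)] at h1
  have h2 : m ≤ (univ.filter fun x : V =>
      1 / (8 * (s : ℝ)) ≤ ∑ ω, if Disjoint (P ω) (nbh R {x}) then 0 else ρ ω).card := by
    have h3 : (m : ℝ) ≤ ((univ.filter fun x : V =>
      1 / (8 * (s : ℝ)) ≤ ∑ ω, if Disjoint (P ω) (nbh R {x}) then 0 else ρ ω).card : ℝ) := by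
      have h4 : (1 : ℝ) ≤ s := by exact_mod_cast hs
      have h5 : (m : ℝ) ≤ s * m := le_mul_of_one_le_left hm0.le h4
      refine le_trans h5 ?_
      refine le_of_mul_le_mul_right ?_ (by norm_num : (0 : ℝ) < 8)
      refine le_trans ?_ h1
      nlinarith
    exact_mod_cast h3
  obtain ⟨Y, hY1, hY2⟩ := Finset.exists_subset_card_eq h2
  have hYn : Y.Nonempty := Finset.card_pos.1 (by omega)
  have h3 := cnt_b hR hs (lam := 1 / (32 * s * m)) (by
    refine one_div_le_one_div_of_le (by positivity) ?_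
    have h4 : (1 : ℝ) ≤ m := by exact_mod_cast hm1
    nlinarith) hF hYn fun x hx => (Finset.mem_filter.1 (hY1 hx)).2
  rw [mul_one_div, div_le_div_iff₀ (by positivity) (by positivity)] at h3
  have h4 : m ≤ (univ.filter fun v : V =>
      (Y.card : ℝ) / (32 * (s : ℝ) ^ 2) ≤ ((Y.filter fun y => R v y).card : ℝ)).card := by
    have h5 : (m : ℝ) ≤ ((univ.filter fun v : V =>
      (Y.card : ℝ) / (32 * (s : ℝ) ^ 2) ≤ ((Y.filter fun y => R v y).card : ℝ)).card : ℝ) := by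
      refine le_of_mul_le_mul_right ?_ (by positivity : (0 : ℝ) < 32 * s)
      refine le_trans (le_of_eq ?_) h3
      ring
    exact_mod_cast h5
  obtain ⟨Z, hZ1, hZ2⟩ := Finset.exists_subset_card_eq h4
  have h5 := hd (Z ∪ Y)
  have h6 : (Z ∪ Y).card ≤ 2 * m := by
    have := Finset.card_union_le Z Y
    omega
  have h7 : ∑ v ∈ Z, (Y.filter fun y => R v y).card ≤
      (((Z ∪ Y) ×ˢ (Z ∪ Y)).filter fun p => R p.1 p.2).card := by
    have e1 : ∑ v ∈ Z, (Y.filter fun y => R v y).card =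
        ((Z ×ˢ Y).filter fun p => R p.1 p.2).card := by
      rw [Finset.card_filter, Finset.sum_product]
      exact Finset.sum_congr rfl fun v _ => Finset.card_filter _ _
    rw [e1]
    refine Finset.card_le_card fun p hp => ?_
    rw [Finset.mem_filter, Finset.mem_product] at hp ⊢
    exact ⟨⟨Finset.mem_union_left _ hp.1.1, Finset.mem_union_right _ hp.1.2⟩, hp.2⟩
  have h8 : (m : ℝ) * (m / (32 * (s : ℝ) ^ 2)) ≤
      ((∑ v ∈ Z, (Y.filter fun y => R v y).card : ℕ) : ℝ) := by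
    push_cast
    have h9 : ∑ v ∈ Z, ((m : ℝ) / (32 * (s : ℝ) ^ 2)) ≤
        ∑ v ∈ Z, ((Y.filter fun y => R v y).card : ℝ) := by
      refine Finset.sum_le_sum fun v hv => ?_
      have := (Finset.mem_filter.1 (hZ1 hv)).2
      rwa [hY2] at this
    rwa [Finset.sum_const, nsmul_eq_mul, hZ2] at h9
  have h10 : ((∑ v ∈ Z, (Y.filter fun y => R v y).card : ℕ) : ℝ) ≤ 2 * d * (2 * m) := by
    have h11 : ∑ v ∈ Z, (Y.filter fun y => R v y).card ≤ 2 * d * (2 * m) := by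
      refine h7.trans ?_
      refine le_trans ?_ (Nat.mul_le_mul_left (2 * d) h6)
      refine le_trans (le_of_eq ?_) h5
      congr 1
    exact_mod_cast h11
  have h12 : (m : ℝ) * (m / (32 * (s : ℝ) ^ 2)) ≤ 2 * d * (2 * m) := h8.trans h10
  have h13 : (m : ℝ) / (32 * (s : ℝ) ^ 2) ≤ 4 * d := by
    refine le_of_mul_le_mul_left ?_ hm0
    linarith
  rw [div_le_iff₀ (by positivity)] at h13
  have h14 : m ≤ 4 * d * (32 * s ^ 2) := by exact_mod_cast h13
  have h15 : 4 * d * (32 * s ^ 2) = 128 * s ^ 2 * d := by ring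
  omega

end Pool.Agent.Work.MP_63853a_lc.HF
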