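import Pool.Agent.Work.MP_63853a_lc.HF.Basic

set_option autoImplicit false

/-!
# ShQ (size M)

Let `ψ = quo φ c`, `Jn (adj ψ) U a b`. `s ≥ 1` by `h {a} a a (jn_refl ..)` (a set `P` with `a ∈ P` and `P.card ≤ s`). If `a = b`
take `P = {a}`. Otherwise put `W = univ.filter fun x => c x ∈ U`.
(1) If `c x = c y ∈ U` then `Jn (adj φ) W x y`: let `T = {z | Jn (adj φ) W x z}`; if `y ∉ T` then `hs T` gives
`κ ≤ ncard {e | c (φ e).1 = c (φ e).2 ∧ separated by T}`, but this set is empty: if `p ∈ T`, `q ∉ T` are the ends of `e` and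
`c p = c q`, then `p ∈ W`, `c q = c p ∈ U`, so `q ∈ W`, `p ≠ q`, `adj φ p q`, `q ∈ T` (`jn_step`). So `κ ≤ 0`, a contradiction.
(2) For every step `adj ψ p q`, `q ∈ U` (`p ∈ U`) there are `x`, `y` with `c x = p`, `c y = q`, `adj φ x y` (the ends of the edge; they are
different because `p ≠ q`). By induction along the path from `a` (at least one step as `a ≠ b`): there is `x0` with `c x0 = a` and
for every `y` with `c y = b`: `Jn (adj φ) W x0 y`; and there is such a `y0`. (3) `h W x0 y0` gives `P' ⊆ W`, `P'.card ≤ s`,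
`Jn (adj φ) P' x0 y0`. `P = P'.image c ⊆ U`, `P.card ≤ s`, and `Jn (adj ψ) P a b`: along the path every step `adj φ p q` gives `c p = c q`
or `adj ψ (c p) (c q)`.
-/

namespace Pool.Agent.Work.MP_63853a_lc.HF

open Finset Pool.Agent.Work.MP_63853a_lc Pool.Agent.Work.MP_63853a_lc.Tr

/-- vertices of one class in `U` are joined in the union of the classes of `U` -/
private theorem shq_same {V E : Type} [Fintype V] (φ : E → V × V) {κ : ℝ} (hκ : 0 < κ) {c : V → V}
    (hs : Strong φ c κ) (W : Finset V) (U : Finset V) (hW : ∀ v, v ∈ W ↔ c v ∈ U) {x y : V} (hxy : c x = c y)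
    (hx : c x ∈ U) : Jn (adj φ) W x y := by
  by_contra hn
  have h1 := hs {z | Jn (adj φ) W x z} ⟨x, jn_refl ((hW x).2 hx), y, hn, hxy⟩
  have h2 : {e : E | c (φ e).1 = c (φ e).2 ∧
      ¬ ((φ e).1 ∈ {z | Jn (adj φ) W x z} ↔ (φ e).2 ∈ {z | Jn (adj φ) W x z})} = ∅ := by
    ext e
    simp only [Set.mem_ofPred_eq, Set.mem_empty_iff_false, iff_false, not_and, not_not]
    intro he
    constructor
    · intro hp
      by_cases hpq : (φ e).1 = (φ e).2
      · rw [← hpq]
        exact hp
      · refine jn_step hp (adj_of_ne φ hpq) ((hW _).2 ?_)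
        rw [← he]
        exact (hW _).1 (jn_right hp)
    · intro hp
      by_cases hpq : (φ e).1 = (φ e).2
      · rw [hpq]
        exact hp
      · refine jn_step hp (adj_symm φ _ _ (adj_of_ne φ hpq)) ((hW _).2 ?_)
        rw [he]
        exact (hW _).1 (jn_right hp)
  rw [h2, Set.ncard_empty, Nat.cast_zero] at h1
  linarith

/-- a step of the quotient is the image of a step -/
private theorem shq_lift {V E : Type} (φ : E → V × V) {c : V → V} {p q : V} (h : adj (quo φ c) p q) :
    ∃ x y, c x = p ∧ c y = q ∧ adj φ x y := by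
  obtain ⟨hne, e, he⟩ := h
  rcases he with he | he
  · have e1 : c (φ e).1 = p := congrArg Prod.fst he
    have e2 : c (φ e).2 = q := congrArg Prod.snd he
    refine ⟨(φ e).1, (φ e).2, e1, e2, ?_, e, Or.inl rfl⟩
    intro hc
    apply hne
    rw [← e1, ← e2, hc]
  · have e1 : c (φ e).1 = q := congrArg Prod.fst he
    have e2 : c (φ e).2 = p := congrArg Prod.snd he
    refine ⟨(φ e).2, (φ e).1, e2, e1, ?_, e, Or.inr rfl⟩
    intro hc
    apply hne
    rw [← e1, ← e2, hc]

/-- a step is mapped to a step of the quotient or to a point -/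
private theorem shq_push {V E : Type} (φ : E → V × V) (c : V → V) {x y : V} (h : adj φ x y) :
    c x = c y ∨ adj (quo φ c) (c x) (c y) := by
  by_cases hc : c x = c y
  · exact Or.inl hc
  · right
    obtain ⟨_, e, he⟩ := h
    refine ⟨hc, e, ?_⟩
    unfold quo
    rcases he with he | he
    · left
      rw [he]
    · right
      rw [he]

theorem short_quo {V E : Type} [Fintype V] [Finite E] (φ : E → V × V) {κ : ℝ} (hκ : 0 < κ) {c : V → V}
    (hs : Strong φ c κ) {s : ℕ} (h : Short (adj φ) s) : Short (adj (quo φ c)) s := by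
  classical
  intro U a b hJ
  have hs1 : 1 ≤ s := by
    obtain ⟨P, _, hP2, hP3⟩ := h {a} a a (jn_refl (Finset.mem_singleton_self a))
    exact le_trans (Finset.card_pos.2 ⟨a, jn_left hP3⟩) hP2
  have hWm : ∀ v, v ∈ (univ.filter fun x => c x ∈ U) ↔ c v ∈ U := by
    intro v
    simp
  generalize hW : (univ.filter fun x => c x ∈ U) = W at hWm
  have hmain : ∀ d, Jn (adj (quo φ c)) U a d → d = a ∨ ∃ x0 y0, c x0 = a ∧ c y0 = d ∧ Jn (adj φ) W x0 y0 := by
    intro d hd
    obtain ⟨h1, h2⟩ := hd
    induction h2 with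
    | refl => exact Or.inl rfl
    | @tail p q h3 h4 ih =>
      right
      obtain ⟨x, y, hx, hy, hxy⟩ := shq_lift φ h4.1
      have hyW : y ∈ W := (hWm y).2 (by rw [hy]; exact h4.2)
      rcases ih with rfl | ⟨x0, y0, hx0, hy0, h0⟩
      · refine ⟨x, y, hx, hy, jn_step (jn_refl ((hWm x).2 (by rw [hx]; exact h1))) hxy hyW⟩
      · refine ⟨x0, y, hx0, hy, jn_step (jn_trans h0 ?_) hxy hyW⟩
        exact shq_same φ hκ hs W U hWm (by rw [hy0, hx]) ((hWm y0).1 (jn_right h0))
  rcases hmain b hJ with rfl | ⟨x0, y0, hx0, hy0, h0⟩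
  · refine ⟨{b}, ?_, by simpa using hs1, jn_refl (Finset.mem_singleton_self b)⟩
    simpa using jn_left hJ
  · obtain ⟨P, hP1, hP2, hP3⟩ := h W x0 y0 h0
    refine ⟨P.image c, ?_, Finset.card_image_le.trans hP2, ?_⟩
    · intro p hp
      obtain ⟨z, hz, rfl⟩ := Finset.mem_image.1 hp
      exact (hWm z).1 (hP1 hz)
    · have hpush : ∀ z, Jn (adj φ) P x0 z → Jn (adj (quo φ c)) (P.image c) (c x0) (c z) := by
        intro z hz
        obtain ⟨h1, h2⟩ := hz
        induction h2 with
        | refl => exact jn_refl (Finset.mem_image_of_mem c h1)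
        | @tail p q h3 h4 ih =>
          rcases shq_push φ c h4.1 with h5 | h5
          · rw [← h5]
            exact ih
          · exact jn_step ih h5 (Finset.mem_image_of_mem c h4.2)
      have := hpush y0 hP3
      rwa [hx0, hy0] at this

end Pool.Agent.Work.MP_63853a_lc.HF
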