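import Pool.Agent.Work.MP_63853a_lc.HF.Basic

set_option autoImplicit false

/-!
# Prune (size S-M)

Induction on `t`. `prune_size`: prove by induction `(t.edges = ∅ → (prune t).size = 1) ∧ (t.edges ≠ ∅ → (prune t).size + 1 ≤
2 * t.edges.card)` for `t.Nodup` (a node with both sides nonempty: the card is the sum as the sides are disjoint).
-/

namespace Pool.Agent.Work.MP_63853a_lc.HF

open Finset Pool.Agent.Work.MP_63853a_lc Pool.Agent.Work.MP_63853a_lc.Tr

open Classical in
private theorem prune_node {E : Type} (l r : ETree E) : prune (.node l r) =
    (if l.edges = ∅ then prune r else if r.edges = ∅ then prune l else .node (prune l) (prune r)) := by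
  rw [prune]

theorem prune_edges {E : Type} (t : ETree E) : (prune t).edges = t.edges := by
  classical
  induction t with
  | nil => rw [prune]
  | leaf e => rw [prune]
  | node l r hl hr =>
    rw [prune_node]
    by_cases h1 : l.edges = ∅
    · rw [if_pos h1, hr]
      simp only [ETree.edges]
      rw [h1, Finset.empty_union]
    · rw [if_neg h1]
      by_cases h2 : r.edges = ∅
      · rw [if_pos h2, hl]
        simp only [ETree.edges]
        rw [h2, Finset.union_empty]
      · rw [if_neg h2]
        simp only [ETree.edges]
        rw [hl, hr]

theorem prune_nodup {E : Type} (t : ETree E) (h : t.Nodup) : (prune t).Nodup := by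
  classical
  induction t with
  | nil => rw [prune]; trivial
  | leaf e => rw [prune]; trivial
  | node l r hl hr =>
    obtain ⟨h0, h1, h2⟩ := h
    rw [prune_node]
    split_ifs with h3 h4
    · exact hr h2
    · exact hl h1
    · refine ⟨?_, hl h1, hr h2⟩
      rw [prune_edges, prune_edges]
      exact h0

theorem prune_sets {E : Type} (t : ETree E) {S : Finset E} (h : S ∈ (prune t).sets) : S ∈ t.sets := by
  classical
  induction t with
  | nil => rw [prune] at h; exact h
  | leaf e => rw [prune] at h; exact h
  | node l r hl hr =>
    rw [prune_node] at h
    simp only [ETree.sets, Set.mem_insert_iff, Set.mem_union]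
    split_ifs at h with h3 h4
    · exact Or.inr (Or.inr (hr h))
    · exact Or.inr (Or.inl (hl h))
    · simp only [ETree.sets, Set.mem_insert_iff, Set.mem_union] at h
      rw [prune_edges, prune_edges] at h
      rcases h with h | h | h
      · exact Or.inl h
      · exact Or.inr (Or.inl (hl h))
      · exact Or.inr (Or.inr (hr h))

private theorem prune_size_aux {E : Type} (t : ETree E) (h : t.Nodup) :
    (t.edges = ∅ → (prune t).size = 1) ∧ (t.edges ≠ ∅ → (prune t).size + 1 ≤ 2 * t.edges.card) := by
  classical
  induction t with
  | nil =>
    rw [prune]
    exact ⟨fun _ => rfl, fun h => absurd rfl h⟩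
  | leaf e =>
    rw [prune]
    refine ⟨fun _ => rfl, fun _ => ?_⟩
    simp only [ETree.edges, ETree.size, Finset.card_singleton]
    norm_num
  | node l r hl hr =>
    obtain ⟨h0, h1, h2⟩ := h
    rw [prune_node]
    have hl' := hl h1
    have hr' := hr h2
    by_cases h3 : l.edges = ∅
    · rw [if_pos h3]
      have : (ETree.node l r).edges = r.edges := by
        simp only [ETree.edges]
        rw [h3, Finset.empty_union]
      rw [this]
      exact hr'
    · rw [if_neg h3]
      by_cases h4 : r.edges = ∅
      · rw [if_pos h4]
        have : (ETree.node l r).edges = l.edges := by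
          simp only [ETree.edges]
          rw [h4, Finset.union_empty]
        rw [this]
        exact hl'
      · rw [if_neg h4]
        have h5 := hl'.2 h3
        have h6 := hr'.2 h4
        have h7 : (ETree.node l r).edges.card = l.edges.card + r.edges.card := by
          simp only [ETree.edges]
          exact Finset.card_union_of_disjoint h0
        have h8 : 0 < l.edges.card := Finset.card_pos.2 (Finset.nonempty_iff_ne_empty.2 h3)
        refine ⟨fun h9 => ?_, fun _ => ?_⟩
        · exfalso
          rw [h9, Finset.card_empty] at h7
          omega
        · rw [h7]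
          simp only [ETree.size]
          omega

theorem prune_size {E : Type} (t : ETree E) (h : t.Nodup) : (prune t).size ≤ 2 * t.edges.card + 1 := by
  obtain ⟨h1, h2⟩ := prune_size_aux t h
  by_cases h3 : t.edges = ∅
  · rw [h1 h3]
    omega
  · have := h2 h3
    omega

end Pool.Agent.Work.MP_63853a_lc.HF
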