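import Pool.Agent.Work.MP_63853a_lc.HF.Basic
import Pool.Agent.Work.MP_63853a_lc.Tr.CatF

set_option autoImplicit false

/-!
# TBase (size S-M)

`t = cat .nil S.toList` (see `Tr/CatF`: `cat_edges`, `cat_nodup`). Every set of a tree is contained in the edges of the tree
(induction on `t`; prove it here as a private lemma), so `S' ⊆ S` for `S' ∈ t.sets`, `bdv ψ S' ⊆ vs ψ S' ⊆ vs ψ S`.
-/

namespace Pool.Agent.Work.MP_63853a_lc.HF

open Finset Pool.Agent.Work.MP_63853a_lc Pool.Agent.Work.MP_63853a_lc.Tr

private theorem sets_sub {E : Type} (t : ETree E) : ∀ S ∈ t.sets, S ⊆ t.edges := by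
  classical
  induction t with
  | nil =>
    intro S hS
    simp only [ETree.sets, Set.mem_singleton_iff] at hS
    rw [hS]
    exact Finset.empty_subset _
  | leaf e =>
    intro S hS
    simp only [ETree.sets, Set.mem_singleton_iff] at hS
    rw [hS]
    simp [ETree.edges]
  | node l r hl hr =>
    intro S hS
    simp only [ETree.sets, Set.mem_insert_iff, Set.mem_union] at hS
    simp only [ETree.edges]
    rcases hS with h | h | h
    · rw [h]
    · exact (hl S h).trans Finset.subset_union_left
    · exact (hr S h).trans Finset.subset_union_right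

theorem has_small {V E : Type} [Fintype V] (ψ : E → V × V) (S : Finset E) {B : ℕ} (h : (vs ψ S).card ≤ B) :
    HasT ψ B S := by
  classical
  have hE : (cat (.nil : ETree E) S.toList).edges = S := by
    rw [cat_edges]
    simp [ETree.edges]
  refine ⟨cat .nil S.toList, ?_, hE, ?_⟩
  · refine cat_nodup _ _ trivial S.nodup_toList ?_
    intro e _
    simp [ETree.edges]
  · intro S' hS'
    have h1 : S' ⊆ S := by
      have := sets_sub _ S' hS'
      rwa [hE] at this
    refine le_trans (Finset.card_le_card ?_) h
    intro p hp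
    obtain ⟨⟨e, he, hi⟩, -⟩ := (mem_bdv ψ).1 hp
    exact (mem_vs ψ).2 ⟨e, h1 he, hi⟩

end Pool.Agent.Work.MP_63853a_lc.HF
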