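import Pool.Agent.Work.MP_63853a_lc.HF.Basic

set_option autoImplicit false

/-!
# TBd (size M)

`D` is closed in the complement of `X`. Key fact: if `e ∈ se ψ S D`, `Inc ψ e p` and `p ∉ X`, then `p ∈ D` (the edge `e` is
not a loop, has an end in `D`; if `p` is the other end then `adj ψ` of the ends and `Cld` give `p ∈ D`).
`bdv_se`: let `p ∈ bdv ψ (se ψ S D)`, `p ∉ X`; then `p ∈ D`, `p` is an end of an edge of `S`, and of an edge `f ∉ se ψ S D`; as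
`p ∈ D` is an end of `f`, `f ∉ S`. So `p ∈ bdv ψ S ∩ D`. `vs_se`: the same. `bdv_mid`: let `p ∈ bdv ψ S'`, `p ∉ X`: `p` is an end of
`e ∈ S' ⊆ S` and of `f ∉ S'`; if `f ∈ S` then `f ∉ se ψ S (univ \ X)`, so both ends of `f` are in `X`, a contradiction. So `f ∉ S`
and `p ∈ bdv ψ S`.
-/

namespace Pool.Agent.Work.MP_63853a_lc.HF

open Finset Pool.Agent.Work.MP_63853a_lc Pool.Agent.Work.MP_63853a_lc.Tr

private theorem key {V E : Type} [Fintype V] (ψ : E → V × V) {S : Finset E} {X D : Finset V}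
    (hD : Cld (adj ψ) X D) {e : E} {p : V} (he : e ∈ se ψ S D) (hi : Inc ψ e p) (hp : p ∉ X) : p ∈ D := by
  obtain ⟨_, h2⟩ := (mem_se ψ).1 he
  obtain ⟨h3, h4⟩ := hi
  have ha : adj ψ (ψ e).1 (ψ e).2 := adj_of_ne ψ h3
  have ha' : adj ψ (ψ e).2 (ψ e).1 := adj_symm ψ _ _ ha
  rcases h4 with h4 | h4
  · rw [h4] at h2 ha'
    rcases h2 with h2 | h2
    · exact h2
    · exact hD.2 _ h2 _ hp ha'
  · rw [h4] at h2 ha
    rcases h2 with h2 | h2
    · exact hD.2 _ h2 _ hp ha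
    · exact h2

open Classical in
theorem bdv_se {V E : Type} [Fintype V] (ψ : E → V × V) {S : Finset E} {X D : Finset V}
    (hD : Cld (adj ψ) X D) : bdv ψ (se ψ S D) ⊆ (bdv ψ S ∩ D) ∪ X := by
  intro p hp
  by_cases hX : p ∈ X
  · exact mem_union_right _ hX
  · obtain ⟨⟨e, he, hi⟩, f, hf, hfi⟩ := (mem_bdv ψ).1 hp
    have hpD : p ∈ D := key ψ hD he hi hX
    refine mem_union_left _ (mem_inter.2 ⟨(mem_bdv ψ).2 ⟨⟨e, se_subset ψ he, hi⟩, f, ?_, hfi⟩, hpD⟩)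
    intro hfS
    apply hf
    refine (mem_se ψ).2 ⟨hfS, ?_⟩
    rcases hfi.2 with h | h
    · exact Or.inl (h ▸ hpD)
    · exact Or.inr (h ▸ hpD)

open Classical in
theorem vs_se {V E : Type} [Fintype V] (ψ : E → V × V) {S : Finset E} {X D : Finset V}
    (hD : Cld (adj ψ) X D) : vs ψ (se ψ S D) ⊆ (vs ψ S ∩ D) ∪ X := by
  intro p hp
  by_cases hX : p ∈ X
  · exact mem_union_right _ hX
  · obtain ⟨e, he, hi⟩ := (mem_vs ψ).1 hp
    have hpD : p ∈ D := key ψ hD he hi hX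
    exact mem_union_left _ (mem_inter.2 ⟨(mem_vs ψ).2 ⟨e, se_subset ψ he, hi⟩, hpD⟩)

open Classical in
theorem bdv_mid {V E : Type} [Fintype V] (ψ : E → V × V) {S S' : Finset E} {X : Finset V}
    (h1 : se ψ S (univ \ X) ⊆ S') (h2 : S' ⊆ S) : bdv ψ S' ⊆ bdv ψ S ∪ X := by
  intro p hp
  by_cases hX : p ∈ X
  · exact mem_union_right _ hX
  · obtain ⟨⟨e, he, hi⟩, f, hf, hfi⟩ := (mem_bdv ψ).1 hp
    refine mem_union_left _ ((mem_bdv ψ).2 ⟨⟨e, h2 he, hi⟩, f, ?_, hfi⟩)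
    intro hfS
    apply hf
    apply h1
    refine (mem_se ψ).2 ⟨hfS, ?_⟩
    rcases hfi.2 with h | h
    · exact Or.inl (mem_sdiff.2 ⟨mem_univ _, h ▸ hX⟩)
    · exact Or.inr (mem_sdiff.2 ⟨mem_univ _, h ▸ hX⟩)

end Pool.Agent.Work.MP_63853a_lc.HF
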