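import Pool.Agent.Work.MP_63853a_lc.HF.Basic
import Pool.Agent.Work.MP_63853a_lc.HF.TBd

set_option autoImplicit false

/-!
# TCld (size M)

Strong induction on `D.card`. `D = ∅`: `se ψ S ∅ = ∅`, `t = .nil` (`bdv ψ ∅ = ∅`). Otherwise take `u ∈ D` (`u ∉ X`),
`C = comp (adj ψ) (univ \ X) u ⊆ D` (a path from `u` outside of `X` stays in `D` by `Cld`: induction or `jn_cross`), `D' = D \ C`.
`Cld (adj ψ) X D'`: for `a ∈ D'`, `b ∉ X`, `adj ψ a b`: `b ∈ D`; if `b ∈ C` then `a ∈ C` (`comp_closed`, `adj_symm`), a
contradiction. Trees `t'` for `se ψ S D'` (induction) and `t''` for `se ψ S C` (`hc u`): take `.node t' t''`. Edges: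
`se ψ S D' ∪ se ψ S C = se ψ S D`. `Nodup`: the two sets are disjoint: an edge in both has an end in `D'` and an end in `C`; it
is not a loop, so its ends are `adj ψ`, against the closedness of `C` (`comp_closed`). Sets: the new set is `se ψ S D`, and
`bdv_se` gives `(bdv ψ S).card + X.card ≤ B`.
-/

namespace Pool.Agent.Work.MP_63853a_lc.HF

open Finset Pool.Agent.Work.MP_63853a_lc Pool.Agent.Work.MP_63853a_lc.Tr

open Classical in
theorem has_cld {V E : Type} [Fintype V] (ψ : E → V × V) {S : Finset E} {X : Finset V} {B : ℕ}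
    (hB : (bdv ψ S).card + X.card ≤ B)
    (hc : ∀ u, u ∉ X → HasT ψ B (se ψ S (comp (adj ψ) (univ \ X) u))) {D : Finset V}
    (hD : Cld (adj ψ) X D) : HasT ψ B (se ψ S D) := by
  induction hn : D.card using Nat.strong_induction_on generalizing D with
  | _ n ih =>
    by_cases hD0 : D = ∅
    · subst hD0
      have h0 : se ψ S (∅ : Finset V) = ∅ := by
        ext e
        simp [mem_se]
      rw [h0]
      refine ⟨.nil, trivial, rfl, ?_⟩
      intro S' hS'
      simp only [ETree.sets, Set.mem_singleton_iff] at hS'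
      rw [hS']
      have : bdv ψ (∅ : Finset E) = ∅ := by
        ext p
        simp [mem_bdv]
      rw [this]
      simp
    · obtain ⟨u, hu⟩ := Finset.nonempty_iff_ne_empty.2 hD0
      have huX : u ∉ X := fun h => (Finset.disjoint_left.1 hD.1 hu) h
      set C := comp (adj ψ) (univ \ X) u with hC
      have huC : u ∈ C := self_mem_comp (by simp [huX])
      have hCD : C ⊆ D := by
        intro v hv
        by_contra hvD
        obtain ⟨a, haA, b, hbA, hab, haU, hbU, -⟩ :=
          jn_cross (D : Set V) (mem_comp.1 hv) (by exact_mod_cast hu) (by exact_mod_cast hvD)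
        have hbX : b ∉ X := (Finset.mem_sdiff.1 hbU).2
        exact hbA (by exact_mod_cast hD.2 a (by exact_mod_cast haA) b hbX hab)
      have hCX : ∀ c ∈ C, c ∉ X := fun c hc h => (Finset.disjoint_left.1 hD.1 (hCD hc)) h
      have hclosed : ∀ a ∈ C, ∀ b, b ∉ X → adj ψ a b → b ∈ C := by
        intro a ha b hb hab
        exact comp_closed ha hab (by simp [hb])
      have hD' : Cld (adj ψ) X (D \ C) := by
        refine ⟨Finset.disjoint_left.2 fun a ha => Finset.disjoint_left.1 hD.1 (Finset.mem_sdiff.1 ha).1, ?_⟩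
        intro a ha b hb hab
        rw [Finset.mem_sdiff] at ha ⊢
        refine ⟨hD.2 a ha.1 b hb hab, fun hbC => ha.2 ?_⟩
        exact hclosed b hbC a (fun h => (Finset.disjoint_left.1 hD.1 ha.1) h) (adj_symm ψ _ _ hab)
      have hlt : (D \ C).card < n := by
        rw [← hn]
        refine Finset.card_lt_card ?_
        refine ⟨Finset.sdiff_subset, fun h => ?_⟩
        exact (Finset.mem_sdiff.1 (h hu)).2 huC
      obtain ⟨t1, h11, h12, h13⟩ := ih _ hlt hD' rfl
      obtain ⟨t2, h21, h22, h23⟩ := hc u huX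
      rw [← hC] at h22
      have hun : se ψ S (D \ C) ∪ se ψ S C = se ψ S D := by
        ext e
        simp only [Finset.mem_union, mem_se, Finset.mem_sdiff]
        constructor
        · rintro (⟨h1, h2⟩ | ⟨h1, h2⟩)
          · exact ⟨h1, h2.imp (fun h => h.1) (fun h => h.1)⟩
          · exact ⟨h1, h2.imp (fun h => hCD h) (fun h => hCD h)⟩
        · rintro ⟨h1, h2⟩
          by_cases h3 : (ψ e).1 ∈ C ∨ (ψ e).2 ∈ C
          · exact Or.inr ⟨h1, h3⟩
          · push Not at h3
            left
            exact ⟨h1, h2.imp (fun h => ⟨h, h3.1⟩) (fun h => ⟨h, h3.2⟩)⟩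
      have hdj : Disjoint (se ψ S (D \ C)) (se ψ S C) := by
        rw [Finset.disjoint_left]
        intro e he1 he2
        rw [mem_se] at he1 he2
        have hsym := adj_symm (E := E) ψ
        have hXD : ∀ a ∈ D \ C, a ∉ X := fun a ha h => (Finset.disjoint_left.1 hD'.1 ha) h
        rcases he1.2 with h1 | h1 <;> rcases he2.2 with h2 | h2
        · exact (Finset.mem_sdiff.1 h1).2 h2
        · have hne : (ψ e).1 ≠ (ψ e).2 := fun h => (Finset.mem_sdiff.1 h1).2 (h ▸ h2)
          exact (Finset.mem_sdiff.1 h1).2 (hclosed _ h2 _ (hXD _ h1) (hsym _ _ (adj_of_ne ψ hne)))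
        · have hne : (ψ e).1 ≠ (ψ e).2 := fun h => (Finset.mem_sdiff.1 h1).2 (h ▸ h2)
          exact (Finset.mem_sdiff.1 h1).2 (hclosed _ h2 _ (hXD _ h1) (adj_of_ne ψ hne))
        · exact (Finset.mem_sdiff.1 h1).2 h2
      refine ⟨.node t1 t2, ⟨?_, h11, h21⟩, ?_, ?_⟩
      · rw [h12, h22]
        exact hdj
      · simp only [ETree.edges]
        rw [h12, h22]
        exact hun
      · intro S' hS'
        simp only [ETree.sets, Set.mem_insert_iff, Set.mem_union] at hS'
        rcases hS' with h | h | h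
        · rw [h, h12, h22, hun]
          calc (bdv ψ (se ψ S D)).card ≤ ((bdv ψ S ∩ D) ∪ X).card := Finset.card_le_card (bdv_se ψ hD)
            _ ≤ (bdv ψ S ∩ D).card + X.card := Finset.card_union_le _ _
            _ ≤ (bdv ψ S).card + X.card := by
              have := Finset.card_le_card (Finset.inter_subset_left (s₁ := bdv ψ S) (s₂ := D))
              omega
            _ ≤ B := hB
        · exact h13 S' h
        · exact h23 S' h

end Pool.Agent.Work.MP_63853a_lc.HF
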