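import Pool.Agent.Work.MP_63853a_lc.HF.Basic
import Pool.Agent.Work.MP_63853a_lc.HF.TBase
import Pool.Agent.Work.MP_63853a_lc.HF.TBd
import Pool.Agent.Work.MP_63853a_lc.HF.TCld
import Pool.Agent.Work.MP_63853a_lc.Tr.CatF

set_option autoImplicit false

/-!
# TRec (size M-L)

Strong induction on `(vs ψ S).card`. If `(vs ψ S).card ≤ 6 * k`: `has_small`. Otherwise `hsep` for the indicator functions of
`bdv ψ S` and of `vs ψ S` gives `X1`, `X2` with at most `k` elements; `X = X1 ∪ X2`, at most `2 k` elements. `Bal` for `X`: the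
components outside of `X` are contained in components outside of `X1` and of `X2` (`jn_mono`). So for
`C = comp (adj ψ) (univ \ X) u`, `u ∉ X`: `3 * (bdv ψ S ∩ C).card ≤ 2 * (bdv ψ S).card ≤ 12 k` and
`3 * (vs ψ S ∩ C).card ≤ 2 * (vs ψ S).card`. `C` is `Cld (adj ψ) X` (`comp_subset`, `comp_closed`). By `bdv_se`
`(bdv ψ (se ψ S C)).card ≤ 4 k + 2 k = 6 k`; by `vs_se` `(vs ψ (se ψ S C)).card ≤ (2 / 3) (vs ψ S).card + 2 k < (vs ψ S).card`
(as `(vs ψ S).card > 6 k`). So the induction hypothesis gives `HasT ψ (8 * k) (se ψ S C)`. `has_cld` with `D = univ \ X`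
(closed) and `(bdv ψ S).card + X.card ≤ 6 k + 2 k = 8 k` gives a tree `t` for `T = se ψ S (univ \ X)`. Finally
`cat t (S \ T).toList` (`Tr/CatF`: `cat_edges`, `cat_nodup`, `cat_sets`): its sets are sets of `t`, or `{e}` (`bdv ψ {e}` has at most
`2 ≤ 8 k` elements), or lie between `T` and `S` (`bdv_mid`: at most `8 k`).
-/

namespace Pool.Agent.Work.MP_63853a_lc.HF

open Finset Pool.Agent.Work.MP_63853a_lc Pool.Agent.Work.MP_63853a_lc.Tr

private theorem card_single {V E : Type} [Fintype V] (ψ : E → V × V) (e : E) : (bdv ψ {e}).card ≤ 2 := by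
  classical
  have h : bdv ψ {e} ⊆ {(ψ e).1, (ψ e).2} := by
    intro p hp
    obtain ⟨⟨f, hf, hi⟩, _⟩ := (mem_bdv ψ).1 hp
    rw [mem_singleton.1 hf] at hi
    rcases hi.2 with h | h
    · simp [h]
    · simp [h]
  exact (card_le_card h).trans card_le_two

open Classical in
private theorem bal_card {V : Type} [Fintype V] {R : V → V → Prop} {A X : Finset V}
    (h : Bal R (fun v => if v ∈ A then (1 : ℝ) else 0) X) (u : V) :
    3 * (A ∩ comp R (univ \ X) u).card ≤ 2 * A.card := by
  have h1 := h u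
  rw [Finset.sum_ite_mem, Finset.sum_ite_mem, univ_inter, sum_const, sum_const, inter_comm] at h1
  simp only [nsmul_eq_mul, mul_one] at h1
  exact_mod_cast h1

theorem has_all {V E : Type} [Fintype V] (ψ : E → V × V) {k : ℕ} (hk : 1 ≤ k)
    (hsep : ∀ μ : V → ℝ, (∀ v, 0 ≤ μ v) → ∃ X : Finset V, X.card ≤ k ∧ Bal (adj ψ) μ X) (S : Finset E)
    (hS : (bdv ψ S).card ≤ 6 * k) : HasT ψ (8 * k) S := by
  classical
  induction hn : (vs ψ S).card using Nat.strong_induction_on generalizing S with
  | _ n ih =>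
    by_cases hsm : (vs ψ S).card ≤ 6 * k
    · exact has_small ψ S (hsm.trans (by omega))
    · obtain ⟨X1, hX1, hb1⟩ := hsep (fun v => if v ∈ bdv ψ S then 1 else 0)
        (fun v => by split_ifs <;> norm_num)
      obtain ⟨X2, hX2, hb2⟩ := hsep (fun v => if v ∈ vs ψ S then 1 else 0)
        (fun v => by split_ifs <;> norm_num)
      have hXc : (X1 ∪ X2).card ≤ 2 * k := (card_union_le _ _).trans (by omega)
      have hsub1 : ∀ u, comp (adj ψ) (univ \ (X1 ∪ X2)) u ⊆ comp (adj ψ) (univ \ X1) u := fun u v hv =>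
        mem_comp.2 (jn_mono (sdiff_subset_sdiff (subset_refl _) subset_union_left) (mem_comp.1 hv))
      have hsub2 : ∀ u, comp (adj ψ) (univ \ (X1 ∪ X2)) u ⊆ comp (adj ψ) (univ \ X2) u := fun u v hv =>
        mem_comp.2 (jn_mono (sdiff_subset_sdiff (subset_refl _) subset_union_right) (mem_comp.1 hv))
      have hcld : ∀ u, Cld (adj ψ) (X1 ∪ X2) (comp (adj ψ) (univ \ (X1 ∪ X2)) u) := by
        intro u
        refine ⟨?_, ?_⟩
        · rw [Finset.disjoint_left]
          intro v hv
          exact (mem_sdiff.1 (comp_subset hv)).2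
        · intro a ha b hb hab
          exact comp_closed ha hab (mem_sdiff.2 ⟨mem_univ _, hb⟩)
      have hc : ∀ u, u ∉ X1 ∪ X2 → HasT ψ (8 * k) (se ψ S (comp (adj ψ) (univ \ (X1 ∪ X2)) u)) := by
        intro u _
        have h1 : (bdv ψ (se ψ S (comp (adj ψ) (univ \ (X1 ∪ X2)) u))).card ≤ 6 * k := by
          have e1 := (card_le_card (bdv_se ψ (S := S) (hcld u))).trans (card_union_le _ _)
          have e2 := bal_card hb1 u
          have e3 : (bdv ψ S ∩ comp (adj ψ) (univ \ (X1 ∪ X2)) u).card ≤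
              (bdv ψ S ∩ comp (adj ψ) (univ \ X1) u).card :=
            card_le_card (inter_subset_inter (subset_refl _) (hsub1 u))
          omega
        have h2 : (vs ψ (se ψ S (comp (adj ψ) (univ \ (X1 ∪ X2)) u))).card < n := by
          have e1 := (card_le_card (vs_se ψ (S := S) (hcld u))).trans (card_union_le _ _)
          have e2 := bal_card hb2 u
          have e3 : (vs ψ S ∩ comp (adj ψ) (univ \ (X1 ∪ X2)) u).card ≤
              (vs ψ S ∩ comp (adj ψ) (univ \ X2) u).card :=
            card_le_card (inter_subset_inter (subset_refl _) (hsub2 u))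
          omega
        exact ih _ h2 _ h1 rfl
      have hD : Cld (adj ψ) (X1 ∪ X2) (univ \ (X1 ∪ X2)) :=
        ⟨sdiff_disjoint, fun a _ b hb _ => mem_sdiff.2 ⟨mem_univ _, hb⟩⟩
      have hB : (bdv ψ S).card + (X1 ∪ X2).card ≤ 8 * k := by omega
      obtain ⟨t, ht1, ht2, ht3⟩ := has_cld ψ hB hc hD
      refine ⟨cat t (S \ se ψ S (univ \ (X1 ∪ X2))).toList, ?_, ?_, ?_⟩
      · refine cat_nodup _ _ ht1 (nodup_toList _) ?_
        intro e he
        rw [ht2]
        exact (mem_sdiff.1 (mem_toList.1 he)).2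
      · rw [cat_edges, ht2, toList_toFinset]
        exact union_sdiff_of_subset (se_subset ψ)
      · intro S' hS'
        rcases cat_sets _ _ hS' with h | ⟨e, h⟩ | ⟨h1, h2⟩
        · exact ht3 _ h
        · rw [h]
          exact (card_single ψ e).trans (by omega)
        · rw [ht2] at h1
          rw [ht2, toList_toFinset, union_sdiff_of_subset (se_subset ψ)] at h2
          exact ((card_le_card (bdv_mid ψ h1 h2)).trans (card_union_le _ _)).trans hB

end Pool.Agent.Work.MP_63853a_lc.HF
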