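import Pool.Agent.Work.MP_63853a_lc.HF.Basic
import Pool.Agent.Work.MP_63853a_lc.HF.TRec
import Pool.Agent.Work.MP_63853a_lc.HF.Prune
import Pool.Agent.Work.MP_63853a_lc.Tr.Lam

set_option autoImplicit false

/-!
# TMain (size S-M)

`bdv ψ univ = ∅`, so `has_all` gives a tree for `univ` (`8 * k`); take its `prune`. `lam ψ S ≤ (bdv ψ S).card` by `Tr.lam_le` with
`W = bdv ψ S` (unfold `Inc`).
-/

namespace Pool.Agent.Work.MP_63853a_lc.HF

open Finset Pool.Agent.Work.MP_63853a_lc Pool.Agent.Work.MP_63853a_lc.Tr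

theorem tree_main {V E : Type} [Fintype V] [Fintype E] (ψ : E → V × V) {k : ℕ} (hk : 1 ≤ k)
    (hsep : ∀ μ : V → ℝ, (∀ v, 0 ≤ μ v) → ∃ X : Finset V, X.card ≤ k ∧ Bal (adj ψ) μ X) :
    ∃ t : ETree E, t.Nodup ∧ t.edges = univ ∧ t.size ≤ 2 * Fintype.card E + 1 ∧
      ∀ S ∈ t.sets, lam ψ S ≤ 8 * k := by
  classical
  have h0 : bdv ψ (univ : Finset E) = ∅ := by
    rw [Finset.eq_empty_iff_forall_notMem]
    intro p hp
    obtain ⟨_, e, he, _⟩ := (mem_bdv ψ).1 hp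
    exact he (mem_univ e)
  obtain ⟨t, ht1, ht2, ht3⟩ := has_all ψ hk hsep univ (by rw [h0, card_empty]; omega)
  refine ⟨prune t, prune_nodup t ht1, by rw [prune_edges, ht2], ?_, ?_⟩
  · have h1 := prune_size t ht1
    rw [ht2, card_univ] at h1
    exact h1
  · intro S hS
    refine (lam_le ψ S (bdv ψ S) ?_).trans (ht3 S (prune_sets t hS))
    rintro p ⟨e, he, h2, h3⟩ ⟨f, hf, h4, h5⟩
    exact (mem_bdv ψ).2 ⟨⟨e, he, h2, h3⟩, f, hf, h4, h5⟩

end Pool.Agent.Work.MP_63853a_lc.HF
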