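import Pool.Agent.Work.MP_63853a_lc.HF.Basic
import Pool.Agent.Work.MP_63853a_lc.HF.SepM
import Pool.Agent.Work.MP_63853a_lc.HF.TMain
import Pool.Agent.Work.MP_63853a_lc.HF.ScA
import Pool.Agent.Work.MP_63853a_lc.HF.DenQ
import Pool.Agent.Work.MP_63853a_lc.HF.ShQ
import Pool.Agent.Work.MP_63853a_lc.HF.FrS

set_option autoImplicit false

/-!
# TreeI (size M)

Let `κ = c0 * log (card V)`, `c0 = 2 / log (x / (x - 1)) > 0`, `ψ = quo φ c`, `s = 2 * h`. `h ≥ 1`: for `h = 0` the function from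
`Fin 0` is an induced copy, so `Free H φ` is false. `Short (adj φ) s` (`short_of_free`). If `card V ≥ 2` then `κ > 0` and
`short_quo` (`sc_strong`) gives `Short (adj ψ) s`; if `card V ≤ 1` then `Short` is trivial (`P = {u}`, all vertices are equal,
`s ≥ 1`). `dens_quo` with `K = ⌈κ⌉₊`. `sep_main` gives the separators with `k = 4096 * s ^ 4 * K + 32 * s ^ 2 ≥ 1`; `tree_main`: a tree
with `lam ψ S ≤ 8 k`. Numbers: with `n = card V + card E + 2`: `K ≤ κ + 1 ≤ c0 * log n + 1` (`Real.log` is monotone, `card V ≤ n`;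
`card V = 0`: `log 0 = 0`) and `1 ≤ log n / log 2`. So `8 k ≤ b * log n` with
`b = 8 * (4096 * s ^ 4 * (c0 + 1 / log 2) + 32 * s ^ 2 / log 2)`.
-/

namespace Pool.Agent.Work.MP_63853a_lc.HF

open Finset Pool.Agent.Work.MP_63853a_lc Pool.Agent.Work.MP_63853a_lc.Tr

theorem tree_one {x : ℝ} (hx : 1 < x) {h : ℕ} (H : SimpleGraph (Fin h)) (hA : H.IsAcyclic)
    (h2 : ∀ v, (H.neighborSet v).ncard ≤ 2) :
    ∃ b : ℝ, ∀ (V E : Type) [Fintype V] [Fintype E] (φ : E → V × V) (c : V → V), Free H φ →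
      (∀ u v, c u = c v ↔ SC φ (2 / Real.log (x / (x - 1)) * Real.log (Fintype.card V)) u v) →
      ∃ t : ETree E, t.Nodup ∧ t.edges = univ ∧ t.size ≤ 2 * Fintype.card E + 1 ∧
        ∀ S ∈ t.sets, (lam (quo φ c) S : ℝ) ≤ b * Real.log (Fintype.card V + Fintype.card E + 2 : ℕ) := by
  classical
  have hlog : 0 < Real.log (x / (x - 1)) := by
    apply Real.log_pos
    rw [lt_div_iff₀ (by linarith)]
    linarith
  have hL2 : 0 < Real.log 2 := Real.log_pos (by norm_num)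
  set c0 : ℝ := 2 / Real.log (x / (x - 1)) with hc0
  have hc0p : 0 < c0 := by positivity
  refine ⟨8 * (4096 * (2 * h : ℝ) ^ 4 * (c0 + 1 / Real.log 2) + 32 * (2 * h : ℝ) ^ 2 * (1 / Real.log 2)), ?_⟩
  intro V E _ _ φ c hF hc
  have hh : 1 ≤ h := by
    by_contra hcon
    have h0 : h = 0 := by omega
    subst h0
    exact hF ⟨fun i => i.elim0, fun i => i.elim0, fun i => i.elim0⟩
  have hS : Short (adj φ) (2 * h) := short_of_free H hA h2 φ hF
  set κ : ℝ := c0 * Real.log (Fintype.card V) with hκ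
  have hκ0 : 0 ≤ κ := mul_nonneg hc0p.le (Real.log_natCast_nonneg _)
  have hSq : Short (adj (quo φ c)) (2 * h) := by
    by_cases hV : 2 ≤ Fintype.card V
    · have hκp : 0 < κ := by
        refine mul_pos hc0p (Real.log_pos ?_)
        have : (2 : ℝ) ≤ Fintype.card V := by exact_mod_cast hV
        linarith
      exact short_quo φ hκp (sc_strong φ hc) hS
    · have hsub : Subsingleton V := Fintype.card_le_one_iff_subsingleton.1 (by omega)
      intro U u v hJ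
      have huv : v = u := Subsingleton.elim _ _
      subst huv
      refine ⟨{v}, singleton_subset_iff.2 (jn_left hJ), ?_, jn_refl (mem_singleton_self _)⟩
      rw [card_singleton]
      omega
  have hD : Dens (adj (quo φ c)) ⌈κ⌉₊ := dens_quo φ hc (Nat.le_ceil κ)
  have hk : 1 ≤ 4096 * (2 * h) ^ 4 * ⌈κ⌉₊ + 32 * (2 * h) ^ 2 := by
    have : 1 ≤ (2 * h) ^ 2 := Nat.one_le_pow _ _ (by omega)
    omega
  obtain ⟨t, t1, t2, t3, t4⟩ := tree_main (quo φ c) hk
    (fun μ hμ => sep_main (adj_symm (quo φ c)) (by omega) hSq hD hμ)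
  refine ⟨t, t1, t2, t3, ?_⟩
  intro S hS'
  have h5 : (lam (quo φ c) S : ℝ) ≤ ((8 * (4096 * (2 * h) ^ 4 * ⌈κ⌉₊ + 32 * (2 * h) ^ 2) : ℕ) : ℝ) := by
    exact_mod_cast t4 S hS'
  refine h5.trans ?_
  push_cast
  set L : ℝ := Real.log ((Fintype.card V : ℝ) + (Fintype.card E : ℝ) + 2) with hL
  have hLL : Real.log 2 ≤ L := by
    apply Real.log_le_log (by norm_num)
    have h6 : (0 : ℝ) ≤ Fintype.card V := Nat.cast_nonneg _
    have h7 : (0 : ℝ) ≤ Fintype.card E := Nat.cast_nonneg _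
    linarith
  have hκL : κ ≤ c0 * L := by
    refine mul_le_mul_of_nonneg_left ?_ hc0p.le
    rcases Nat.eq_zero_or_pos (Fintype.card V) with h6 | h6
    · rw [h6, Nat.cast_zero, Real.log_zero]
      linarith
    · apply Real.log_le_log (by exact_mod_cast h6)
      have h7 : (0 : ℝ) ≤ Fintype.card E := Nat.cast_nonneg _
      linarith
  have h1L : 1 ≤ 1 / Real.log 2 * L := by
    rw [one_div, inv_mul_eq_div, le_div_iff₀ hL2]
    linarith
  have hKL : (⌈κ⌉₊ : ℝ) ≤ (c0 + 1 / Real.log 2) * L := by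
    have h6 := (Nat.ceil_lt_add_one hκ0).le
    calc (⌈κ⌉₊ : ℝ) ≤ κ + 1 := h6
      _ ≤ c0 * L + 1 / Real.log 2 * L := by linarith
      _ = _ := by ring
  have h8 : (4096 * (2 * (h : ℝ)) ^ 4) * (⌈κ⌉₊ : ℝ) ≤ (4096 * (2 * (h : ℝ)) ^ 4) * ((c0 + 1 / Real.log 2) * L) :=
    mul_le_mul_of_nonneg_left hKL (by positivity)
  have h9 : 32 * (2 * (h : ℝ)) ^ 2 * 1 ≤ 32 * (2 * (h : ℝ)) ^ 2 * (1 / Real.log 2 * L) :=
    mul_le_mul_of_nonneg_left h1L (by positivity)
  linarith [h8, h9]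

end Pool.Agent.Work.MP_63853a_lc.HF
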