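import Pool.Agent.Work.MP_63853a_lc.HF.SampI
import Pool.Agent.Work.MP_63853a_lc.HF.TreeI
import Pool.Agent.Work.MP_63853a_lc.HF.PartII
import Pool.Agent.Work.MP_63853a_lc.HF.PartIII
import Pool.Agent.Work.MP_63853a_lc.HF.SepG

set_option autoImplicit false

/-!
# Final (size S)

Everything together (proved from the stubs).
-/

namespace Pool.Agent.Work.MP_63853a_lc.HF

open Finset Pool.Agent.Work.MP_63853a_lc Pool.Agent.Work.MP_63853a_lc.Tr

theorem final (x y : ℝ) (hx : 1 < x) (hy : 1 < y) (hq : 1 ≤ (x - 1) * (y - 1)) :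
    (∀ (h : ℕ) (H : SimpleGraph (Fin h)),
      (H.IsAcyclic → (∀ v, (H.neighborSet v).ncard ≤ 2) →
        ∃ b : ℝ, ∀ β : ℝ, ∃ C : ℝ, ∀ (V E : Type) [Fintype V] [Fintype E] (φ : E → V × V) (c : V → V),
          Free H φ → (∀ u v, c u = c v ↔ SC φ (2 / Real.log (x / (x - 1)) * Real.log (Fintype.card V)) u v) →
          (∃ t : ETree E, t.Nodup ∧ t.edges = univ ∧ t.size ≤ 2 * Fintype.card E + 1 ∧
            ∀ S ∈ t.sets, (lam (quo φ c) S : ℝ) ≤ b * Real.log (Fintype.card V + Fintype.card E + 2 : ℕ)) ∧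
          ∀ t : ETree E, t.Nodup → t.edges = univ → t.size ≤ 2 * Fintype.card E + 1 →
            (∀ S ∈ t.sets, (lam (quo φ c) S : ℝ) ≤ β * Real.log (Fintype.card V + Fintype.card E + 2 : ℕ)) →
            ∀ ε : ℝ, 0 < ε → ε ≤ 1 →
              ∀ N : ℕ, ((Fintype.card V + Fintype.card E + 2 : ℕ) : ℝ) ^ C / ε ^ 2 ≤ N →
                3 / 4 ≤ tgood φ (quo φ c) x y (fun _ => y - 1) t ε N) ∧
      (¬ H.IsAcyclic →
        ∃ C : ℕ, ∀ (V E : Type) [Fintype V] [Fintype E] (φ : E → V × V) (δ : ℝ), 0 < δ → δ ≤ 1 →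
          ∃ a m : ℕ,
            ((Fintype.card (VA V E a m) + Fintype.card (EA E a m) : ℕ) : ℝ) ≤
              C * ((Fintype.card V + Fintype.card E + 1 : ℕ) / δ) ^ C ∧
            Simp (gadA φ a m) ∧ Free H (gadA φ a m) ∧
            |scA φ x y a m * tutte (gadA φ a m) x y - tutte φ x y| ≤ δ * tutte φ x y) ∧
      (H.IsAcyclic → (∃ v, 3 ≤ (H.neighborSet v).ncard) →
        ∃ C : ℕ, ∀ (V E : Type) [Fintype V] [Fintype E] (φ : E → V × V) (δ : ℝ), 0 < δ → δ ≤ 1 →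
          ∃ (M : ℕ) (α : E ⊕ E → Fin M), Function.Injective α ∧
            ((Fintype.card (V × Fin M) + Fintype.card (EB φ M) : ℕ) : ℝ) ≤
              C * ((Fintype.card V + Fintype.card E + 1 : ℕ) / δ) ^ C ∧
            Simp (gadB φ M α) ∧ Free H (gadB φ M α) ∧
            |scB φ x y M α * tutte (gadB φ M α) x y - tutte φ x y| ≤ δ * tutte φ x y)) ∧
    ∀ (V : Type) [Fintype V] (G : SimpleGraph V) (s d : ℕ), ¬ Nonempty (SimpleGraph.pathGraph (s + 1) ↪g G) →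
      (∀ S : Finset V, (G.induce (S : Set V)).edgeSet.ncard ≤ d * S.card) → ∀ μ : V → ℝ, (∀ v, 0 ≤ μ v) →
        ∃ X : Finset V, X.card ≤ 4096 * s ^ 4 * d + 32 * s ^ 2 ∧ ∀ D : Finset V, Disjoint D X →
          (G.induce (D : Set V)).Connected → 3 * ∑ v ∈ D, μ v ≤ 2 * ∑ v, μ v := by
  refine ⟨fun h H => ⟨fun hA h2 => ?_, fun hH => part_two x y hx hy H hH,
    fun hA h3 => part_three x y hx hy hq H hA h3⟩, fun V _ G s d h hd μ hμ => sep_graph G h hd μ hμ⟩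
  obtain ⟨b, hb⟩ := tree_one hx H hA h2
  refine ⟨b, fun β => ?_⟩
  obtain ⟨C, hC⟩ := samp_one x y hx hy hq β
  exact ⟨C, fun V E _ _ φ c hF hc => ⟨hb V E φ c hF hc, fun t ht htu hts htw ε hε hε1 N hN =>
    hC V E φ c hc t ht htu hts htw ε hε hε1 N hN⟩⟩

end Pool.Agent.Work.MP_63853a_lc.HF
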