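import Pool.Agent.Work.MP_63853a_lc.HF.Basic

set_option autoImplicit false

/-!
# GirA (size M)

The edges of `gadA φ a m = fat (thk φ m) (fun _ => a) 1` join `pt .. e i` and `pt .. e (i + 1)`, `i ≤ a`, where `pt .. e 0` and
`pt .. e (a + 1)` are old vertices (`inl`) and `pt .. e (i + 1) = inr ⟨e, i⟩` for `i < a`. So the only vertices adjacent to
`inr ⟨e, i⟩` are `pt .. e i` and `pt .. e (i + 2)`, and a vertex `inl v` is adjacent only to vertices `inr` (`a ≥ 1`). Hence: `U`
contains some `inr ⟨e, i⟩` (if it contains an `inl`, then also a neighbour). Two different neighbours in `U` of `inr ⟨e, i⟩` are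
`pt .. e i` and `pt .. e (i + 2)`. By induction upwards and downwards all `pt .. e j`, `0 ≤ j ≤ a + 1`, are in `U`; the `a` inner ones
and `pt .. e 0` are `a + 1` different vertices (`Finset.card_le_card` for the image of `Fin a` and one `inl`).
-/

namespace Pool.Agent.Work.MP_63853a_lc.HF

open Finset Pool.Agent.Work.MP_63853a_lc Pool.Agent.Work.MP_63853a_lc.Tr

private theorem pt_in {V E : Type} (P : E → V × V) (c : E → ℕ) (e : E) {i : ℕ} (hi : i < c e) :
    pt P c e (i + 1) = Sum.inr ⟨e, ⟨i, hi⟩⟩ := by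
  simp [pt, hi]

private theorem pt_inj {V E : Type} (P : E → V × V) (c : E → ℕ) (e e' : E) (i : Fin (c e)) {j : ℕ}
    (h : pt P c e' j = Sum.inr ⟨e, i⟩) : e' = e ∧ j = i + 1 := by
  unfold pt at h
  split_ifs at h with h1 h2
  have h3 := Sum.inr.inj h
  rw [Sigma.mk.injEq] at h3
  obtain ⟨rfl, h4⟩ := h3
  have h5 := eq_of_heq h4
  have h6 : j - 1 = (i : ℕ) := by rw [← h5]
  exact ⟨rfl, by omega⟩

private theorem pt_inl {V E : Type} (P : E → V × V) (c : E → ℕ) (e : E) (v : V) {j : ℕ}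
    (h : pt P c e j = Sum.inl v) : j = 0 ∨ c e < j := by
  unfold pt at h
  split_ifs at h with h1 h2
  · exact Or.inl h1
  · right
    omega

private theorem nb_inr {V E : Type} (φ : E → V × V) {a m : ℕ} (e : E × Fin m) (i : Fin a) (x : VA V E a m)
    (h : nb (gadA φ a m) (Sum.inr ⟨e, i⟩) x) :
    x = pt (thk φ m) (fun _ => a) e i ∨ x = pt (thk φ m) (fun _ => a) e (i + 2) := by
  obtain ⟨g, h | h⟩ := h
  · unfold gadA fat at h
    rw [Prod.mk.injEq] at h
    obtain ⟨h1, h2⟩ := pt_inj _ _ _ _ _ h.1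
    right
    rw [← h.2, h1, h2]
  · unfold gadA fat at h
    rw [Prod.mk.injEq] at h
    obtain ⟨h1, h2⟩ := pt_inj _ _ _ _ _ h.2
    left
    have h3 : (g.1.2 : ℕ) = i := by omega
    rw [← h.1, h1, h3]

private theorem nb_inl {V E : Type} (φ : E → V × V) {a m : ℕ} (ha : 1 ≤ a) (v : V) (x : VA V E a m)
    (h : nb (gadA φ a m) (Sum.inl v) x) : ∃ (e : E × Fin m) (i : Fin a), x = Sum.inr ⟨e, i⟩ := by
  obtain ⟨g, h | h⟩ := h
  · unfold gadA fat at h
    rw [Prod.mk.injEq] at h
    have h2 := g.1.2.2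
    have h1 : (g.1.2 : ℕ) = 0 := by
      rcases pt_inl _ _ _ _ h.1 with h1 | h1
      · exact h1
      · simp only at h1
        omega
    refine ⟨g.1.1, ⟨0, ha⟩, ?_⟩
    rw [← h.2, h1]
    exact pt_in (thk φ m) (fun _ => a) g.1.1 (i := 0) ha
  · unfold gadA fat at h
    rw [Prod.mk.injEq] at h
    have h2 := g.1.2.2
    have h1 : (g.1.2 : ℕ) = a - 1 + 1 := by
      rcases pt_inl _ _ _ _ h.2 with h1 | h1
      · omega
      · simp only at h1
        omega
    refine ⟨g.1.1, ⟨a - 1, by omega⟩, ?_⟩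
    rw [← h.1, h1]
    exact pt_in (thk φ m) (fun _ => a) g.1.1 (i := a - 1) (by show a - 1 < a; omega)

theorem gir_a {V E : Type} (φ : E → V × V) {a m : ℕ} (ha : 1 ≤ a) (U : Finset (VA V E a m)) (hU : U.Nonempty)
    (h : ∀ u ∈ U, ∃ v ∈ U, ∃ w ∈ U, v ≠ w ∧ nb (gadA φ a m) u v ∧ nb (gadA φ a m) u w) : a < U.card := by
  classical
  -- an inner vertex
  obtain ⟨e, i, hei⟩ : ∃ (e : E × Fin m) (i : Fin a), (Sum.inr ⟨e, i⟩ : VA V E a m) ∈ U := by
    obtain ⟨u, hu⟩ := hU
    rcases u with v | ⟨e, i⟩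
    · obtain ⟨x, hx, _, _, _, h1, _⟩ := h _ hu
      obtain ⟨e, i, rfl⟩ := nb_inl φ ha v x h1
      exact ⟨e, i, hx⟩
    · exact ⟨e, i, hu⟩
  have hboth : ∀ i : Fin a, (Sum.inr ⟨e, i⟩ : VA V E a m) ∈ U →
      pt (thk φ m) (fun _ => a) e i ∈ U ∧ pt (thk φ m) (fun _ => a) e (i + 2) ∈ U := by
    intro i hi
    obtain ⟨x, hx, y, hy, hxy, h1, h2⟩ := h _ hi
    rcases nb_inr φ e i x h1 with h3 | h3 <;> rcases nb_inr φ e i y h2 with h4 | h4
    · exact absurd (h3.trans h4.symm) hxy
    · exact ⟨h3 ▸ hx, h4 ▸ hy⟩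
    · exact ⟨h4 ▸ hy, h3 ▸ hx⟩
    · exact absurd (h3.trans h4.symm) hxy
  have hstep : ∀ j, 1 ≤ j → j ≤ a → pt (thk φ m) (fun _ => a) e j ∈ U →
      pt (thk φ m) (fun _ => a) e (j - 1) ∈ U ∧ pt (thk φ m) (fun _ => a) e (j + 1) ∈ U := by
    intro j hj1 hj2 hj
    obtain ⟨k, rfl⟩ : ∃ k, j = k + 1 := ⟨j - 1, by omega⟩
    have hk : k < a := by omega
    have h1 := hboth ⟨k, hk⟩ (by
      have := pt_in (thk φ m) (fun _ => a) e (i := k) hk
      rw [← this]
      exact hj)
    simp only at h1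
    refine ⟨?_, ?_⟩
    · rw [Nat.add_sub_cancel]
      exact h1.1
    · exact h1.2
  have hi1 : pt (thk φ m) (fun _ => a) e (i + 1) ∈ U := by
    rw [pt_in (thk φ m) (fun _ => a) e (i := (i : ℕ)) i.2]
    exact hei
  have hdown : ∀ d : ℕ, d ≤ (i : ℕ) + 1 → pt (thk φ m) (fun _ => a) e ((i : ℕ) + 1 - d) ∈ U := by
    intro d
    induction d with
    | zero => intro _; exact hi1
    | succ d ih =>
      intro hd
      have h1 := ih (by omega)
      have h2 := (hstep _ (by omega) (by have := i.2; omega) h1).1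
      rwa [Nat.sub_sub] at h2
  have hup : ∀ d : ℕ, (i : ℕ) + 1 + d ≤ a + 1 → pt (thk φ m) (fun _ => a) e ((i : ℕ) + 1 + d) ∈ U := by
    intro d
    induction d with
    | zero => intro _; exact hi1
    | succ d ih =>
      intro hd
      have h1 := ih (by omega)
      exact (hstep _ (by omega) (by omega) h1).2
  have hall : ∀ j, j ≤ a → pt (thk φ m) (fun _ => a) e j ∈ U := by
    intro j hj
    rcases le_total j ((i : ℕ) + 1) with h1 | h1
    · have h2 := hdown ((i : ℕ) + 1 - j) (by omega)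
      rwa [Nat.sub_sub_self h1] at h2
    · have h2 := hup (j - ((i : ℕ) + 1)) (by omega)
      rwa [Nat.add_sub_cancel' h1] at h2
  have hcard : (Finset.range (a + 1)).card ≤ U.card := by
    refine Finset.card_le_card_of_injOn (fun j => pt (thk φ m) (fun _ => a) e j) ?_ ?_
    · intro j hj
      have hj' : j < a + 1 := by simpa using hj
      exact hall j (by omega)
    · intro j hj k hk hjk
      have hj' : j < a + 1 := by simpa using hj
      have hk' : k < a + 1 := by simpa using hk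
      simp only at hjk
      rcases j with _ | j
      · rcases k with _ | k
        · rfl
        · rw [pt_in (thk φ m) (fun _ => a) e (i := k) (by show k < a; omega)] at hjk
          have := (pt_inj _ _ _ _ _ hjk).2
          simp at this
      · rw [pt_in (thk φ m) (fun _ => a) e (i := j) (by show j < a; omega)] at hjk
        have := (pt_inj _ _ _ _ _ hjk.symm).2
        simp only at this
        exact this.symm
  rw [Finset.card_range] at hcard
  omega

end Pool.Agent.Work.MP_63853a_lc.HF
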