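import Pool.Agent.Work.MP_63853a_lc.HF.Defs

set_option autoImplicit false

/-!
# KgC (size S-M)

`f = fun _ => 0`. A set `S` of vertices with an element `u ∈ S` and an element `v ∉ S`: the pairs with one end in `S` are the pairs
`{a, b}`, `a ∈ S`, `b ∉ S`; already the pairs `{u, b}`, `b ∉ S`, and `{a, v}`, `a ∈ S`, are `M - 1` different pairs (every vertex `z`
different from `u`: the pair `{u, z}` if `z ∉ S`, the pair `{z, v}` if `z ∈ S`; injective). `Set.ncard` of the cut at least `M - 1`.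
-/

namespace Pool.Agent.Work.MP_63853a_lc.HF

open Finset Pool.Agent.Work.MP_63853a_lc Pool.Agent.Work.MP_63853a_lc.Tr

private def mkp {M : ℕ} (a b : Fin M) (h : a ≠ b) : Prs M :=
  if hab : a < b then ⟨(a, b), hab⟩ else ⟨(b, a), lt_of_le_of_ne (not_lt.mp hab) (Ne.symm h)⟩

private theorem mkp_mem {M : ℕ} (S : Set (Fin M)) {a b : Fin M} (h : a ≠ b) (ha : a ∈ S) (hb : b ∉ S) :
    ¬ ((kg M (mkp a b h)).1 ∈ S ↔ (kg M (mkp a b h)).2 ∈ S) := by
  unfold mkp kg
  split_ifs with hab
  · simp [ha, hb]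
  · simp [ha, hb]

private theorem mkp_eq {M : ℕ} {a b c d : Fin M} (h : a ≠ b) (h' : c ≠ d) (e : mkp a b h = mkp c d h') :
    (a = c ∧ b = d) ∨ (a = d ∧ b = c) := by
  unfold mkp at e
  split_ifs at e with h1 h2 h2
  all_goals
    have e1 := congrArg (fun p : Prs M => p.1.1) e
    have e2 := congrArg (fun p : Prs M => p.1.2) e
    simp only at e1 e2
    subst e1 e2
    simp

theorem kg_classes {M : ℕ} (hM : 1 ≤ M) : Classes (kg M) ((M : ℝ) - 1) 1 := by
  classical
  refine ⟨fun _ => 0, ?_⟩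
  rintro S ⟨u, hu, v, hv, -⟩
  have huv : u ≠ v := fun h => hv (h ▸ hu)
  let g : {z : Fin M // z ≠ u} → Prs M := fun z =>
    if hz : z.1 ∈ S then mkp z.1 v (fun h => hv (h ▸ hz)) else mkp u z.1 (Ne.symm z.2)
  have hg : Function.Injective g := by
    rintro ⟨z, hz⟩ ⟨w, hw⟩ e
    simp only [g] at e
    apply Subtype.ext
    show z = w
    split_ifs at e with h1 h2 h2
    · rcases mkp_eq _ _ e with h | h
      · exact h.1
      · exact absurd (h.2 ▸ h2 : v ∈ S) hv
    · rcases mkp_eq _ _ e with h | h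
      · exact absurd h.1 hz
      · exact absurd h.2.symm huv
    · rcases mkp_eq _ _ e with h | h
      · exact absurd h.1.symm hw
      · exact absurd h.1 huv
    · rcases mkp_eq _ _ e with h | h
      · exact h.2
      · exact absurd h.2 hz
  have hr : Set.range g ⊆ {e : Prs M | ¬ ((kg M e).1 ∈ S ↔ (kg M e).2 ∈ S)} := by
    rintro _ ⟨⟨z, hz⟩, rfl⟩
    simp only [g, Set.mem_ofPred_eq]
    split_ifs with h1
    · exact mkp_mem S _ h1 hv
    · exact mkp_mem S _ hu h1
  have hc : Fintype.card {z : Fin M // z ≠ u} = M - 1 := by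
    rw [Fintype.card_subtype_compl]
    simp
  have h1 : (Set.range g).ncard = M - 1 := by
    rw [← hc, ← Nat.card_coe_set_eq, Nat.card_range_of_injective hg, Nat.card_eq_fintype_card]
  have h2 : M - 1 ≤ cut (kg M) S := by
    rw [← h1]
    exact Set.ncard_le_ncard hr (Set.toFinite _)
  have h3 : ((M - 1 : ℕ) : ℝ) ≤ (cut (kg M) S : ℝ) := by exact_mod_cast h2
  rw [Nat.cast_sub hM] at h3
  simpa using h3

end Pool.Agent.Work.MP_63853a_lc.HF
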