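import Pool.Agent.Work.MP_63853a_lc.HF.Defs
import Pool.Agent.Work.MP_63853a_lc.HF.KgC
import Pool.Agent.Work.MP_63853a_lc.Moment
import Pool.Agent.Work.MP_63853a_lc.KBasic

set_option autoImplicit false

/-!
# KgZ (size M)

`T = log y`, `1 - exp (-T) = 1 - 1 / y`, `wt (1 - 1 / y) A = (y - 1) ^ A.card / y ^ card (Prs M)`. `moment` for `kg M`, `c = M - 1`,
`m = 1` (`kg_classes`): `∑ A, wt A * Q ^ (kk A - 1) ≤ (1 + (Q - 1) β) ^ (M - 1)` for every `Q ≥ 1`, `β = exp (-((M - 1) T / 2))`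
(integer exponents; `kk ≥ 1` because `M ≥ 1`: `kk_pos`). Multiply by `y ^ card (Prs M)`.
`kg_upper`: `Q = q`, times `q`. `kg_lower`: `Q = 2`: `2 ^ (kk A - 1) ≥ 1 + (if kk A = 1 then 0 else 1) = 2 - (if kk A = 1 then 1 else 0)`,
and `∑ A, (y - 1) ^ A.card = y ^ card (Prs M)` (`Fintype.sum_pow_mul_eq_add_pow`), so
`2 y ^ card - ∑ A with kk A = 1 ≤ y ^ card * (1 + β) ^ (M - 1)`.
-/

namespace Pool.Agent.Work.MP_63853a_lc.HF

open Finset Pool.Agent.Work.MP_63853a_lc Pool.Agent.Work.MP_63853a_lc.Tr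

private theorem kgz_wt {n k : ℕ} (hk : k ≤ n) {y : ℝ} (hy : 1 < y) :
    y ^ n * ((1 - y⁻¹) ^ k * (1 - (1 - y⁻¹)) ^ (n - k)) = (y - 1) ^ k := by
  have hy0 : y ≠ 0 := by linarith
  have h1 : y ^ n = y ^ k * y ^ (n - k) := by rw [← pow_add, Nat.add_sub_cancel' hk]
  have h2 : y * (1 - y⁻¹) = y - 1 := by
    rw [mul_sub, mul_one, mul_inv_cancel₀ hy0]
  have h3 : y * (1 - (1 - y⁻¹)) = 1 := by
    rw [sub_sub_cancel, mul_inv_cancel₀ hy0]
  calc y ^ n * ((1 - y⁻¹) ^ k * (1 - (1 - y⁻¹)) ^ (n - k))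
      = (y * (1 - y⁻¹)) ^ k * (y * (1 - (1 - y⁻¹))) ^ (n - k) := by
        rw [h1, mul_pow, mul_pow]
        ring
    _ = (y - 1) ^ k := by rw [h2, h3, one_pow, mul_one]

private theorem kgz_base {M : ℕ} (hM : 1 ≤ M) {q y : ℝ} (hq : 1 ≤ q) (hy : 1 < y) :
    ∑ A : Finset (Prs M), (y - 1) ^ A.card * q ^ (kk (kg M) A - 1) ≤
      y ^ Fintype.card (Prs M) *
        (1 + (q - 1) * Real.exp (-(((M : ℝ) - 1) * Real.log y / 2))) ^ (M - 1) := by
  have hne : Nonempty (Fin M) := ⟨⟨0, hM⟩⟩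
  have hy0 : 0 < y := by linarith
  have hM' : (0 : ℝ) ≤ (M : ℝ) - 1 := by
    have : (1 : ℝ) ≤ (M : ℝ) := by exact_mod_cast hM
    linarith
  have h := moment (kg M) hM' hq (Real.log_nonneg hy.le) (kg_classes hM)
  have h1 : ∀ A : Finset (Prs M), q ^ ((kk (kg M) A : ℤ) - (1 : ℕ)) =
      q ^ (kk (kg M) A - 1) := by
    intro A
    have h2 := kk_pos (kg M) A
    rw [← zpow_natCast, Nat.cast_sub h2]
  have h3 : ((Fintype.card (Fin M) : ℤ) - (1 : ℕ)) = ((M - 1 : ℕ) : ℤ) := by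
    rw [Fintype.card_fin, Nat.cast_sub hM]
  rw [h3, zpow_natCast, Real.exp_neg, Real.exp_log hy0] at h
  have h4 := mul_le_mul_of_nonneg_left h (pow_pos hy0 (Fintype.card (Prs M))).le
  refine le_trans (le_of_eq ?_) h4
  rw [mul_sum]
  refine sum_congr rfl fun A _ => ?_
  rw [h1, wt, ← mul_assoc, kgz_wt (card_le_univ A) hy]

theorem kg_upper {M : ℕ} (hM : 1 ≤ M) {q y : ℝ} (hq : 1 ≤ q) (hy : 1 < y) :
    zz (kg M) q (fun _ => y - 1) ≤ q * y ^ Fintype.card (Prs M) *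
      (1 + (q - 1) * Real.exp (-(((M : ℝ) - 1) * Real.log y / 2))) ^ (M - 1) := by
  have hne : Nonempty (Fin M) := ⟨⟨0, hM⟩⟩
  have h := mul_le_mul_of_nonneg_left (kgz_base hM hq hy) (by linarith : (0 : ℝ) ≤ q)
  rw [← mul_assoc] at h
  refine le_trans (le_of_eq ?_) h
  rw [zz, mul_sum]
  refine sum_congr rfl fun A _ => ?_
  have h2 := kk_pos (kg M) A
  obtain ⟨j, hj⟩ := Nat.exists_eq_add_of_le h2
  rw [prod_const, hj, Nat.add_sub_cancel_left]
  ring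

theorem kg_lower {M : ℕ} (hM : 1 ≤ M) {y : ℝ} (hy : 1 < y) :
    y ^ Fintype.card (Prs M) * (2 - (1 + Real.exp (-(((M : ℝ) - 1) * Real.log y / 2))) ^ (M - 1)) ≤
      ∑ A : Finset (Prs M), if kk (kg M) A = 1 then (y - 1) ^ A.card else 0 := by
  have hne : Nonempty (Fin M) := ⟨⟨0, hM⟩⟩
  have h := kgz_base hM (q := 2) (by norm_num) hy
  have h1 : ∑ A : Finset (Prs M), (y - 1) ^ A.card = y ^ Fintype.card (Prs M) := by
    have h2 := Fintype.sum_pow_mul_eq_add_pow (Prs M) (y - 1) (1 : ℝ)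
    simp only [one_pow, mul_one, sub_add_cancel] at h2
    exact h2
  have h3 : ∀ A : Finset (Prs M), 2 * (y - 1) ^ A.card -
      (if kk (kg M) A = 1 then (y - 1) ^ A.card else 0) ≤
        (y - 1) ^ A.card * 2 ^ (kk (kg M) A - 1) := by
    intro A
    have hp : 0 ≤ (y - 1) ^ A.card := pow_nonneg (by linarith) _
    have h4 := kk_pos (kg M) A
    by_cases h5 : kk (kg M) A = 1
    · rw [if_pos h5, h5]
      norm_num
      linarith
    · rw [if_neg h5, sub_zero, mul_comm]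
      refine mul_le_mul_of_nonneg_left ?_ hp
      have h6 : (2 : ℝ) ^ 1 ≤ 2 ^ (kk (kg M) A - 1) :=
        pow_le_pow_right₀ (by norm_num) (by omega)
      linarith
  have h7 := sum_le_sum fun (A : Finset (Prs M)) (_ : A ∈ univ) => h3 A
  rw [sum_sub_distrib, ← mul_sum, h1] at h7
  have h8 : (1 + ((2 : ℝ) - 1) * Real.exp (-(((M : ℝ) - 1) * Real.log y / 2))) =
      1 + Real.exp (-(((M : ℝ) - 1) * Real.log y / 2)) := by ring
  rw [h8] at h
  linarith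

end Pool.Agent.Work.MP_63853a_lc.HF
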