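import Pool.Agent.Work.MP_63853a_lc.HF.AsmD
import Pool.Agent.Work.MP_63853a_lc.KBasic

set_option autoImplicit false

/-!
# KkLo (size S-M)

The map `(v, i) ↦ v` induces a map from the components of `asm φ M A B` to the components of `B` (an edge of a clique does not
change `v`, an edge `e ∈ B` is an edge of `nl φ`); it is surjective as `M ≥ 1`. `Nat.card_le_card_of_surjective`.
-/

namespace Pool.Agent.Work.MP_63853a_lc.HF

open Finset Pool.Agent.Work.MP_63853a_lc Pool.Agent.Work.MP_63853a_lc.Tr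

theorem kk_lo {V E : Type} [Fintype V] [Fintype E] (φ : E → V × V) {M : ℕ} (hM : 1 ≤ M) (α : E ⊕ E → Fin M)
    (A : V → Finset (Prs M)) (B : Finset (NL φ)) :
    kk (nl φ) B ≤ kk (gadB φ M α) (asm φ M A B) := by
  have hfin : Finite (Cl (gadB φ M α) (asm φ M A B)) := Quot.finite _
  refine Nat.card_le_card_of_surjective
    (Quot.lift (fun w : V × Fin M => cls (nl φ) B w.1) (by
      rintro ⟨u, i⟩ ⟨v, j⟩ ⟨e, he, huv⟩
      rcases e with w | e
      · have h1 : w.1 = u := congrArg (fun p => p.1.1) huv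
        have h2 : w.1 = v := congrArg (fun p => p.2.1) huv
        change cls (nl φ) B u = cls (nl φ) B v
        rw [← h1, ← h2]
      · have h1 : (φ e.1).1 = u := congrArg (fun p => p.1.1) huv
        have h2 : (φ e.1).2 = v := congrArg (fun p => p.2.1) huv
        exact Quot.sound ⟨e, (mem_asm_inr φ).1 he, Prod.ext h1 h2⟩) :
      Cl (gadB φ M α) (asm φ M A B) → Cl (nl φ) B) ?_
  rintro ⟨v⟩
  exact ⟨cls (gadB φ M α) (asm φ M A B) (v, ⟨0, hM⟩), rfl⟩

end Pool.Agent.Work.MP_63853a_lc.HF
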