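import Pool.Agent.Work.MP_63853a_lc.HF.AsmD
import Pool.Agent.Work.MP_63853a_lc.KBasic

set_option autoImplicit false

/-!
# KkUp (size M-L)

Write `ψ = gadB φ M α`. (1) For every `v` there is `F v : Finset (Prs M)` with `kk (kg M) (A v ∪ F v) = 1` and
`(F v).card + 1 ≤ kk (kg M) (A v)`: induction on `kk (kg M) (A v)`: if it is more than one there are two different components,
vertices `i`, `j` in them, and the pair `{i, j}` is `Cross`; adding it lowers `kk` by one (`kk_insert_cross`).
(2) `kk ψ (asm A B) ≤ kk ψ (asm (A ∪ F) B) + ∑ v, (F v).card` (adding one edge lowers `kk` by at most one: `kk_insert_eq`,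
`kk_insert_cross`; induction over the added set). (3) `kk ψ (asm (A ∪ F) B) ≤ kk (nl φ) B`: the map from the components of `B` to
those of `asm (A ∪ F) B`, `v ↦ (v, 0)`, is well defined (all `(v, i)` with the same `v` are connected because
`kk (kg M) (A v ∪ F v) = 1`: transport the `Quot` equality for `kg M` along `i ↦ (v, i)`; an edge `e ∈ B` joins `(v, α ..)` and
`(v', α ..)`) and surjective. (4) Add: `kk ψ (asm A B) + card V ≤ kk (nl φ) B + ∑ v, ((F v).card + 1) ≤ ..`.
-/

namespace Pool.Agent.Work.MP_63853a_lc.HF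

open Finset Pool.Agent.Work.MP_63853a_lc Pool.Agent.Work.MP_63853a_lc.Tr

private theorem kkup_cross {V E : Type} [Finite V] [inst : DecidableEq E] (φ : E → V × V) {A : Finset E} {e : E}
    (he : Cross φ A e) : kk φ (insert e A) + 1 = kk φ A := by
  have h := Subsingleton.elim inst (fun a b => Classical.propDecidable (a = b))
  subst h
  exact kk_insert_cross φ he

private theorem kkup_eq {V E : Type} [inst : DecidableEq E] (φ : E → V × V) {A : Finset E} {e : E}
    (he : ¬ Cross φ A e) : kk φ (insert e A) = kk φ A := by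
  have h := Subsingleton.elim inst (fun a b => Classical.propDecidable (a = b))
  subst h
  exact kk_insert_eq φ he

private theorem kkup_conn {M : ℕ} (hM : 1 ≤ M) : ∀ (n : ℕ) (A : Finset (Prs M)), kk (kg M) A = n →
    ∃ F : Finset (Prs M), kk (kg M) (A ∪ F) = 1 ∧ F.card + 1 ≤ n := by
  have hne : Nonempty (Fin M) := ⟨⟨0, hM⟩⟩
  intro n
  induction n using Nat.strong_induction_on with
  | _ n ih =>
    intro A hA
    have h1 : 1 ≤ kk (kg M) A := kk_pos (kg M) A
    by_cases h2 : kk (kg M) A = 1
    · exact ⟨∅, by rw [union_empty, h2], by rw [card_empty]; omega⟩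
    · have hfin : Finite (Cl (kg M) A) := Quot.finite _
      have h3 : 1 < Nat.card (Cl (kg M) A) := by
        have : kk (kg M) A = Nat.card (Cl (kg M) A) := rfl
        omega
      have h3' : Nontrivial (Cl (kg M) A) := Finite.one_lt_card_iff_nontrivial.1 h3
      obtain ⟨⟨i⟩, ⟨j⟩, hij⟩ := exists_pair_ne (Cl (kg M) A)
      have hij' : cls (kg M) A i ≠ cls (kg M) A j := hij
      have hne' : i ≠ j := fun h => hij' (by rw [h])
      obtain ⟨p, hp⟩ : ∃ p : Prs M, Cross (kg M) A p := by
        rcases lt_or_gt_of_ne hne' with h | h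
        · exact ⟨⟨(i, j), h⟩, hij'⟩
        · exact ⟨⟨(j, i), h⟩, hij'.symm⟩
      have h4 := kkup_cross (kg M) hp
      obtain ⟨F, hF1, hF2⟩ := ih (kk (kg M) (insert p A)) (by omega) _ rfl
      refine ⟨insert p F, ?_, ?_⟩
      · rw [union_insert, ← insert_union]
        exact hF1
      · have := card_insert_le p F
        omega

private theorem kkup_add {V E : Type} [Fintype V] [DecidableEq E] (ψ : E → V × V) (A F : Finset E) :
    kk ψ A ≤ kk ψ (A ∪ F) + F.card := by
  induction F using Finset.induction_on with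
  | empty => rw [union_empty, card_empty, add_zero]
  | insert e F he ih =>
    rw [union_insert, card_insert_of_notMem he]
    by_cases h : Cross ψ (A ∪ F) e
    · have h1 := kkup_cross ψ h
      omega
    · have h1 := kkup_eq ψ h
      omega

private theorem kkup_all {V E : Type} [Fintype V] [Fintype E] (φ : E → V × V) {M : ℕ} (hM : 1 ≤ M)
    (α : E ⊕ E → Fin M) (A : V → Finset (Prs M)) (B : Finset (NL φ))
    (hA : ∀ v, kk (kg M) (A v) = 1) : kk (gadB φ M α) (asm φ M A B) ≤ kk (nl φ) B := by
  have hcls : ∀ v i j, cls (gadB φ M α) (asm φ M A B) (v, i) =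
      cls (gadB φ M α) (asm φ M A B) (v, j) := by
    intro v i j
    let f : Cl (kg M) (A v) → Cl (gadB φ M α) (asm φ M A B) :=
      Quot.lift (fun i => cls (gadB φ M α) (asm φ M A B) (v, i)) (by
        rintro i j ⟨p, hp, hpij⟩
        refine Quot.sound ⟨Sum.inl (v, p), (mem_asm_inl φ).2 hp, ?_⟩
        have h1 : p.1 = (i, j) := hpij
        change ((v, p.1.1), (v, p.1.2)) = _
        rw [h1])
    have h2 : Subsingleton (Cl (kg M) (A v)) := by
      have h3 : Nat.card (Cl (kg M) (A v)) = 1 := hA v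
      exact (Nat.card_eq_one_iff_unique.1 h3).1
    exact congrArg f (Subsingleton.elim (cls (kg M) (A v) i) (cls (kg M) (A v) j))
  have hfin : Finite (Cl (nl φ) B) := Quot.finite _
  refine Nat.card_le_card_of_surjective
    (Quot.lift (fun v => cls (gadB φ M α) (asm φ M A B) (v, ⟨0, hM⟩)) (by
      rintro u v ⟨e, he, huv⟩
      have h1 : φ e.1 = (u, v) := huv
      have h2 : cls (gadB φ M α) (asm φ M A B) (u, α (.inl e.1)) =
          cls (gadB φ M α) (asm φ M A B) (v, α (.inr e.1)) := by
        refine Quot.sound ⟨Sum.inr e, (mem_asm_inr φ).2 he, ?_⟩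
        change (((φ e.1).1, α (.inl e.1)), ((φ e.1).2, α (.inr e.1))) = _
        rw [h1]
      exact (hcls _ _ _).trans (h2.trans (hcls _ _ _))) :
      Cl (nl φ) B → Cl (gadB φ M α) (asm φ M A B)) ?_
  rintro ⟨⟨v, i⟩⟩
  exact ⟨cls (nl φ) B v, hcls v _ i⟩

theorem kk_up {V E : Type} [Fintype V] [Fintype E] (φ : E → V × V) {M : ℕ} (hM : 1 ≤ M) (α : E ⊕ E → Fin M)
    (A : V → Finset (Prs M)) (B : Finset (NL φ)) :
    kk (gadB φ M α) (asm φ M A B) + Fintype.card V ≤ kk (nl φ) B + ∑ v, kk (kg M) (A v) := by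
  classical
  choose F hF1 hF2 using fun v => kkup_conn hM (kk (kg M) (A v)) (A v) rfl
  have h1 := kkup_add (gadB φ M α) (asm φ M A B) (asm φ M F ∅)
  have h2 : asm φ M A B ∪ asm φ M F ∅ = asm φ M (fun v => A v ∪ F v) B := by
    ext f
    rw [mem_union]
    cases f with
    | inl w => rw [mem_asm_inl, mem_asm_inl, mem_asm_inl, mem_union]
    | inr e =>
      rw [mem_asm_inr, mem_asm_inr, mem_asm_inr]
      simp
  have h3 := kkup_all φ hM α (fun v => A v ∪ F v) B hF1
  rw [h2, asm_card, card_empty, zero_add] at h1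
  have h4 : ∑ v, ((F v).card + 1) ≤ ∑ v, kk (kg M) (A v) := sum_le_sum fun v _ => hF2 v
  rw [sum_add_distrib, sum_const, card_univ, smul_eq_mul, mul_one] at h4
  omega

end Pool.Agent.Work.MP_63853a_lc.HF
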