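import Pool.Agent.Work.MP_63853a_lc.HF.Defs
import Pool.Agent.Work.MP_63853a_lc.KBasic

set_option autoImplicit false

/-!
# LoopZ (size M)

`Finset E ≃ Finset (NL φ) × Finset {e // loop}` (split `A` into its non-loops and its loops). `kk φ A = kk (nl φ) (non-loops of A)`
because a loop generates only reflexive relations (the `Quot` relations generate the same equivalence; or `kk_insert_eq` loop by
loop: a loop is not `Cross`). `∑` over sets of loops of `w ^ card = (1 + w) ^ (number of loops)` (`Fintype.sum_pow_mul_eq_add_pow`), the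
number of loops is `card E - card (NL φ)` (`Fintype.card_subtype_compl`).
-/

namespace Pool.Agent.Work.MP_63853a_lc.HF

open Finset Pool.Agent.Work.MP_63853a_lc Pool.Agent.Work.MP_63853a_lc.Tr

private theorem loopz_kk {V E : Type} (φ : E → V × V)
    [DecidablePred fun e => (φ e).1 ≠ (φ e).2] (A : Finset E) :
    kk φ A = kk (nl φ) (A.subtype fun e => (φ e).1 ≠ (φ e).2) := by
  refine Nat.card_congr
    { toFun := Quot.lift (fun v => cls (nl φ) (A.subtype fun e => (φ e).1 ≠ (φ e).2) v) (by
        rintro u v ⟨e, he, huv⟩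
        by_cases h : u = v
        · rw [h]
        · have h1 : (φ e).1 ≠ (φ e).2 := by
            rw [huv]
            exact h
          exact Quot.sound ⟨⟨e, h1⟩, mem_subtype.2 he, huv⟩)
      invFun := Quot.lift (fun v => cls φ A v) (by
        rintro u v ⟨e, he, huv⟩
        exact Quot.sound ⟨e.1, mem_subtype.1 he, huv⟩)
      left_inv := ?_
      right_inv := ?_ }
  · rintro ⟨v⟩
    rfl
  · rintro ⟨v⟩
    rfl

private theorem loopz_card {V E : Type} (φ : E → V × V)
    [DecidablePred fun e => (φ e).1 ≠ (φ e).2] [DecidablePred fun e => ¬ (φ e).1 ≠ (φ e).2]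
    (A : Finset E) :
    A.card = (A.subtype fun e => (φ e).1 ≠ (φ e).2).card +
      (A.subtype fun e => ¬ (φ e).1 ≠ (φ e).2).card := by
  rw [card_subtype, card_subtype]
  convert (card_filter_add_card_filter_not (s := A) fun e => (φ e).1 ≠ (φ e).2).symm

private theorem loopz_sum {E : Type} [Fintype E] (P : E → Prop) [Fintype {e // P e}]
    [Fintype {e // ¬ P e}] [DecidablePred P] [DecidablePred fun e => ¬ P e] (F : Finset {e // P e} → Finset {e // ¬ P e} → ℝ) :
    ∑ A : Finset E, F (A.subtype P) (A.subtype fun e => ¬ P e) =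
      ∑ B : Finset {e // P e}, ∑ C : Finset {e // ¬ P e}, F B C := by
  classical
  rw [← Fintype.sum_prod_type']
  refine Fintype.sum_equiv
    { toFun := fun A : Finset E => (A.subtype P, A.subtype fun e => ¬ P e)
      invFun := fun p => p.1.map (Function.Embedding.subtype _) ∪
        p.2.map (Function.Embedding.subtype _)
      left_inv := ?_
      right_inv := ?_ } _ _ (fun A => rfl)
  · intro A
    ext e
    simp only [mem_union, mem_map, mem_subtype, Function.Embedding.subtype_apply]
    constructor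
    · rintro (⟨a, ha, rfl⟩ | ⟨a, ha, rfl⟩)
      · exact ha
      · exact ha
    · intro he
      by_cases h : P e
      · exact Or.inl ⟨⟨e, h⟩, he, rfl⟩
      · exact Or.inr ⟨⟨e, h⟩, he, rfl⟩
  · rintro ⟨B, C⟩
    refine Prod.ext ?_ ?_
    · ext ⟨e, he⟩
      simp only [mem_union, mem_map, mem_subtype, Function.Embedding.subtype_apply]
      constructor
      · rintro (⟨a, ha, h⟩ | ⟨a, ha, h⟩)
        · have : a = ⟨e, he⟩ := Subtype.ext h
          rwa [← this]
        · exact absurd he (h ▸ a.2)
      · intro h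
        exact Or.inl ⟨_, h, rfl⟩
    · ext ⟨e, he⟩
      simp only [mem_union, mem_map, mem_subtype, Function.Embedding.subtype_apply]
      constructor
      · rintro (⟨a, ha, h⟩ | ⟨a, ha, h⟩)
        · exact absurd (h ▸ a.2) he
        · have : a = ⟨e, he⟩ := Subtype.ext h
          rwa [← this]
      · intro h
        exact Or.inr ⟨_, h, rfl⟩

theorem zz_loops {V E : Type} [Fintype E] (φ : E → V × V) (q w : ℝ) :
    zz φ q (fun _ => w) = (1 + w) ^ (Fintype.card E - Fintype.card (NL φ)) * zz (nl φ) q (fun _ => w) := by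
  classical
  have h1 : zz φ q (fun _ => w) = ∑ A : Finset E,
      (fun (B : Finset {e // (φ e).1 ≠ (φ e).2}) (C : Finset {e // ¬ (φ e).1 ≠ (φ e).2}) =>
        q ^ kk (nl φ) B * w ^ B.card * w ^ C.card) (A.subtype fun e => (φ e).1 ≠ (φ e).2)
          (A.subtype fun e => ¬ (φ e).1 ≠ (φ e).2) := by
    rw [zz]
    refine sum_congr rfl fun A _ => ?_
    simp only
    rw [prod_const, loopz_kk φ A, mul_assoc, ← pow_add]
    congr 2
    exact loopz_card φ A
  refine (h1.trans (loopz_sum (fun e => (φ e).1 ≠ (φ e).2) (fun B C =>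
    q ^ kk (nl φ) B * w ^ B.card * w ^ C.card))).trans ?_
  have h2 : ∑ C : Finset {e // ¬ (φ e).1 ≠ (φ e).2}, w ^ C.card =
      (1 + w) ^ (Fintype.card E - Fintype.card (NL φ)) := by
    have h3 := Fintype.sum_pow_mul_eq_add_pow {e // ¬ (φ e).1 ≠ (φ e).2} w (1 : ℝ)
    simp only [one_pow, mul_one] at h3
    have h4 : Fintype.card (NL φ) + Fintype.card {e // ¬ (φ e).1 ≠ (φ e).2} =
        Fintype.card E := by
      rw [← Fintype.card_sum]
      exact Fintype.card_congr (Equiv.sumCompl fun e => (φ e).1 ≠ (φ e).2)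
    have h5 : Fintype.card {e // ¬ (φ e).1 ≠ (φ e).2} =
        Fintype.card E - Fintype.card (NL φ) := by omega
    rw [h3, h5, add_comm]
  rw [zz, mul_sum]
  refine sum_congr rfl fun B _ => ?_
  rw [← mul_sum, h2, prod_const, mul_comm]

end Pool.Agent.Work.MP_63853a_lc.HF
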