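import Pool.Agent.Work.MP_63853a_lc.HF.Basic
import Pool.Agent.Work.MP_63853a_lc.Tr.G.GIV
import Pool.Agent.Work.MP_63853a_lc.HF.ScA

set_option autoImplicit false

/-!
# SampI (size M)

`g_four x y hx hy hq |β|` gives `C'`; take `C = 3 * |C'|`. Let `n = card V + card E + 2 ≥ 2`, `s = card V + card E + t.size + 1`;
`n ≤ s` (`t.size ≥ 1`) and `s ≤ 3 n ≤ n ^ 3` (`t.size ≤ 2 card E + 1`, `3 ≤ n ^ 2`). `β * log n ≤ |β| * log n ≤ |β| * log s`.
`s ^ C' ≤ s ^ |C'| ≤ (n ^ 3) ^ |C'| = n ^ C` (`Real.rpow_le_rpow_of_exponent_le`, `Real.rpow_le_rpow`, `Real.rpow_mul`, `s ≥ 1`).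
-/

namespace Pool.Agent.Work.MP_63853a_lc.HF

open Finset Pool.Agent.Work.MP_63853a_lc Pool.Agent.Work.MP_63853a_lc.Tr

private theorem size_pos {E : Type} (t : ETree E) : 1 ≤ t.size := by
  cases t <;> simp [ETree.size]

theorem samp_one (x y : ℝ) (hx : 1 < x) (hy : 1 < y) (hq : 1 ≤ (x - 1) * (y - 1)) (β : ℝ) :
    ∃ C : ℝ, ∀ (V E : Type) [Fintype V] [Fintype E] (φ : E → V × V) (c : V → V),
      (∀ u v, c u = c v ↔ SC φ (2 / Real.log (x / (x - 1)) * Real.log (Fintype.card V)) u v) →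
      ∀ t : ETree E, t.Nodup → t.edges = univ → t.size ≤ 2 * Fintype.card E + 1 →
        (∀ S ∈ t.sets, (lam (quo φ c) S : ℝ) ≤ β * Real.log (Fintype.card V + Fintype.card E + 2 : ℕ)) →
        ∀ ε : ℝ, 0 < ε → ε ≤ 1 →
          ∀ N : ℕ, ((Fintype.card V + Fintype.card E + 2 : ℕ) : ℝ) ^ C / ε ^ 2 ≤ N →
            3 / 4 ≤ tgood φ (quo φ c) x y (fun _ => y - 1) t ε N := by
  obtain ⟨C', hC'⟩ := g_four x y hx hy hq |β|
  refine ⟨3 * |C'|, ?_⟩
  intro V E _ _ φ c hc t ht htu hts hw ε hε hε1 N hN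
  have hsz := size_pos t
  set n : ℕ := Fintype.card V + Fintype.card E + 2 with hn
  have hn2 : 2 ≤ n := by omega
  set s : ℕ := Fintype.card V + Fintype.card E + t.size + 1 with hs
  have hns : n ≤ s := by omega
  have hs3 : s ≤ 3 * n := by omega
  have hs3' : s ≤ n ^ 3 := by
    refine hs3.trans ?_
    have h4 : 4 ≤ n ^ 2 := by nlinarith
    calc 3 * n ≤ n ^ 2 * n := Nat.mul_le_mul_right _ (by omega)
      _ = n ^ 3 := by ring
  have hnr : (2 : ℝ) ≤ n := by exact_mod_cast hn2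
  have hnsr : (n : ℝ) ≤ s := by exact_mod_cast hns
  have hsr : (s : ℝ) ≤ (n : ℝ) ^ 3 := by exact_mod_cast hs3'
  have hlog : Real.log n ≤ Real.log s := Real.log_le_log (by linarith) hnsr
  have hlogn : 0 ≤ Real.log n := Real.log_nonneg (by linarith)
  refine hC' V E φ c t (sc_strong φ hc) ht htu ?_ ε hε hε1 N ?_
  · intro S hS
    refine (hw S hS).trans ?_
    calc β * Real.log n ≤ |β| * Real.log n := mul_le_mul_of_nonneg_right (le_abs_self _) hlogn
      _ ≤ |β| * Real.log s := mul_le_mul_of_nonneg_left hlog (abs_nonneg _)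
  · refine le_trans ?_ hN
    refine div_le_div_of_nonneg_right ?_ (by positivity)
    have h1s : (1 : ℝ) ≤ s := by linarith
    calc (s : ℝ) ^ C' ≤ (s : ℝ) ^ |C'| := Real.rpow_le_rpow_of_exponent_le h1s (le_abs_self _)
      _ ≤ ((n : ℝ) ^ 3) ^ |C'| := Real.rpow_le_rpow (by linarith) hsr (abs_nonneg _)
      _ = (n : ℝ) ^ (3 * |C'|) := by
        rw [← Real.rpow_natCast, ← Real.rpow_mul (by linarith)]
        norm_num

end Pool.Agent.Work.MP_63853a_lc.HF
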