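import Pool.Agent.Work.MP_63853a_lc.HF.Defs
import Pool.Agent.Work.MP_63853a_lc.FK

set_option autoImplicit false

/-!
# ThkZ (size M)

`kk (thk φ m) A = kk φ (A.image Prod.fst)` (the generating relations are the same: `Quot` of equal relations, `funext`,
`propext`). Group the sets `A ⊆ E × Fin m` by their projection `B` (`Finset.sum_fiberwise_of_maps_to` or the equivalence
`Finset (E × Fin m) ≃ (E → Finset (Fin m))`): `∑ A, q ^ kk A * w ^ A.card = ∑ B, q ^ kk φ B * ∏ e ∈ B, (∑ nonempty C ⊆ Fin m, w ^ C.card)`
and `∑ nonempty C, w ^ C.card = (1 + w) ^ m - 1` (`Finset.sum_pow_mul_eq_add_pow`, `Fintype.sum_pow_mul_eq_add_pow`).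
Alternative: with `F : (E → Finset (Fin m))`, `∑ F, q ^ kk φ {e | F e ≠ ∅} * ∏ e, w ^ (F e).card`, and
`Finset.prod_univ_sum` for the function which is `1` or `∑ nonempty`.
-/

namespace Pool.Agent.Work.MP_63853a_lc.HF

open Finset Pool.Agent.Work.MP_63853a_lc Pool.Agent.Work.MP_63853a_lc.Tr

/-- components of the thickened graph -/
private theorem thk_kk {V E : Type} [DecidableEq E] (φ : E → V × V) (m : ℕ)
    (A : Finset (E × Fin m)) : kk (thk φ m) A = kk φ (A.image Prod.fst) := by
  unfold kk
  have h1 : (fun u v : V => ∃ e ∈ A, thk φ m e = (u, v)) =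
      fun u v : V => ∃ e ∈ A.image Prod.fst, φ e = (u, v) := by
    funext u v
    apply propext
    constructor
    · rintro ⟨e, he, h⟩
      exact ⟨e.1, mem_image_of_mem _ he, h⟩
    · rintro ⟨e, he, h⟩
      obtain ⟨a, ha, rfl⟩ := mem_image.1 he
      exact ⟨a, ha, h⟩
  rw [h1]

/-- the sum over the sets of copies of one edge -/
private theorem thk_one (m : ℕ) (w : ℝ) (P : Prop) [Decidable P] :
    ∑ C ∈ (univ : Finset (Finset (Fin m))).filter (fun C => (C.Nonempty ↔ P)), w ^ C.card =
      if P then (1 + w) ^ m - 1 else 1 := by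
  have h0 : ∑ C : Finset (Fin m), w ^ C.card = (1 + w) ^ m := by
    have h1 := Fintype.sum_pow_mul_eq_add_pow (Fin m) w 1
    simp only [one_pow, mul_one, Fintype.card_fin] at h1
    rw [h1, add_comm]
  by_cases hP : P
  · rw [if_pos hP]
    have h2 : (univ : Finset (Finset (Fin m))).filter (fun C => (C.Nonempty ↔ P)) =
        univ.erase ∅ := by
      ext C
      simp [hP, nonempty_iff_ne_empty]
    rw [h2, sum_erase_eq_sub (mem_univ _), h0, card_empty, pow_zero]
  · rw [if_neg hP]
    have h2 : (univ : Finset (Finset (Fin m))).filter (fun C => (C.Nonempty ↔ P)) = {∅} := by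
      ext C
      simp [hP]
    rw [h2, sum_singleton, card_empty, pow_zero]

/-- sets of copies as families of sets -/
private theorem thk_sum {E : Type} [Fintype E] [DecidableEq E] (m : ℕ)
    (f : Finset (E × Fin m) → ℝ) :
    ∑ A, f A = ∑ F : E → Finset (Fin m), f (univ.filter fun a => a.2 ∈ F a.1) := by
  symm
  refine sum_bij' (fun F _ => univ.filter fun a : E × Fin m => a.2 ∈ F a.1)
    (fun A _ e => univ.filter fun i => (e, i) ∈ A) ?_ ?_ ?_ ?_ ?_
  · intro F _
    exact mem_univ _
  · intro A _
    exact mem_univ _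
  · intro F _
    funext e
    ext i
    simp
  · intro A _
    ext a
    simp
  · intro F _
    rfl

theorem zz_thk {V E : Type} [Fintype E] (φ : E → V × V) (m : ℕ) (q w : ℝ) :
    zz (thk φ m) q (fun _ => w) = zz φ q (fun _ => (1 + w) ^ m - 1) := by
  classical
  unfold zz
  rw [thk_sum]
  have h1 : ∀ F : E → Finset (Fin m),
      q ^ kk (thk φ m) (univ.filter fun a : E × Fin m => a.2 ∈ F a.1) *
        ∏ _e ∈ univ.filter (fun a : E × Fin m => a.2 ∈ F a.1), w =
      q ^ kk φ (univ.filter fun e => (F e).Nonempty) * ∏ e, w ^ (F e).card := by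
    intro F
    rw [thk_kk]
    congr 1
    · congr 2
      ext e
      simp only [mem_image, mem_filter, mem_univ, true_and, Prod.exists, exists_and_right,
        exists_eq_right]
      exact Iff.rfl
    · rw [prod_const, prod_pow_eq_pow_sum]
      congr 1
      rw [card_filter, Fintype.sum_prod_type]
      refine sum_congr rfl fun e _ => ?_
      rw [← card_filter]
      congr 1
      ext i
      simp
  rw [sum_congr rfl fun F _ => h1 F]
  rw [← sum_fiberwise (univ : Finset (E → Finset (Fin m)))
    (fun F => univ.filter fun e => (F e).Nonempty)]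
  refine sum_congr rfl fun B _ => ?_
  have h2 : (univ : Finset (E → Finset (Fin m))).filter
      (fun F => (univ.filter fun e => (F e).Nonempty) = B) =
      Fintype.piFinset fun e => (univ : Finset (Finset (Fin m))).filter
        (fun C => (C.Nonempty ↔ e ∈ B)) := by
    ext F
    simp only [mem_filter, mem_univ, true_and, Fintype.mem_piFinset]
    constructor
    · rintro rfl e
      simp
    · intro h
      ext e
      simp [h e]
  have h3 : ∑ F ∈ (univ : Finset (E → Finset (Fin m))).filter
      (fun F => (univ.filter fun e => (F e).Nonempty) = B),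
      q ^ kk φ (univ.filter fun e => (F e).Nonempty) * ∏ e, w ^ (F e).card =
      ∑ F ∈ (univ : Finset (E → Finset (Fin m))).filter
      (fun F => (univ.filter fun e => (F e).Nonempty) = B),
      q ^ kk φ B * ∏ e, w ^ (F e).card := by
    refine sum_congr rfl fun F hF => ?_
    rw [(mem_filter.1 hF).2]
  have h4 := prod_univ_sum (fun e : E => (univ : Finset (Finset (Fin m))).filter
    (fun C => (C.Nonempty ↔ e ∈ B))) (fun (_ : E) (C : Finset (Fin m)) => w ^ C.card)
  rw [h3, ← mul_sum, h2, ← h4]
  congr 1
  rw [prod_congr rfl fun e _ => thk_one m w (e ∈ B)]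
  rw [prod_ite_mem, univ_inter]

end Pool.Agent.Work.MP_63853a_lc.HF
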