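import Pool.Agent.Work.MP_63853a_lc.HF.Defs
import Pool.Agent.Work.MP_63853a_lc.HF.ThkZ
import Pool.Agent.Work.MP_63853a_lc.FatZ
import Pool.Agent.Work.MP_63853a_lc.TutteZ
import Pool.Agent.Work.MP_63853a_lc.Apex

set_option autoImplicit false

/-!
# ScA1 (size M)

`q = (x - 1) * (y - 1) > 0`. `tutte_zz` for `gadA φ a m`: `(x - 1) ^ kk .. * (y - 1) ^ card .. * tutte (gadA φ a m) x y =
zz (gadA φ a m) q (y - 1)`. `fat_weff (thk φ m) (fun _ => a) 1` with `γ = y - 1` (`(1 + γ) ^ 1 - 1 = y - 1`): this is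
`PP (y - 1) (a + 1) q ^ (card E * m) * zz (thk φ m) q (weff (y - 1) (a + 1) q)`, and `zz_thk` gives `zz φ q g`. So
`scA * tutte (gadA) = zz φ q g / D`, `D = (x - 1) ^ kk φ univ * (y - 1) ^ card V`, and `tutte φ x y = zz φ q (y - 1) / D`
(`tutte_zz`). Upper bound: `zz_mono` (`g ≤ y - 1`). Lower bound: `zz φ q (y - 1) ≤ ((y - 1) / g) ^ card E * zz φ q g` (`zz_upper` with
`1 + η = (y - 1) / g`), multiply by `(g / (y - 1)) ^ card E`. `PP_pos`, `D > 0`.
-/

namespace Pool.Agent.Work.MP_63853a_lc.HF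

open Finset Pool.Agent.Work.MP_63853a_lc Pool.Agent.Work.MP_63853a_lc.Tr

private theorem gadA_zz {V E : Type} [Fintype V] [Fintype E] (φ : E → V × V) {q w : ℝ} (hq : 0 < q)
    (hw : 0 < w) (a m : ℕ) :
    zz (gadA φ a m) q (fun _ => w) =
      PP w (a + 1) q ^ (Fintype.card E * m) * zz φ q (fun _ => (1 + weff w (a + 1) q) ^ m - 1) := by
  have h1 := fat_weff (thk φ m) (fun _ => a) 1 le_rfl hq hw
  have h2 : (1 + w) ^ 1 - 1 = w := by ring
  rw [h2, Finset.prod_const, Finset.card_univ, Fintype.card_prod, Fintype.card_fin,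
    zz_thk φ m q (weff w (a + 1) q)] at h1
  exact h1

theorem scA_bounds {V E : Type} [Fintype V] [Fintype E] (φ : E → V × V) {x y : ℝ} (hx : 1 < x) (hy : 1 < y)
    {a m : ℕ} {g : ℝ} (hg : g = (1 + weff (y - 1) (a + 1) ((x - 1) * (y - 1))) ^ m - 1) (hg0 : 0 < g)
    (hg1 : g ≤ y - 1) :
    scA φ x y a m * tutte (gadA φ a m) x y ≤ tutte φ x y ∧
      (g / (y - 1)) ^ Fintype.card E * tutte φ x y ≤ scA φ x y a m * tutte (gadA φ a m) x y := by
  have hx' : 0 < x - 1 := by linarith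
  have hy' : 0 < y - 1 := by linarith
  have hq : 0 < (x - 1) * (y - 1) := mul_pos hx' hy'
  have hP : 0 < PP (y - 1) (a + 1) ((x - 1) * (y - 1)) ^ (Fintype.card E * m) :=
    pow_pos (PP_pos hy' hq _ (by omega)) _
  have hD : 0 < (x - 1) ^ kk φ univ * (y - 1) ^ Fintype.card V :=
    mul_pos (pow_pos hx' _) (pow_pos hy' _)
  have h1 := tutte_zz (gadA φ a m) x y
  rw [gadA_zz φ hq hy' a m, ← hg] at h1
  have h2 := tutte_zz φ x y
  have h3 : scA φ x y a m * tutte (gadA φ a m) x y =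
      zz φ ((x - 1) * (y - 1)) (fun _ => g) / ((x - 1) ^ kk φ univ * (y - 1) ^ Fintype.card V) := by
    unfold scA
    rw [div_mul_eq_mul_div, h1, mul_div_mul_left _ _ hP.ne']
  have h4 : tutte φ x y =
      zz φ ((x - 1) * (y - 1)) (fun _ => y - 1) / ((x - 1) ^ kk φ univ * (y - 1) ^ Fintype.card V) := by
    rw [eq_div_iff hD.ne', ← h2]
    ring
  have h5 : zz φ ((x - 1) * (y - 1)) (fun _ => g) ≤ zz φ ((x - 1) * (y - 1)) (fun _ => y - 1) :=
    zz_mono φ hq.le (fun _ => g) (fun _ => y - 1) (fun _ => hg0.le) (fun _ => hg1)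
  have h6 : 0 ≤ (y - 1) / g - 1 := by
    rw [sub_nonneg, one_le_div hg0]
    exact hg1
  have h7 : zz φ ((x - 1) * (y - 1)) (fun _ => y - 1) ≤
      (1 + ((y - 1) / g - 1)) ^ Fintype.card E * zz φ ((x - 1) * (y - 1)) (fun _ => g) := by
    refine zz_upper φ hq.le h6 (fun _ => g) (fun _ => y - 1) (fun _ => hg0.le) (fun _ => hy'.le)
      (fun _ => ?_)
    have h8 : (1 + ((y - 1) / g - 1)) * g = y - 1 := by
      field_simp
      ring
    rw [h8]
  rw [h3, h4]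
  refine ⟨div_le_div_of_nonneg_right h5 hD.le, ?_⟩
  rw [mul_div_assoc']
  refine div_le_div_of_nonneg_right ?_ hD.le
  have h9 : 0 ≤ (g / (y - 1)) ^ Fintype.card E := pow_nonneg (div_nonneg hg0.le hy'.le) _
  refine (mul_le_mul_of_nonneg_left h7 h9).trans (le_of_eq ?_)
  rw [← mul_assoc, ← mul_pow]
  have h10 : g / (y - 1) * (1 + ((y - 1) / g - 1)) = 1 := by
    field_simp
    ring
  rw [h10, one_pow, one_mul]

end Pool.Agent.Work.MP_63853a_lc.HF
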