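import Pool.Agent.Work.MP_63853a_lc.HF.AsmD
import Pool.Agent.Work.MP_63853a_lc.HF.KkLo

set_option autoImplicit false

/-!
# ZBlo (size M)

`asm_sum`: `zz (gadB φ M α) q w = ∑ A, ∑ B, q ^ kk (asm A B) * w ^ (asm A B).card`. Keep only the `A` with `kk (kg M) (A v) = 1` for all
`v` (all terms are nonnegative) and use `kk_lo`, `q ≥ 1`: `q ^ kk (nl φ) B ≤ q ^ kk (asm A B)`. The result is
`(∑ B, q ^ kk (nl φ) B * w ^ B.card) * ∑ A, ∏ v, (if kk (kg M) (A v) = 1 then w ^ (A v).card else 0)`, the second factor is the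
power (`Finset.prod_univ_sum`).
-/

namespace Pool.Agent.Work.MP_63853a_lc.HF

open Finset Pool.Agent.Work.MP_63853a_lc Pool.Agent.Work.MP_63853a_lc.Tr

theorem zb_lo {V E : Type} [Fintype V] [Fintype E] (φ : E → V × V) {M : ℕ} (hM : 1 ≤ M) (α : E ⊕ E → Fin M)
    {q w : ℝ} (hq : 1 ≤ q) (hw : 0 ≤ w) :
    zz (nl φ) q (fun _ => w) *
      (∑ A : Finset (Prs M), if kk (kg M) A = 1 then w ^ A.card else 0) ^ Fintype.card V ≤
      zz (gadB φ M α) q (fun _ => w) := by
  classical
  have hq0 : 0 ≤ q := le_trans zero_le_one hq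
  have e1 : zz (gadB φ M α) q (fun _ => w) = ∑ A : V → Finset (Prs M), ∑ B : Finset (NL φ),
      q ^ kk (gadB φ M α) (asm φ M A B) * w ^ (asm φ M A B).card := by
    unfold zz
    rw [show (∑ S : Finset (EB φ M), q ^ kk (gadB φ M α) S * ∏ e ∈ S, w) =
      ∑ S : Finset (EB φ M), q ^ kk (gadB φ M α) S * w ^ S.card from
        Finset.sum_congr rfl fun S _ => by rw [Finset.prod_const]]
    exact asm_sum φ M fun S => q ^ kk (gadB φ M α) S * w ^ S.card
  have e2 : zz (nl φ) q (fun _ => w) = ∑ B : Finset (NL φ), q ^ kk (nl φ) B * w ^ B.card := by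
    unfold zz
    exact Finset.sum_congr rfl fun S _ => by rw [Finset.prod_const]
  have e3 : (∑ A : Finset (Prs M), if kk (kg M) A = 1 then w ^ A.card else 0) ^ Fintype.card V =
      ∑ A : V → Finset (Prs M), ∏ v, (if kk (kg M) (A v) = 1 then w ^ (A v).card else 0) := by
    have h1 := Finset.prod_univ_sum (fun _ : V => (Finset.univ : Finset (Finset (Prs M))))
      (fun (_ : V) (A : Finset (Prs M)) => if kk (kg M) A = 1 then w ^ A.card else 0)
    rw [Finset.prod_const, Finset.card_univ, Fintype.piFinset_univ] at h1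
    exact h1
  rw [e1, e2, e3, mul_comm, Finset.sum_mul]
  refine Finset.sum_le_sum fun A _ => ?_
  rw [Finset.mul_sum]
  refine Finset.sum_le_sum fun B _ => ?_
  have hterm : 0 ≤ q ^ kk (gadB φ M α) (asm φ M A B) * w ^ (asm φ M A B).card := by positivity
  by_cases hA : ∀ v, kk (kg M) (A v) = 1
  · have h2 : (∏ v, (if kk (kg M) (A v) = 1 then w ^ (A v).card else 0)) = w ^ ∑ v, (A v).card := by
      rw [← Finset.prod_pow_eq_pow_sum]
      exact Finset.prod_congr rfl fun v _ => if_pos (hA v)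
    rw [h2, asm_card]
    have h3 : q ^ kk (nl φ) B ≤ q ^ kk (gadB φ M α) (asm φ M A B) :=
      pow_le_pow_right₀ hq (kk_lo φ hM α A B)
    calc (w ^ ∑ v, (A v).card) * (q ^ kk (nl φ) B * w ^ B.card) =
        q ^ kk (nl φ) B * w ^ (B.card + ∑ v, (A v).card) := by rw [pow_add]; ring
      _ ≤ q ^ kk (gadB φ M α) (asm φ M A B) * w ^ (B.card + ∑ v, (A v).card) :=
        mul_le_mul_of_nonneg_right h3 (pow_nonneg hw _)
  · push Not at hA
    obtain ⟨v, hv⟩ := hA
    have h2 : (∏ v, (if kk (kg M) (A v) = 1 then w ^ (A v).card else 0)) = 0 :=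
      Finset.prod_eq_zero (Finset.mem_univ v) (if_neg hv)
    rw [h2, zero_mul]
    exact hterm

end Pool.Agent.Work.MP_63853a_lc.HF
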