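import Pool.Agent.Work.MP_63853a_lc.HF.AsmD
import Pool.Agent.Work.MP_63853a_lc.HF.KkUp

set_option autoImplicit false

/-!
# ZBup (size M)

Every set of edges of `gadB` is `asm φ M A B` for exactly one `(A, B)` (`asm_sum` in `AsmD`: the sum over all edge sets is the sum over
`A`, `B`; `asm_card`). `q ^ card V * q ^ kk (asm A B) ≤ q ^ kk (nl φ) B * ∏ v, q ^ kk (kg M) (A v)` by `kk_up` (`q ≥ 1`), and
`w ^ (asm A B).card = w ^ B.card * ∏ v, w ^ (A v).card`. Sum: `∑ A, ∏ v, f (A v) = (∑ f) ^ card V` (`Finset.prod_univ_sum`,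
`Fintype.sum_pow` or `Finset.prod_const`).
-/

namespace Pool.Agent.Work.MP_63853a_lc.HF

open Finset Pool.Agent.Work.MP_63853a_lc Pool.Agent.Work.MP_63853a_lc.Tr

theorem zb_up {V E : Type} [Fintype V] [Fintype E] (φ : E → V × V) {M : ℕ} (hM : 1 ≤ M) (α : E ⊕ E → Fin M)
    {q w : ℝ} (hq : 1 ≤ q) (hw : 0 ≤ w) :
    q ^ Fintype.card V * zz (gadB φ M α) q (fun _ => w) ≤
      zz (nl φ) q (fun _ => w) * zz (kg M) q (fun _ => w) ^ Fintype.card V := by
  classical
  have hq0 : 0 ≤ q := by linarith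
  have h1 : zz (gadB φ M α) q (fun _ => w) = ∑ A : V → Finset (Prs M), ∑ B : Finset (NL φ),
      q ^ kk (gadB φ M α) (asm φ M A B) * w ^ (asm φ M A B).card := by
    unfold zz
    simp only [Finset.prod_const]
    have h0 := asm_sum φ M (fun S => q ^ kk (gadB φ M α) S * w ^ S.card)
    rw [← h0]
  have h2 : zz (kg M) q (fun _ => w) ^ Fintype.card V =
      ∑ A : V → Finset (Prs M), ∏ v, (q ^ kk (kg M) (A v) * w ^ (A v).card) := by
    have h3 : zz (kg M) q (fun _ => w) = ∑ A : Finset (Prs M), q ^ kk (kg M) A * w ^ A.card := by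
      unfold zz
      simp only [Finset.prod_const]
    rw [h3]
    have h4 := Finset.prod_univ_sum (fun _ : V => (Finset.univ : Finset (Finset (Prs M))))
      (fun (_ : V) (A : Finset (Prs M)) => q ^ kk (kg M) A * w ^ A.card)
    rw [Finset.prod_const, Finset.card_univ, Fintype.piFinset_univ] at h4
    exact h4
  rw [h1, h2]
  have h5 : zz (nl φ) q (fun _ => w) = ∑ B : Finset (NL φ), q ^ kk (nl φ) B * w ^ B.card := by
    unfold zz
    simp only [Finset.prod_const]
  rw [h5, Finset.sum_mul_sum, Finset.sum_comm (s := (univ : Finset (Finset (NL φ)))), Finset.mul_sum]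
  refine Finset.sum_le_sum fun A _ => ?_
  rw [Finset.mul_sum]
  refine Finset.sum_le_sum fun B _ => ?_
  have h6 : q ^ Fintype.card V * q ^ kk (gadB φ M α) (asm φ M A B) ≤
      q ^ kk (nl φ) B * ∏ v, q ^ kk (kg M) (A v) := by
    rw [Finset.prod_pow_eq_pow_sum, ← pow_add, ← pow_add]
    refine pow_le_pow_right₀ hq ?_
    have := kk_up φ hM α A B
    omega
  have h7 : w ^ (asm φ M A B).card = w ^ B.card * ∏ v, w ^ (A v).card := by
    rw [asm_card, pow_add, Finset.prod_pow_eq_pow_sum]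
  rw [h7, Finset.prod_mul_distrib]
  have h8 : 0 ≤ w ^ B.card * ∏ v, w ^ (A v).card :=
    mul_nonneg (pow_nonneg hw _) (Finset.prod_nonneg fun v _ => pow_nonneg hw _)
  calc q ^ Fintype.card V * (q ^ kk (gadB φ M α) (asm φ M A B) * (w ^ B.card * ∏ v, w ^ (A v).card))
      = (q ^ Fintype.card V * q ^ kk (gadB φ M α) (asm φ M A B)) * (w ^ B.card * ∏ v, w ^ (A v).card) := by ring
    _ ≤ (q ^ kk (nl φ) B * ∏ v, q ^ kk (kg M) (A v)) * (w ^ B.card * ∏ v, w ^ (A v).card) :=
        mul_le_mul_of_nonneg_right h6 h8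
    _ = q ^ kk (nl φ) B * w ^ B.card * ((∏ v, q ^ kk (kg M) (A v)) * ∏ v, w ^ (A v).card) := by ring

end Pool.Agent.Work.MP_63853a_lc.HF
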