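import Pool.Agent.Work.MP_63853a_lc.HF.Defs
import Pool.Agent.Work.MP_63853a_lc.HF.KgZ
import Pool.Agent.Work.MP_63853a_lc.HF.LoopZ
import Pool.Agent.Work.MP_63853a_lc.HF.ZBup
import Pool.Agent.Work.MP_63853a_lc.HF.ZBlo
import Pool.Agent.Work.MP_63853a_lc.TutteZ

set_option autoImplicit false

/-!
# ScB1 (size M)

`q = (x - 1) * (y - 1)`, `w = y - 1`, `D = (x - 1) ^ kk φ univ * (y - 1) ^ card V`, `l` = number of loops,
`P = card (Prs M)`. `tutte_zz` for both graphs: `scB * tutte (gadB) = y ^ l * zz (gadB) q w / (y ^ (card V * P) * D)` and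
`tutte φ x y = zz φ q w / D = y ^ l * zz (nl φ) q w / D` (`zz_loops`, `1 + w = y`).
Upper bound: `zb_up`, `kg_upper`: `q ^ card V * zz (gadB) ≤ zz (nl φ) * (q * y ^ P * (1 + (q - 1) β) ^ (M - 1)) ^ card V`; cancel
`q ^ card V`. Lower bound: `zb_lo`, `kg_lower` (`0 ≤ 2 - (1 + β) ^ (M - 1)` by `hb`, `pow_le_pow_left₀`).
-/

namespace Pool.Agent.Work.MP_63853a_lc.HF

open Finset Pool.Agent.Work.MP_63853a_lc Pool.Agent.Work.MP_63853a_lc.Tr

theorem scB_bounds {V E : Type} [Fintype V] [Fintype E] (φ : E → V × V) {x y : ℝ} (hx : 1 < x) (hy : 1 < y)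
    (hq : 1 ≤ (x - 1) * (y - 1)) {M : ℕ} (hM : 1 ≤ M) (α : E ⊕ E → Fin M) {β : ℝ}
    (hβ : β = Real.exp (-(((M : ℝ) - 1) * Real.log y / 2))) (hb : (1 + β) ^ (M - 1) ≤ 2) :
    (2 - (1 + β) ^ (M - 1)) ^ Fintype.card V * tutte φ x y ≤ scB φ x y M α * tutte (gadB φ M α) x y ∧
      scB φ x y M α * tutte (gadB φ M α) x y ≤
        (1 + ((x - 1) * (y - 1) - 1) * β) ^ ((M - 1) * Fintype.card V) * tutte φ x y := by
  have hx' : 0 < x - 1 := by linarith
  have hy' : 0 < y - 1 := by linarith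
  have hy0 : 0 < y := by linarith
  set q := (x - 1) * (y - 1) with hqd
  have hq0 : 0 < q := by linarith
  set n := Fintype.card V with hn
  set P := Fintype.card (Prs M) with hP
  set l := Fintype.card E - Fintype.card (NL φ) with hl
  have hβ0 : 0 < β := by
    rw [hβ]
    exact Real.exp_pos _
  -- the two partition functions
  have hz1 := tutte_zz (gadB φ M α) x y
  have hz2 := tutte_zz φ x y
  rw [← hqd] at hz1 hz2
  have hloop := zz_loops φ q (y - 1)
  have h1y : (1 + (y - 1) : ℝ) = y := by ring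
  rw [h1y, ← hl] at hloop
  set D : ℝ := (x - 1) ^ kk φ univ * (y - 1) ^ n with hD
  set D' : ℝ := (x - 1) ^ kk (gadB φ M α) univ * (y - 1) ^ Fintype.card (V × Fin M) with hD'
  have hDpos : 0 < D := by positivity
  have hD'pos : 0 < D' := by positivity
  have hyP : 0 < y ^ (n * P) := by positivity
  have hyl : 0 < y ^ l := by positivity
  set Z1 := zz (gadB φ M α) q (fun _ => y - 1) with hZ1
  set Z2 := zz (nl φ) q (fun _ => y - 1) with hZ2
  have hsc : scB φ x y M α * tutte (gadB φ M α) x y = y ^ l * Z1 / (y ^ (n * P) * D) := by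
    unfold scB
    rw [← hn, ← hP, ← hl, ← hD, ← hD', ← hz1]
    ring
  have htu : tutte φ x y = y ^ l * Z2 / D := by
    rw [eq_div_iff hDpos.ne', ← hloop, ← hz2]
    ring
  have hZ2nn : 0 ≤ Z2 := by
    rw [hZ2]
    unfold zz
    exact Finset.sum_nonneg fun A _ => mul_nonneg (pow_nonneg hq0.le _) (Finset.prod_nonneg fun _ _ => hy'.le)
  rw [hsc, htu]
  constructor
  · have h1 := zb_lo φ hM α (q := q) (w := y - 1) hq hy'.le
    have h2 := kg_lower hM hy
    rw [← hβ, ← hP] at h2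
    have h3 : (0 : ℝ) ≤ y ^ P * (2 - (1 + β) ^ (M - 1)) :=
      mul_nonneg (pow_nonneg hy0.le _) (by linarith)
    have h4 := pow_le_pow_left₀ h3 h2 n
    have h5 : Z2 * (y ^ P * (2 - (1 + β) ^ (M - 1))) ^ n ≤ Z1 := by
      refine (mul_le_mul_of_nonneg_left h4 hZ2nn).trans ?_
      rw [hZ1, hZ2, hn]
      exact h1
    rw [mul_pow, ← pow_mul, mul_comm P n] at h5
    rw [← mul_div_assoc, div_le_div_iff₀ hDpos (by positivity)]
    calc (2 - (1 + β) ^ (M - 1)) ^ n * (y ^ l * Z2) * (y ^ (n * P) * D)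
        = (Z2 * (y ^ (n * P) * (2 - (1 + β) ^ (M - 1)) ^ n)) * (y ^ l * D) := by ring
      _ ≤ Z1 * (y ^ l * D) := mul_le_mul_of_nonneg_right h5 (by positivity)
      _ = y ^ l * Z1 * D := by ring
  · have h1 := zb_up φ hM α (q := q) (w := y - 1) hq hy'.le
    have h2 := kg_upper hM hq hy
    rw [← hβ, ← hP] at h2
    rw [← hn, ← hZ1, ← hZ2] at h1
    have h3 : (0 : ℝ) ≤ zz (kg M) q (fun _ => y - 1) := by
      unfold zz
      exact Finset.sum_nonneg fun A _ => mul_nonneg (pow_nonneg hq0.le _) (Finset.prod_nonneg fun _ _ => hy'.le)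
    have h4 := pow_le_pow_left₀ h3 h2 n
    have h5 := h1.trans (mul_le_mul_of_nonneg_left h4 hZ2nn)
    have h6 : (q * y ^ P * (1 + (q - 1) * β) ^ (M - 1)) ^ n =
        q ^ n * (y ^ (n * P) * (1 + (q - 1) * β) ^ ((M - 1) * n)) := by
      rw [mul_pow, mul_pow, ← pow_mul, ← pow_mul, mul_comm P n]
      ring
    rw [h6] at h5
    have h7 : Z1 ≤ Z2 * (y ^ (n * P) * (1 + (q - 1) * β) ^ ((M - 1) * n)) := by
      have hqn : 0 < q ^ n := pow_pos hq0 n
      have h8 : q ^ n * Z1 ≤ q ^ n * (Z2 * (y ^ (n * P) * (1 + (q - 1) * β) ^ ((M - 1) * n))) := by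
        refine h5.trans (le_of_eq ?_)
        ring
      exact le_of_mul_le_mul_left h8 hqn
    rw [← mul_div_assoc, div_le_div_iff₀ (by positivity) hDpos]
    calc y ^ l * Z1 * D = Z1 * (y ^ l * D) := by ring
      _ ≤ Z2 * (y ^ (n * P) * (1 + (q - 1) * β) ^ ((M - 1) * n)) * (y ^ l * D) :=
        mul_le_mul_of_nonneg_right h7 (by positivity)
      _ = (1 + (q - 1) * β) ^ ((M - 1) * n) * (y ^ l * Z2) * (y ^ (n * P) * D) := by ring

end Pool.Agent.Work.MP_63853a_lc.HF
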